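import Mathlib

-- part Pool.Agent.Lib.MP_5fa244_nt.Hankel
section

/-! Hankel determinants of a linear functional on polynomials, and a Wronskian zero estimate. -/

namespace Pool.Agent.Lib.MP_5fa244_nt

open Polynomial Finset

/-- The Hankel determinant of size `m` of a functional. -/
noncomputable def hankel (φ : ℚ[X] →ₗ[ℚ] ℚ) (m : ℕ) : ℚ :=
  (Matrix.of fun i l : Fin m => φ (X ^ (i : ℕ) * X ^ (l : ℕ))).det

lemma hankel_basis (φ : ℚ[X] →ₗ[ℚ] ℚ) (m : ℕ) (p : ℕ → ℚ[X]) (hd : ∀ i, (p i).natDegree = i)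
    (hm : ∀ i, (p i).Monic) :
    (Matrix.of fun i l : Fin m => φ (p i * p l)).det = hankel φ m := by
  set U : Matrix (Fin m) (Fin m) ℚ := Matrix.of fun i j : Fin m => (p j).coeff i with hU
  have hdet : U.det = 1 := Matrix.det_matrixOfPolynomials (fun i : Fin m => p i)
    (fun i => hd i) fun i => hm i
  have hp : ∀ i : Fin m, p i = ∑ t : Fin m, (p i).coeff t • X ^ (t : ℕ) := by
    intro i
    conv_lhs => rw [(p i).as_sum_range' m (by rw [hd]; exact i.2), Finset.sum_range]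
    simp [smul_X_eq_monomial]
  have : (Matrix.of fun i l : Fin m => φ (p i * p l))
      = U.transpose * (Matrix.of fun i l : Fin m => φ (X ^ (i : ℕ) * X ^ (l : ℕ))) * U := by
    ext i l
    simp only [Matrix.of_apply, Matrix.mul_apply, Matrix.transpose_apply, hU]
    conv_lhs => rw [hp i, hp l, Finset.sum_mul_sum, map_sum]
    simp only [map_sum, smul_mul_smul_comm, map_smul, smul_eq_mul, Finset.sum_mul]
    rw [Finset.sum_comm]
    refine Finset.sum_congr rfl fun _ _ => Finset.sum_congr rfl fun _ _ => by ring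
  rw [this, Matrix.det_mul, Matrix.det_mul, Matrix.det_transpose, hdet, hankel]
  ring

lemma phi_mul_eq_zero (φ : ℚ[X] →ₗ[ℚ] ℚ) (q : ℚ[X]) (N : ℕ) (h : ∀ l < N, φ (q * X ^ l) = 0)
    (r : ℚ[X]) (hr : r.degree < N) : φ (q * r) = 0 := by
  by_cases h0 : r = 0
  · simp [h0]
  have : r.natDegree < N := (natDegree_lt_iff_degree_lt h0).2 hr
  rw [r.as_sum_range' N this, Finset.mul_sum, map_sum]
  refine Finset.sum_eq_zero fun l hl => ?_
  rw [← smul_X_eq_monomial, mul_smul_comm, map_smul, h l (Finset.mem_range.1 hl), smul_zero]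

lemma exists_ker_of_hankel (φ : ℚ[X] →ₗ[ℚ] ℚ) (m : ℕ) (h : hankel φ m = 0) :
    ∃ q : ℚ[X], q ≠ 0 ∧ q.natDegree < m ∧ ∀ l < m, φ (q * X ^ l) = 0 := by
  obtain ⟨v, hv0, hv⟩ := Matrix.exists_vecMul_eq_zero_iff.2 h
  have hc : ∀ i : Fin m, (∑ t : Fin m, v t • (X : ℚ[X]) ^ (t : ℕ)).coeff i = v i := by
    intro i
    simp only [finsetSum_coeff, coeff_smul, coeff_X_pow, smul_eq_mul, mul_ite, mul_one, mul_zero]
    rw [Finset.sum_eq_single i]
    · simp
    · intro t _ ht
      rw [if_neg]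
      exact fun h => ht (Fin.ext h.symm)
    · simp
  have hq : (∑ t : Fin m, v t • (X : ℚ[X]) ^ (t : ℕ)) ≠ 0 := by
    intro h0
    apply hv0
    ext i
    rw [← hc i, h0]
    simp
  refine ⟨∑ t : Fin m, v t • X ^ (t : ℕ), hq, ?_, fun l hl => ?_⟩
  · rw [natDegree_lt_iff_degree_lt hq]
    refine (degree_lt_iff_coeff_zero _ _).2 fun j hj => ?_
    simp only [finsetSum_coeff, coeff_smul, coeff_X_pow, smul_eq_mul, mul_ite, mul_one, mul_zero]
    refine Finset.sum_eq_zero fun t _ => ?_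
    rw [if_neg]
    have := t.2
    omega
  · have := congrFun hv ⟨l, hl⟩
    simp only [Matrix.vecMul, dotProduct, Matrix.of_apply, Pi.zero_apply] at this
    rw [Finset.sum_mul, map_sum, ← this]
    refine Finset.sum_congr rfl fun t _ => ?_
    rw [smul_mul_assoc, map_smul, smul_eq_mul]

/-- Gaps between nonvanishing Hankel determinants. -/
lemma exists_hankel_ne_zero (φ : ℚ[X] →ₗ[ℚ] ℚ) (m g : ℕ)
    (h : ∀ q : ℚ[X], q ≠ 0 → q.natDegree < m → ∃ l < m + g, φ (q * X ^ l) ≠ 0) :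
    ∃ m', m ≤ m' ∧ m' ≤ m + g ∧ hankel φ m' ≠ 0 := by
  classical
  by_contra hcon
  push Not at hcon
  have hex : ∃ d, ∃ q : ℚ[X], q ≠ 0 ∧ q.natDegree = d ∧ ∀ l < m + g, φ (q * X ^ l) = 0 := by
    obtain ⟨q, h1, -, h3⟩ := exists_ker_of_hankel φ _ (hcon (m + g) (by omega) le_rfl)
    exact ⟨_, q, h1, rfl, h3⟩
  obtain ⟨q, hq0, hqd, hq⟩ := Nat.find_spec hex
  have hmin : ∀ q' : ℚ[X], q' ≠ 0 → (∀ l < m + g, φ (q' * X ^ l) = 0) →
      q.natDegree ≤ q'.natDegree := fun q' h1 h2 => by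
    rw [hqd]
    exact Nat.find_min' hex ⟨q', h1, rfl, h2⟩
  have hlt : q.natDegree < m + g := by
    obtain ⟨q1, h1, h2, h3⟩ := exists_ker_of_hankel φ _ (hcon (m + g) (by omega) le_rfl)
    exact (hmin q1 h1 h3).trans_lt h2
  have hge : m ≤ q.natDegree := by
    by_contra hh
    obtain ⟨l, hl, hl2⟩ := h q hq0 (by omega)
    exact hl2 (hq l hl)
  obtain ⟨q', h1, h2, h3⟩ := exists_ker_of_hankel φ _ (hcon q.natDegree hge hlt.le)
  have hex2 : ∃ l, l < m + g ∧ φ (q' * X ^ l) ≠ 0 := by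
    by_contra hh
    push Not at hh
    have := hmin q' h1 hh
    omega
  obtain ⟨hl1, hl2⟩ := Nat.find_spec hex2
  set l0 := Nat.find hex2 with hl0
  have hl3 : ∀ l < l0, φ (q' * X ^ l) = 0 := fun l hl => by
    have := Nat.find_min hex2 hl
    push Not at this
    exact this (by omega)
  have hl4 : q.natDegree ≤ l0 := by
    by_contra hh
    exact hl2 (h3 l0 (by omega))
  have e1 : φ (q * (q' * X ^ (l0 - q.natDegree))) = 0 := by
    refine phi_mul_eq_zero φ q _ hq _ ?_
    refine degree_le_natDegree.trans_lt ?_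
    rw [natDegree_mul_X_pow _ h1]
    exact_mod_cast (by omega)
  have e2 : φ (q' * (q * X ^ (l0 - q.natDegree) - C q.leadingCoeff * X ^ l0)) = 0 := by
    refine phi_mul_eq_zero φ q' _ hl3 _ ?_
    have hd : (q * X ^ (l0 - q.natDegree)).degree = (l0 : WithBot ℕ) := by
      rw [degree_eq_natDegree (mul_ne_zero hq0 (pow_ne_zero _ X_ne_zero)), natDegree_mul_X_pow _ hq0]
      congr 1
      omega
    rw [← hd]
    refine degree_sub_lt_left ?_ (mul_ne_zero hq0 (pow_ne_zero _ X_ne_zero)) ?_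
    · rw [hd, degree_C_mul_X_pow _ (leadingCoeff_ne_zero.2 hq0)]
    · simp
  rw [mul_sub, map_sub, mul_left_comm, e1, zero_sub, neg_eq_zero, mul_left_comm, ← smul_eq_C_mul,
    map_smul, smul_eq_mul] at e2
  exact mul_ne_zero (leadingCoeff_ne_zero.2 hq0) hl2 e2

lemma abs_det_le {m : ℕ} (M : Matrix (Fin m) (Fin m) ℚ) (B : ℝ) (T : ℕ → ℝ)
    (h : ∀ i l : Fin m, |(M i l : ℝ)| ≤ B * Real.exp (T i + T l)) :
    |(M.det : ℝ)| ≤ m.factorial * B ^ m * Real.exp (2 * ∑ i ∈ range m, T i) := by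
  rw [Matrix.det_apply']
  push_cast
  refine (Finset.abs_sum_le_sum_abs _ _).trans ?_
  have : ∀ σ : Equiv.Perm (Fin m), |((Equiv.Perm.sign σ : ℤ) : ℝ) * ∏ i, (M (σ i) i : ℝ)|
      ≤ B ^ m * Real.exp (2 * ∑ i ∈ range m, T i) := by
    intro σ
    have h1 : |((Equiv.Perm.sign σ : ℤ) : ℝ)| = 1 := by
      rcases Int.units_eq_one_or (Equiv.Perm.sign σ) with h | h <;> simp [h]
    rw [abs_mul, h1, one_mul, Finset.abs_prod]
    refine (Finset.prod_le_prod (fun _ _ => abs_nonneg _) fun i _ => h (σ i) i).trans ?_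
    rw [Finset.prod_mul_distrib, Finset.prod_const, ← Real.exp_sum, Finset.sum_add_distrib,
      Equiv.sum_comp σ (fun i : Fin m => T i), Finset.sum_range]
    simp [two_mul]
  refine (Finset.sum_le_sum fun σ _ => this σ).trans ?_
  rw [Finset.sum_const, Finset.card_univ, Fintype.card_perm, Fintype.card_fin, nsmul_eq_mul,
    mul_assoc]

/-- The operator `D + c` on polynomials. -/
noncomputable def opT (c : ℚ) (A : ℚ[X]) : ℚ[X] := derivative A + C c * A

lemma natDegree_opT_iter (c : ℚ) (A : ℚ[X]) (l : ℕ) :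
    ((opT c)^[l] A).natDegree ≤ A.natDegree ∧
      ((opT c)^[l] A).coeff A.natDegree = c ^ l * A.leadingCoeff := by
  induction l with
  | zero => simp
  | succ l ih =>
    rw [Function.iterate_succ_apply']
    set B := (opT c)^[l] A
    unfold opT
    constructor
    · refine (natDegree_add_le _ _).trans (max_le ?_ ?_)
      · exact (natDegree_derivative_le _).trans ((Nat.sub_le _ _).trans ih.1)
      · exact (natDegree_C_mul_le _ _).trans ih.1
    · rw [coeff_add, coeff_C_mul, ih.2, coeff_derivative,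
        coeff_eq_zero_of_natDegree_lt (by omega)]
      ring

lemma coeff_prod_of_le {ι : Type*} (s : Finset ι) (f : ι → ℚ[X]) (d : ι → ℕ)
    (h : ∀ i ∈ s, (f i).natDegree ≤ d i) :
    (∏ i ∈ s, f i).natDegree ≤ ∑ i ∈ s, d i ∧
      (∏ i ∈ s, f i).coeff (∑ i ∈ s, d i) = ∏ i ∈ s, (f i).coeff (d i) := by
  classical
  induction s using Finset.induction_on with
  | empty => simp
  | insert a s ha ih =>
    have h1 := ih fun i hi => h i (Finset.mem_insert_of_mem hi)
    have h2 := h a (Finset.mem_insert_self _ _)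
    rw [Finset.prod_insert ha, Finset.sum_insert ha, Finset.prod_insert ha]
    exact ⟨natDegree_mul_le.trans (add_le_add h2 h1.1),
      by rw [coeff_mul_add_eq_of_natDegree_le h2 h1.1, h1.2]⟩

/-- Generalised Wronskian. -/
noncomputable def wr {r : ℕ} (c : Fin r → ℚ) (A : Fin r → ℚ[X]) (e : Fin r → ℕ) : ℚ[X] :=
  (Matrix.of fun j i : Fin r => (opT (c j))^[e i] (A j)).det

lemma derivative_wr {r : ℕ} (c : Fin r → ℚ) (A : Fin r → ℚ[X]) (e : Fin r → ℕ) :
    derivative (wr c A e)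
      = ∑ i, wr c A (Function.update e i (e i + 1)) - C (∑ j, c j) * wr c A e := by
  simp only [wr, Matrix.det_apply, Matrix.of_apply, derivative_sum, Finset.mul_sum]
  rw [Finset.sum_comm, ← Finset.sum_sub_distrib]
  refine Finset.sum_congr rfl fun σ _ => ?_
  rw [Units.smul_def, derivative_smul, derivative_prod_finset, ← Finset.smul_sum, Units.smul_def,
    mul_smul_comm, ← smul_sub]
  congr 1
  rw [← Equiv.sum_comp σ c, map_sum, Finset.sum_mul, ← Finset.sum_sub_distrib]
  refine Finset.sum_congr rfl fun i _ => ?_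
  rw [← Finset.mul_prod_erase _ _ (Finset.mem_univ i),
    ← Finset.mul_prod_erase _ (fun i => (opT (c (σ i)))^[e i] (A (σ i))) (Finset.mem_univ i)]
  have : ∏ x ∈ univ.erase i, (opT (c (σ x)))^[Function.update e i (e i + 1) x] (A (σ x))
      = ∏ x ∈ univ.erase i, (opT (c (σ x)))^[e x] (A (σ x)) :=
    Finset.prod_congr rfl fun x hx => by rw [Function.update_of_ne (Finset.ne_of_mem_erase hx)]
  rw [this, Function.update_self, Function.iterate_succ_apply']
  unfold opT
  ring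

lemma wr_vanish {r : ℕ} (hr : 0 < r) (c : Fin r → ℚ) (A : Fin r → ℚ[X]) (β : ℚ) (x : Fin r → ℚ)
    (hx : ∀ j, x j ≠ 0) (N : ℕ)
    (h : ∀ l < N, ∑ j, x j * ((opT (c j))^[l] (A j)).eval β = 0) (t : ℕ) :
    ∀ e : Fin r → ℕ, (∀ i, e i + t < N) → (derivative^[t] (wr c A e)).eval β = 0 := by
  induction t with
  | zero =>
    intro e he
    rw [Function.iterate_zero_apply, wr, ← coe_evalRingHom, RingHom.map_det]
    refine Matrix.exists_vecMul_eq_zero_iff.1 ⟨x, fun h0 => hx ⟨0, hr⟩ (congrFun h0 _), ?_⟩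
    ext i
    simpa [Matrix.vecMul, dotProduct] using h (e i) (by simpa using he i)
  | succ t ih =>
    intro e he
    rw [Function.iterate_succ_apply, derivative_wr, iterate_derivative_sub, iterate_derivative_sum,
      iterate_derivative_C_mul, eval_sub, eval_mul, ih e fun i => by have := he i; omega,
      eval_finsetSum, Finset.sum_eq_zero]
    · simp
    intro i _
    refine ih _ fun i' => ?_
    by_cases hi : i' = i
    · subst hi
      have := he i'
      simp only [Function.update_self]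
      omega
    · have := he i'
      rw [Function.update_of_ne hi]
      omega

/-- Zero estimate for exponential polynomials at two points. -/
theorem zero_estimate {r : ℕ} (hr : 0 < r) (c : Fin r → ℚ) (hc : Function.Injective c)
    (A : Fin r → ℚ[X]) (hA : ∀ j, A j ≠ 0) (d : ℕ) (hd : ∀ j, (A j).natDegree ≤ d)
    (β : ℚ) (hβ : β ≠ 0) (x : Fin r → ℚ) (hx : ∀ j, x j ≠ 0) (N₀ N₁ : ℕ)
    (h0 : ∀ l < N₀, ∑ j, ((opT (c j))^[l] (A j)).eval 0 = 0)
    (h1 : ∀ l < N₁, ∑ j, x j * ((opT (c j))^[l] (A j)).eval β = 0) :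
    N₀ + N₁ ≤ r * d + 2 * r := by
  set w := wr c A fun i => (i : ℕ) with hw
  have hterm : ∀ σ : Equiv.Perm (Fin r),
      (∏ i, (opT (c (σ i)))^[(i : ℕ)] (A (σ i))).natDegree ≤ ∑ j, (A j).natDegree ∧
      (∏ i, (opT (c (σ i)))^[(i : ℕ)] (A (σ i))).coeff (∑ j, (A j).natDegree)
        = (∏ i, c (σ i) ^ (i : ℕ)) * ∏ j, (A j).leadingCoeff := by
    intro σ
    have := coeff_prod_of_le univ (fun i => (opT (c (σ i)))^[(i : ℕ)] (A (σ i)))
      (fun i => (A (σ i)).natDegree) fun i _ => (natDegree_opT_iter _ _ _).1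
    rw [Equiv.sum_comp σ fun j => (A j).natDegree] at this
    refine ⟨this.1, ?_⟩
    rw [this.2, ← Equiv.prod_comp σ fun j => (A j).leadingCoeff, ← Finset.prod_mul_distrib]
    exact Finset.prod_congr rfl fun i _ => (natDegree_opT_iter _ _ _).2
  have hdeg : w.natDegree ≤ r * d := by
    rw [hw, wr, Matrix.det_apply]
    refine natDegree_sum_le_of_forall_le _ _ fun σ _ => ?_
    refine (natDegree_smul_le _ _).trans ((hterm σ).1.trans ?_)
    refine (Finset.sum_le_sum fun j _ => hd j).trans ?_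
    simp
  have hw0 : w ≠ 0 := by
    intro h
    have h2 : w.coeff (∑ j, (A j).natDegree)
        = (Matrix.vandermonde c).det * ∏ j, (A j).leadingCoeff := by
      rw [hw, wr, Matrix.det_apply, Matrix.det_apply, finsetSum_coeff, Finset.sum_mul]
      refine Finset.sum_congr rfl fun σ _ => ?_
      rw [coeff_smul]
      simp only [Matrix.of_apply, Matrix.vandermonde_apply]
      rw [(hterm σ).2, smul_mul_assoc]
    rw [h, coeff_zero] at h2
    exact mul_ne_zero (Matrix.det_vandermonde_ne_zero_iff.2 hc)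
      (Finset.prod_ne_zero_iff.2 fun j _ => leadingCoeff_ne_zero.2 (hA j)) h2.symm
  have key : ∀ (γ : ℚ) (y : Fin r → ℚ), (∀ j, y j ≠ 0) → ∀ N : ℕ,
      (∀ l < N, ∑ j, y j * ((opT (c j))^[l] (A j)).eval γ = 0) → (X - C γ) ^ (N - r) ∣ w := by
    intro γ y hy N hN
    rw [← le_rootMultiplicity_iff hw0]
    by_cases hNr : N ≤ r
    · simp [Nat.sub_eq_zero_of_le hNr]
    refine le_of_lt (lt_rootMultiplicity_of_isRoot_iterate_derivative hw0 fun t ht => ?_)
    refine wr_vanish hr c A γ y hy N hN t _ fun i => ?_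
    have := i.2
    omega
  have d0 := key 0 (fun _ => 1) (fun _ => one_ne_zero) N₀ (by simpa using h0)
  have d1 := key β x hx N₁ h1
  have hcop : IsCoprime ((X - C (0 : ℚ)) ^ (N₀ - r)) ((X - C β) ^ (N₁ - r)) :=
    (isCoprime_X_sub_C_of_isUnit_sub (by simpa using hβ)).pow
  have := natDegree_le_of_dvd (hcop.mul_dvd d0 d1) hw0
  rw [natDegree_mul (pow_ne_zero _ (X_sub_C_ne_zero _)) (pow_ne_zero _ (X_sub_C_ne_zero _)),
    natDegree_pow, natDegree_pow, natDegree_X_sub_C, natDegree_X_sub_C] at this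
  omega

end Pool.Agent.Lib.MP_5fa244_nt
end

-- part Pool.Agent.Lib.MP_5fa244_nt.Local
section

/-! Local expansions at the poles `0, …, k`, the functional and its nondegeneracy. -/

namespace Pool.Agent.Lib.MP_5fa244_nt

open Polynomial Finset

/-- The series `x + u`. -/
noncomputable def lin (x : ℚ) : PowerSeries ℚ := PowerSeries.C x + PowerSeries.X

/-- The series `1 / (x + u)`. -/
noncomputable def linv (x : ℚ) : PowerSeries ℚ := PowerSeries.mk fun d => (-1) ^ d / x ^ (d + 1)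

/-- The series `exp (b u)`. -/
noncomputable def ex (b : ℚ) : PowerSeries ℚ := PowerSeries.mk fun d => b ^ d / d.factorial

lemma coeff_lin_mul (x : ℚ) (F : PowerSeries ℚ) (d : ℕ) :
    PowerSeries.coeff d (lin x * F)
      = x * PowerSeries.coeff d F + if d = 0 then 0 else PowerSeries.coeff (d - 1) F := by
  rw [lin, add_mul, map_add, PowerSeries.coeff_C_mul]
  congr 1
  cases d with
  | zero => simp
  | succ d => simp [PowerSeries.coeff_succ_X_mul]

lemma lin_mul_linv {x : ℚ} (hx : x ≠ 0) : lin x * linv x = 1 := by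
  ext d
  rw [coeff_lin_mul]
  cases d with
  | zero => simp [linv, hx]
  | succ d =>
    simp only [linv, PowerSeries.coeff_mk, Nat.add_sub_cancel, PowerSeries.coeff_one,
      Nat.succ_ne_zero, if_false]
    field_simp
    ring

/-- Expansion of a polynomial at the point `j`. -/
noncomputable def tay (j : ℚ) : ℚ[X] →ₐ[ℚ] PowerSeries ℚ := aeval (lin j)

lemma tay_eq (j : ℚ) (f : ℚ[X]) : tay j f = ((taylor j f : ℚ[X]) : PowerSeries ℚ) := by
  induction f using Polynomial.induction_on' with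
  | add p q hp hq => simp [hp, hq]
  | monomial n a =>
    rw [← C_mul_X_pow_eq_monomial, taylor_mul, taylor_pow, taylor_C, taylor_X]
    simp [tay, lin, add_comm]

lemma tay_X_sub_C (j x : ℚ) : tay j (X - C x) = lin (j - x) := by
  simp only [tay, map_sub, aeval_X, aeval_C, lin]
  simp
  ring

lemma tay_X (j : ℚ) : tay j X = lin j := by simp [tay]

/-- The denominator. -/
noncomputable def Qden (k n : ℕ) : ℚ[X] := ∏ i ∈ range (k + 1), (X - C (i : ℚ)) ^ n

/-- The denominator without the pole `j`. -/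
noncomputable def Qj (k n j : ℕ) : ℚ[X] := ∏ i ∈ (range (k + 1)).erase j, (X - C (i : ℚ)) ^ n

/-- Expansion of `1 / Qj` at `j`. -/
noncomputable def Gj (k n j : ℕ) : PowerSeries ℚ :=
  ∏ i ∈ (range (k + 1)).erase j, linv ((j : ℚ) - i) ^ n

lemma tay_Qj_mul (k n j : ℕ) : tay j (Qj k n j) * Gj k n j = 1 := by
  rw [Qj, Gj, map_prod, ← Finset.prod_mul_distrib]
  refine Finset.prod_eq_one fun i hi => ?_
  rw [map_pow, tay_X_sub_C, ← mul_pow, lin_mul_linv, one_pow]
  have := Finset.ne_of_mem_erase hi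
  exact sub_ne_zero.2 (by exact_mod_cast this.symm)

/-- Expansion of `f / Qj` at `j`. -/
noncomputable def loc (k n j : ℕ) (f : ℚ[X]) : PowerSeries ℚ := tay j f * Gj k n j

/-- Principal part at `j`, as a polynomial. -/
noncomputable def Tj (k n j : ℕ) (f : ℚ[X]) : ℚ[X] :=
  ∑ t ∈ range n, C (PowerSeries.coeff t (loc k n j f)) * (X - C (j : ℚ)) ^ t

lemma Qden_eq (k n j : ℕ) (hj : j ∈ range (k + 1)) : Qden k n = (X - C (j : ℚ)) ^ n * Qj k n j := by
  rw [Qden, Qj, ← Finset.mul_prod_erase _ _ hj]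

lemma pow_dvd_of_tay (j : ℚ) (n : ℕ) (f : ℚ[X]) (h : ∀ d < n, PowerSeries.coeff d (tay j f) = 0) :
    (X - C j) ^ n ∣ f := by
  have h1 : X ^ n ∣ taylor j f := by
    rw [Polynomial.X_pow_dvd_iff]
    intro d hd
    have := h d hd
    rwa [tay_eq, Polynomial.coeff_coe] at this
  obtain ⟨g, hg⟩ := h1
  refine ⟨taylor (-j) g, ?_⟩
  have := congrArg (taylor (-j)) hg
  rw [taylor_taylor, neg_add_cancel, taylor_zero, taylor_mul, taylor_pow, taylor_X] at this
  rw [this]
  simp [sub_eq_add_neg]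

lemma Qden_dvd (k n : ℕ) (f : ℚ[X]) (h : ∀ j ∈ range (k + 1), (X - C (j : ℚ)) ^ n ∣ f) :
    Qden k n ∣ f := by
  refine Finset.prod_dvd_of_coprime (fun i _ j _ hij => ?_) h
  refine (isCoprime_X_sub_C_of_isUnit_sub ?_).pow
  exact IsUnit.mk0 _ (sub_ne_zero.2 (by exact_mod_cast hij))

/-- Decomposition in simple fractions. -/
theorem frac_dvd (k n : ℕ) (f : ℚ[X]) :
    Qden k n ∣ f - ∑ j ∈ range (k + 1), Qj k n j * Tj k n j f := by
  refine Qden_dvd k n _ fun j hj => ?_
  rw [← Finset.add_sum_erase _ _ hj, ← sub_sub]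
  refine dvd_sub ?_ (Finset.dvd_sum fun i hi => dvd_mul_of_dvd_left ?_ _)
  · refine pow_dvd_of_tay _ _ _ fun d hd => ?_
    have h1 : tay j (Tj k n j f)
        = ∑ t ∈ range n, PowerSeries.C (PowerSeries.coeff t (loc k n j f)) * PowerSeries.X ^ t := by
      rw [Tj, map_sum]
      refine Finset.sum_congr rfl fun t _ => ?_
      rw [map_mul, map_pow, tay_X_sub_C]
      simp [tay, lin]
    have h2 : tay j f = tay j (Qj k n j) * loc k n j f := by
      rw [loc, mul_left_comm, tay_Qj_mul, mul_one]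
    have h3 : PowerSeries.X ^ n ∣ loc k n j f - tay j (Tj k n j f) := by
      rw [PowerSeries.X_pow_dvd_iff]
      intro m hm
      rw [h1, map_sub, map_sum, Finset.sum_eq_single m]
      · simp [PowerSeries.coeff_C_mul, PowerSeries.coeff_X_pow]
      · intro t _ ht
        simp [PowerSeries.coeff_C_mul, PowerSeries.coeff_X_pow, ht.symm]
      · intro h
        exact absurd (Finset.mem_range.2 hm) h
    rw [map_sub, map_mul]
    nth_rewrite 1 [h2]
    rw [← mul_sub]
    exact PowerSeries.X_pow_dvd_iff.1 (dvd_mul_of_dvd_right h3 _) d hd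
  · refine Finset.dvd_prod_of_mem (fun i : ℕ => (X - C (i : ℚ)) ^ n) ?_
    exact Finset.mem_erase.2 ⟨(Finset.ne_of_mem_erase hi).symm, hj⟩

lemma monic_Qden (k n : ℕ) : (Qden k n).Monic :=
  monic_prod_of_monic _ _ fun _ _ => (monic_X_sub_C _).pow _

lemma monic_Qj (k n j : ℕ) : (Qj k n j).Monic :=
  monic_prod_of_monic _ _ fun _ _ => (monic_X_sub_C _).pow _

lemma natDegree_Qden (k n : ℕ) : (Qden k n).natDegree = (k + 1) * n := by
  rw [Qden, natDegree_prod_of_monic _ _ fun _ _ => (monic_X_sub_C _).pow _]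
  simp only [natDegree_pow, natDegree_X_sub_C, mul_one, sum_const, card_range, smul_eq_mul]

lemma natDegree_Qj (k n j : ℕ) (hj : j ∈ range (k + 1)) : (Qj k n j).natDegree = k * n := by
  rw [Qj, natDegree_prod_of_monic _ _ fun _ _ => (monic_X_sub_C _).pow _]
  simp only [natDegree_pow, natDegree_X_sub_C, mul_one, sum_const, card_erase_of_mem hj,
    card_range, smul_eq_mul, Nat.add_sub_cancel]

lemma Tj_deg (k n j : ℕ) (f : ℚ[X]) :
    (Tj k (n + 1) j f).natDegree ≤ n ∧
      (Tj k (n + 1) j f).coeff n = PowerSeries.coeff n (loc k (n + 1) j f) := by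
  have hd : ∀ t, ((X - C (j : ℚ)) ^ t).natDegree = t := fun t => by
    rw [natDegree_pow, natDegree_X_sub_C, mul_one]
  constructor
  · refine natDegree_sum_le_of_forall_le _ _ fun t ht => (natDegree_C_mul_le _ _).trans ?_
    rw [hd]
    exact Nat.lt_succ_iff.1 (Finset.mem_range.1 ht)
  · rw [Tj, finsetSum_coeff, Finset.sum_range_succ, Finset.sum_eq_zero, zero_add, coeff_C_mul]
    · have := ((monic_X_sub_C (j : ℚ)).pow n).coeff_natDegree
      rw [hd] at this
      rw [this, mul_one]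
    · intro t ht
      rw [coeff_C_mul, coeff_eq_zero_of_natDegree_lt (by rw [hd]; exact Finset.mem_range.1 ht),
        mul_zero]

/-- The sum of the residues of a rational function of degree at most `-2` vanishes. -/
lemma sum_res_eq_zero (k n : ℕ) (f : ℚ[X]) (hf : f.natDegree < k * (n + 1) + n) :
    ∑ j ∈ range (k + 1), PowerSeries.coeff n (loc k (n + 1) j f) = 0 := by
  have h1 := frac_dvd k (n + 1) f
  have hdj : ∀ j ∈ range (k + 1),
      (Qj k (n + 1) j * Tj k (n + 1) j f).natDegree ≤ k * (n + 1) + n := fun j hj =>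
    natDegree_mul_le.trans (add_le_add (natDegree_Qj k _ j hj).le (Tj_deg k n j f).1)
  have h2 : (f - ∑ j ∈ range (k + 1), Qj k (n + 1) j * Tj k (n + 1) j f).natDegree
      < (Qden k (n + 1)).natDegree := by
    rw [natDegree_Qden]
    refine lt_of_le_of_lt ((natDegree_sub_le _ _).trans
      (max_le hf.le (natDegree_sum_le_of_forall_le _ _ hdj))) ?_
    nlinarith
  have h3 := eq_zero_of_dvd_of_natDegree_lt h1 h2
  have h4 := congrArg (fun g => g.coeff (k * (n + 1) + n)) h3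
  simp only [coeff_sub, coeff_eq_zero_of_natDegree_lt hf, finsetSum_coeff, coeff_zero, zero_sub,
    neg_eq_zero] at h4
  rw [← h4]
  refine Finset.sum_congr rfl fun j hj => ?_
  rw [coeff_mul_add_eq_of_natDegree_le (natDegree_Qj k _ j hj).le (Tj_deg k n j f).1,
    (Tj_deg k n j f).2]
  have := (monic_Qj k (n + 1) j).coeff_natDegree
  rw [natDegree_Qj k _ j hj] at this
  rw [this, one_mul]

/-- The residue at `j` of `exp (b (s - j)) f(s) / Q(s)`, for poles of order `n + 1`. -/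
noncomputable def rho (k n : ℕ) (b : ℚ) (j : ℕ) : ℚ[X] →ₗ[ℚ] ℚ :=
  (PowerSeries.coeff n) ∘ₗ (LinearMap.mulLeft ℚ (ex b * Gj k (n + 1) j)) ∘ₗ (tay j).toLinearMap

lemma rho_apply (k n : ℕ) (b : ℚ) (j : ℕ) (f : ℚ[X]) :
    rho k n b j f = PowerSeries.coeff n (ex b * loc k (n + 1) j f) := by
  simp only [rho, LinearMap.comp_apply, LinearMap.mulLeft_apply, AlgHom.toLinearMap_apply, loc]
  congr 1
  ring

lemma rho_eq_sum (k n : ℕ) (b : ℚ) (j : ℕ) (f : ℚ[X]) :
    rho k n b j f = ∑ d ∈ range (n + 1),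
      b ^ d / d.factorial * PowerSeries.coeff (n - d) (loc k (n + 1) j f) := by
  rw [rho_apply, PowerSeries.coeff_mul, Finset.Nat.sum_antidiagonal_eq_sum_range_succ_mk]
  simp [ex]

/-- The functional. -/
noncomputable def phi (k n : ℕ) (b a : ℚ) : ℚ[X] →ₗ[ℚ] ℚ :=
  ∑ j ∈ range (k + 1), a ^ j • rho k n b j

lemma phi_apply (k n : ℕ) (b a : ℚ) (f : ℚ[X]) :
    phi k n b a f = ∑ j ∈ range (k + 1), a ^ j * rho k n b j f := by
  simp [phi, LinearMap.sum_apply]

/-- The polynomial coefficient of the exponential polynomial attached to `f`. -/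
noncomputable def Ap (k n j : ℕ) (f : ℚ[X]) : ℚ[X] :=
  ∑ d ∈ range (n + 1), monomial d (PowerSeries.coeff (n - d) (loc k (n + 1) j f) / d.factorial)

lemma coeff_Ap (k n j : ℕ) (f : ℚ[X]) (d : ℕ) : (Ap k n j f).coeff d
    = if d ≤ n then PowerSeries.coeff (n - d) (loc k (n + 1) j f) / d.factorial else 0 := by
  rw [Ap, finsetSum_coeff]
  simp only [coeff_monomial]
  rw [Finset.sum_ite_eq' (range (n + 1)) d]
  simp

lemma eval_Ap (k n j : ℕ) (f : ℚ[X]) (b : ℚ) : (Ap k n j f).eval b = rho k n b j f := by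
  rw [rho_eq_sum, Ap, eval_finsetSum]
  refine Finset.sum_congr rfl fun d _ => ?_
  rw [eval_monomial]
  ring

lemma natDegree_Ap (k n j : ℕ) (f : ℚ[X]) : (Ap k n j f).natDegree ≤ n := by
  rw [natDegree_le_iff_coeff_eq_zero]
  intro d hd
  rw [coeff_Ap, if_neg (by omega)]

lemma Ap_mul_X (k n j : ℕ) (f : ℚ[X]) : Ap k n j (f * X) = opT j (Ap k n j f) := by
  have h1 : loc k (n + 1) j (f * X) = lin j * loc k (n + 1) j f := by
    rw [loc, loc, map_mul, tay_X]
    ring
  ext d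
  rw [opT, coeff_add, coeff_derivative, coeff_C_mul, coeff_Ap, coeff_Ap, coeff_Ap, h1,
    coeff_lin_mul]
  have hf : (d.factorial : ℚ) ≠ 0 := by positivity
  by_cases h : d + 1 ≤ n
  · have h2 : d ≤ n := by omega
    have h3 : ¬ n - d = 0 := by omega
    rw [if_pos h, if_pos h2, if_pos h2, if_neg h3, Nat.factorial_succ, Nat.sub_sub]
    push_cast
    field_simp
    ring
  · rw [if_neg h]
    by_cases h2 : d ≤ n
    · rw [if_pos h2, if_pos h2, if_pos (by omega)]
      ring
    · rw [if_neg h2, if_neg h2]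
      ring

lemma Ap_mul_X_pow (k n j : ℕ) (f : ℚ[X]) (l : ℕ) :
    Ap k n j (f * X ^ l) = (opT j)^[l] (Ap k n j f) := by
  induction l with
  | zero => simp
  | succ l ih => rw [pow_succ, ← mul_assoc, Ap_mul_X, ih, Function.iterate_succ_apply']

lemma opT_iter_zero (c : ℚ) (l : ℕ) : (opT c)^[l] 0 = 0 :=
  Function.iterate_fixed (by simp [opT]) l

/-- Nondegeneracy of the functional. -/
theorem phi_nondeg (k n : ℕ) (b a : ℚ) (hb : b ≠ 0) (ha : a ≠ 0) (m : ℕ)
    (hm : m ≤ k * (n + 1) + n) (q : ℚ[X]) (hq : q ≠ 0) (hd : q.natDegree < m) :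
    ∃ l < m + (k + 3), phi k n b a (q * X ^ l) ≠ 0 := by
  classical
  by_contra hcon
  push Not at hcon
  set J := (range (k + 1)).filter fun j => Ap k n j q ≠ 0 with hJ
  have hr : 0 < J.card := by
    rw [Finset.card_pos]
    by_contra hne
    rw [Finset.not_nonempty_iff_eq_empty, hJ, Finset.filter_eq_empty_iff] at hne
    have h1 : Qden k (n + 1) ∣ q := by
      have := frac_dvd k (n + 1) q
      rwa [Finset.sum_eq_zero, sub_zero] at this
      intro j hj
      have h2 : Ap k n j q = 0 := not_not.1 (hne hj)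
      rw [Tj, Finset.sum_eq_zero, mul_zero]
      intro t ht
      have h3 := coeff_Ap k n j q (n - t)
      have ht' := Finset.mem_range.1 ht
      rw [h2, if_pos (by omega), coeff_zero, show n - (n - t) = t by omega] at h3
      have hf : ((n - t).factorial : ℚ) ≠ 0 := by positivity
      rw [(div_eq_zero_iff.1 h3.symm).resolve_right hf]
      simp
    have := natDegree_le_of_dvd h1 hq
    rw [natDegree_Qden] at this
    nlinarith
  have hrk : J.card ≤ k + 1 := (Finset.card_filter_le _ _).trans (by simp)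
  set e := J.orderEmbOfFin rfl with he
  have hsum : ∀ (F : ℕ → ℚ), (∀ j ∈ range (k + 1), Ap k n j q = 0 → F j = 0) →
      ∑ i, F (e i) = ∑ j ∈ range (k + 1), F j := by
    intro F hF
    rw [← Finset.sum_filter_of_ne (p := fun j => Ap k n j q ≠ 0)
      fun j hj h h0 => h (hF j hj h0), ← hJ]
    refine Finset.sum_bij (fun i _ => e i) (fun i _ => J.orderEmbOfFin_mem rfl i)
      (fun i _ j _ h => e.injective h) (fun j hj => ?_) fun _ _ => rfl
    have : j ∈ Set.range e := by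
      rw [he, Finset.range_orderEmbOfFin]
      exact hj
    obtain ⟨i, hi⟩ := this
    exact ⟨i, Finset.mem_univ _, hi⟩
  have := zero_estimate hr (fun i => (e i : ℚ)) (fun i j h => e.injective (Nat.cast_injective (R := ℚ) h))
    (fun i => Ap k n (e i) q) (fun i => (Finset.mem_filter.1 (J.orderEmbOfFin_mem rfl i)).2)
    n (fun i => natDegree_Ap _ _ _ _) b hb (fun i => a ^ (e i : ℕ)) (fun i => pow_ne_zero _ ha)
    (k * (n + 1) + n + 1 - m) (m + (k + 3)) (fun l hl => ?_) fun l hl => ?_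
  · have h5 : J.card * n ≤ (k + 1) * n := Nat.mul_le_mul_right _ hrk
    have h6 : k * (n + 1) + n + 1 - m + m = k * (n + 1) + n + 1 := by omega
    nlinarith
  · rw [hsum fun j => ((opT (j : ℚ))^[l] (Ap k n j q)).eval 0]
    · refine Eq.trans ?_ (sum_res_eq_zero k n (q * X ^ l) ?_)
      · refine Finset.sum_congr rfl fun j _ => ?_
        rw [← Ap_mul_X_pow, ← coeff_zero_eq_eval_zero, coeff_Ap]
        simp
      · rw [natDegree_mul_X_pow _ hq]
        omega
    · intro j _ h0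
      rw [h0, opT_iter_zero, eval_zero]
  · rw [hsum fun j => a ^ j * ((opT (j : ℚ))^[l] (Ap k n j q)).eval b]
    · rw [← hcon l hl, phi_apply]
      refine Finset.sum_congr rfl fun j _ => ?_
      rw [← Ap_mul_X_pow, eval_Ap]
    · intro j _ h0
      rw [h0, opT_iter_zero, eval_zero, mul_zero]

theorem exists_hankel_phi (k n : ℕ) (b a : ℚ) (hb : b ≠ 0) (ha : a ≠ 0) (m : ℕ)
    (hm : m ≤ k * (n + 1) + n) :
    ∃ m', m ≤ m' ∧ m' ≤ m + (k + 3) ∧ hankel (phi k n b a) m' ≠ 0 :=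
  exists_hankel_ne_zero _ m (k + 3) fun q hq hd => phi_nondeg k n b a hb ha m hm q hq hd

end Pool.Agent.Lib.MP_5fa244_nt
end

-- part Pool.Agent.Lib.MP_5fa244_nt.Padic
section

/-! Gauss norms of the local expansions. -/

namespace Pool.Agent.Lib.MP_5fa244_nt

open Polynomial Finset

/-- The `p`-adic absolute value on the rationals. -/
noncomputable def nu (p : ℕ) [Fact p.Prime] (x : ℚ) : ℝ := ‖(x : ℚ_[p])‖

/-- `p ^ c` for real `c`. -/
noncomputable def pw (p : ℕ) (c : ℝ) : ℝ := Real.exp (c * Real.log p)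

lemma pw_pos (p : ℕ) (c : ℝ) : 0 < pw p c := Real.exp_pos _

lemma pw_add (p : ℕ) (c d : ℝ) : pw p (c + d) = pw p c * pw p d := by
  rw [pw, pw, pw, add_mul, Real.exp_add]

lemma pw_zero (p : ℕ) : pw p 0 = 1 := by simp [pw]

lemma pw_mono (p : ℕ) {c d : ℝ} (h : c ≤ d) : pw p c ≤ pw p d :=
  Real.exp_le_exp.2 (mul_le_mul_of_nonneg_right h (Real.log_natCast_nonneg p))

lemma pw_pow (p : ℕ) (c : ℝ) (m : ℕ) : pw p c ^ m = pw p (m * c) := by
  rw [pw, pw, ← Real.exp_nat_mul, mul_assoc]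

lemma pw_sum (p : ℕ) {ι : Type*} (s : Finset ι) (c : ι → ℝ) :
    pw p (∑ i ∈ s, c i) = ∏ i ∈ s, pw p (c i) := by
  simp only [pw, Finset.sum_mul, Real.exp_sum]

variable {p : ℕ} [hp : Fact p.Prime]

lemma zpow_eq_pw (z : ℤ) : (p : ℝ) ^ z = pw p z := by
  have h : (0 : ℝ) < p := by exact_mod_cast hp.out.pos
  rw [pw, mul_comm, Real.exp_mul, Real.exp_log h, Real.rpow_intCast]

lemma nu_nonneg (x : ℚ) : 0 ≤ nu p x := norm_nonneg _

lemma nu_mul (x y : ℚ) : nu p (x * y) = nu p x * nu p y := by simp [nu]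

lemma nu_zero : nu p 0 = 0 := by simp [nu]

lemma nu_one : nu p 1 = 1 := by simp [nu]

lemma nu_pow (x : ℚ) (m : ℕ) : nu p (x ^ m) = nu p x ^ m := by simp [nu]

lemma nu_prod {ι : Type*} (s : Finset ι) (f : ι → ℚ) :
    nu p (∏ i ∈ s, f i) = ∏ i ∈ s, nu p (f i) := by simp [nu]

lemma nu_int (z : ℤ) : nu p z ≤ 1 := by
  simpa [nu] using Padic.norm_int_le_one (p := p) z

lemma nu_sum_le {ι : Type*} (s : Finset ι) (f : ι → ℚ) {C : ℝ} (hC : 0 ≤ C)
    (h : ∀ i ∈ s, nu p (f i) ≤ C) : nu p (∑ i ∈ s, f i) ≤ C := by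
  unfold nu at *
  push_cast
  exact IsUltrametricDist.norm_sum_le_of_forall_le_of_nonneg hC h

lemma nu_eq {x : ℚ} (hx : x ≠ 0) : nu p x = pw p (-(padicValRat p x : ℤ)) := by
  rw [nu, Padic.norm_eq_zpow_neg_valuation (by exact_mod_cast hx), Padic.valuation_ratCast,
    zpow_eq_pw]
  simp

lemma nu_inv_nat {d : ℕ} (hd : d ≠ 0) : nu p (d : ℚ)⁻¹ = pw p (padicValNat p d) := by
  rw [nu_eq (inv_ne_zero (by exact_mod_cast hd)), padicValRat.inv, padicValRat.of_nat]
  simp

lemma nu_neg (x : ℚ) : nu p (-x) = nu p x := by simp [nu]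

lemma nu_le_of_dvd (z : ℤ) (e : ℕ) (h : (p : ℤ) ^ e ∣ z) : nu p z ≤ pw p (-e) := by
  have := (Padic.norm_int_le_pow_iff_dvd (p := p) z e).2 h
  rw [zpow_eq_pw] at this
  simpa [nu] using this

lemma nu_det_le {m : ℕ} (M : Matrix (Fin m) (Fin m) ℚ) (h : ℕ → ℝ)
    (hM : ∀ i l : Fin m, nu p (M i l) ≤ pw p (h i + h l)) :
    nu p M.det ≤ pw p (2 * ∑ i ∈ range m, h i) := by
  rw [Matrix.det_apply']
  refine nu_sum_le _ _ (pw_pos _ _).le fun σ _ => ?_
  rw [nu_mul, nu_prod]
  have h1 : nu p ((Equiv.Perm.sign σ : ℤ) : ℚ) ≤ 1 := nu_int _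
  have h2 : ∏ i, nu p (M (σ i) i) ≤ pw p (2 * ∑ i ∈ range m, h i) := by
    refine (Finset.prod_le_prod (fun _ _ => nu_nonneg _) fun i _ => hM (σ i) i).trans ?_
    rw [← pw_sum, Finset.sum_add_distrib, Equiv.sum_comp σ (fun i : Fin m => h i),
      Finset.sum_range, two_mul]
  calc _ ≤ 1 * pw p (2 * ∑ i ∈ range m, h i) :=
        mul_le_mul h1 h2 (Finset.prod_nonneg fun _ _ => nu_nonneg _) zero_le_one
    _ = _ := one_mul _

/-- Truncated Gauss norm bound on the disc of radius `p ^ (-σ)`. -/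
def GB (p : ℕ) [Fact p.Prime] (n : ℕ) (σ c : ℝ) (F : PowerSeries ℚ) : Prop :=
  ∀ d ≤ n, nu p (PowerSeries.coeff d F) ≤ pw p (c + σ * d)

variable {n : ℕ} {σ : ℝ}

lemma GB.mono {c c' : ℝ} {F : PowerSeries ℚ} (h : GB p n σ c F) (hc : c ≤ c') : GB p n σ c' F :=
  fun d hd => (h d hd).trans (pw_mono _ (by linarith))

lemma GB.mul {c c' : ℝ} {F G : PowerSeries ℚ} (h : GB p n σ c F) (h' : GB p n σ c' G) :
    GB p n σ (c + c') (F * G) := by
  intro d hd
  rw [PowerSeries.coeff_mul]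
  refine nu_sum_le _ _ (pw_pos _ _).le fun x hx => ?_
  have hx' : x.1 + x.2 = d := by simpa using hx
  rw [nu_mul]
  refine (mul_le_mul (h x.1 (by omega)) (h' x.2 (by omega)) (nu_nonneg _) (pw_pos _ _).le).trans ?_
  rw [← pw_add, ← hx']
  push_cast
  exact le_of_eq (by congr 1; ring)

lemma GB_one : GB p n σ 0 1 := by
  intro d _
  rw [PowerSeries.coeff_one]
  split_ifs with h
  · simp [h, nu_one, pw_zero]
  · rw [nu_zero]
    exact (pw_pos _ _).le

lemma GB.pow {c : ℝ} {F : PowerSeries ℚ} (h : GB p n σ c F) (m : ℕ) :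
    GB p n σ (m * c) (F ^ m) := by
  induction m with
  | zero => simpa using GB_one
  | succ m ih =>
    rw [pow_succ]
    refine (ih.mul h).mono (le_of_eq ?_)
    push_cast
    ring

lemma GB_prod {ι : Type*} (s : Finset ι) (c : ι → ℝ) (F : ι → PowerSeries ℚ)
    (h : ∀ i ∈ s, GB p n σ (c i) (F i)) : GB p n σ (∑ i ∈ s, c i) (∏ i ∈ s, F i) := by
  classical
  induction s using Finset.induction_on with
  | empty => simpa using GB_one
  | insert a s ha ih =>
    rw [Finset.sum_insert ha, Finset.prod_insert ha]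
    exact (h a (Finset.mem_insert_self _ _)).mul (ih fun i hi => h i (Finset.mem_insert_of_mem hi))

lemma GB_lin (x : ℚ) {c : ℝ} (hx : nu p x ≤ pw p c) (hc : -σ ≤ c) : GB p n σ c (lin x) := by
  intro d _
  have := coeff_lin_mul x 1 d
  rw [mul_one] at this
  rw [this]
  rcases d with _ | _ | d
  · simpa using hx
  · simp only [PowerSeries.coeff_one]
    simp only [zero_add, one_ne_zero, if_false, mul_zero, if_true, nu_one,
      Nat.cast_one, mul_one]
    rw [← pw_zero p]
    exact pw_mono _ (by linarith)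
  · simp only [PowerSeries.coeff_one]
    simp [nu_zero, (pw_pos _ _).le]

lemma GB_lin_int (z : ℤ) (hσ : 0 ≤ σ) : GB p n σ 0 (lin z) :=
  GB_lin _ (by rw [pw_zero]; exact nu_int z) (by linarith)

lemma GB_linv (x : ℚ) {w : ℝ} (hx : nu p x⁻¹ ≤ pw p w) (hw : w ≤ σ) : GB p n σ w (linv x) := by
  intro d _
  rw [linv, PowerSeries.coeff_mk, div_eq_mul_inv, nu_mul, ← inv_pow, nu_pow, nu_pow, nu_neg, nu_one,
    one_pow, one_mul]
  refine (pow_le_pow_left₀ (nu_nonneg _) hx _).trans ?_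
  rw [pw_pow]
  refine pw_mono _ ?_
  push_cast
  have : (0 : ℝ) ≤ d := Nat.cast_nonneg d
  nlinarith

lemma GB_ex (b : ℤ) (h : ∀ d ≤ n, (padicValNat p d.factorial : ℝ) ≤ σ * d) :
    GB p n σ 0 (ex b) := by
  intro d hd
  rw [ex, PowerSeries.coeff_mk, div_eq_mul_inv, nu_mul, nu_pow, nu_inv_nat d.factorial_ne_zero,
    zero_add]
  calc _ ≤ 1 * pw p (σ * d) :=
        mul_le_mul (pow_le_one₀ (nu_nonneg _) (nu_int b)) (pw_mono _ (h d hd)) (pw_pos _ _).le
          zero_le_one
    _ = _ := one_mul _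

lemma val_factorial_le (d : ℕ) : (padicValNat p d.factorial : ℝ) ≤ 1 / ((p : ℝ) - 1) * d := by
  have h1 := sub_one_mul_padicValNat_factorial (p := p) d
  have h2 : (p - 1) * padicValNat p d.factorial ≤ d := by omega
  have h3 : (2 : ℝ) ≤ p := by exact_mod_cast hp.out.two_le
  have h4 : ((p : ℝ) - 1) * padicValNat p d.factorial ≤ d := by
    have : ((p - 1 : ℕ) : ℝ) = p - 1 := by
      rw [Nat.cast_sub hp.out.one_le]
      simp
    rw [← this]
    exact_mod_cast h2
  rw [one_div, inv_mul_eq_div, le_div_iff₀ (by linarith)]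
  linarith

lemma GB_ex' (b : ℤ) (hσ : 1 / ((p : ℝ) - 1) ≤ σ) : GB p n σ 0 (ex b) :=
  GB_ex b fun d _ => (val_factorial_le d).trans (mul_le_mul_of_nonneg_right hσ (Nat.cast_nonneg d))

omit hp in
lemma sum_erase_dist {M : Type*} [AddCommMonoid M] (g : ℕ → M) (k j : ℕ) (hj : j ≤ k) :
    ∑ i ∈ (range (k + 1)).erase j, g (Int.natAbs ((j : ℤ) - i))
      = ∑ d ∈ range j, g (d + 1) + ∑ d ∈ range (k - j), g (d + 1) := by
  have h1 : (range (k + 1)).erase j = range j ∪ Ico (j + 1) (k + 1) := by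
    ext i
    simp only [mem_erase, mem_range, mem_union, mem_Ico]
    omega
  rw [h1, Finset.sum_union]
  · congr 1
    · rw [← Finset.sum_range_reflect]
      refine Finset.sum_congr rfl fun i hi => ?_
      have := Finset.mem_range.1 hi
      congr 1
      omega
    · rw [Finset.sum_Ico_eq_sum_range, show k + 1 - (j + 1) = k - j by omega]
      refine Finset.sum_congr rfl fun i _ => ?_
      congr 1
      omega
  · rw [Finset.disjoint_left]
    intro i hi hi'
    simp only [mem_range, mem_Ico] at hi hi'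
    omega

lemma val_factorial_eq_sum (j : ℕ) :
    padicValNat p j.factorial = ∑ d ∈ range j, padicValNat p (d + 1) := by
  induction j with
  | zero => simp
  | succ j ih =>
    rw [Nat.factorial_succ, padicValNat.mul (by omega) j.factorial_ne_zero, ih,
      Finset.sum_range_succ, add_comm]

/-- The valuation of `j! (k - j)!`. -/
def Sv (p k j : ℕ) : ℕ := padicValNat p j.factorial + padicValNat p (k - j).factorial

lemma Sv_eq (k j : ℕ) (hj : j ≤ k) :
    ∑ i ∈ (range (k + 1)).erase j, padicValNat p (Int.natAbs ((j : ℤ) - i)) = Sv p k j := by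
  rw [sum_erase_dist (padicValNat p) k j hj, Sv, val_factorial_eq_sum, val_factorial_eq_sum]

lemma Sv_le (k j : ℕ) (hj : j ≤ k) : Sv p k j ≤ padicValNat p k.factorial := by
  rw [← Nat.choose_mul_factorial_mul_factorial hj, mul_assoc,
    padicValNat.mul (Nat.choose_pos hj).ne' (by positivity),
    padicValNat.mul (by positivity) (by positivity), Sv]
  omega

lemma GB_Gj (k N j : ℕ) (hj : j ≤ k)
    (h : ∀ i ∈ (range (k + 1)).erase j, (padicValNat p (Int.natAbs ((j : ℤ) - i)) : ℝ) ≤ σ) :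
    GB p n σ (N * Sv p k j) (Gj k N j) := by
  rw [← Sv_eq k j hj, Gj]
  push_cast
  rw [Finset.mul_sum]
  refine GB_prod _ _ _ fun i hi => GB.pow (GB_linv _ (le_of_eq ?_) (h i hi)) N
  have hne : (j : ℤ) - i ≠ 0 := sub_ne_zero.2 (by exact_mod_cast (Finset.ne_of_mem_erase hi).symm)
  rw [← nu_inv_nat (Int.natAbs_ne_zero.2 hne)]
  rcases Int.natAbs_eq ((j : ℤ) - i) with h1 | h1
  · congr 2
    have := congrArg (Int.cast : ℤ → ℚ) h1
    rwa [Int.cast_sub, Int.cast_natCast, Int.cast_natCast, Int.cast_natCast] at this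
  · rw [← nu_neg, ← inv_neg]
    congr 2
    have h2 : -((j : ℤ) - i) = (Int.natAbs ((j : ℤ) - i) : ℤ) := by omega
    have := congrArg (Int.cast : ℤ → ℚ) h2
    rwa [Int.cast_neg, Int.cast_sub, Int.cast_natCast, Int.cast_natCast, Int.cast_natCast] at this

lemma GB_Gj_log (k N j : ℕ) (hj : j ≤ k) (hσ : (Nat.log p k : ℝ) ≤ σ) :
    GB p n σ (N * Sv p k j) (Gj k N j) := by
  refine GB_Gj k N j hj fun i hi => le_trans ?_ hσ
  have := Finset.mem_range.1 (Finset.mem_of_mem_erase hi)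
  have h2 : Int.natAbs ((j : ℤ) - i) ≤ k := by omega
  exact Nat.cast_le.2 ((padicValNat_le_nat_log _).trans (Nat.log_mono_right h2))

lemma GB_Gj_zero (k N j : ℕ) (hj : j ≤ k) (hσ : 0 ≤ σ) (h0 : Sv p k j = 0) :
    GB p n σ 0 (Gj k N j) := by
  have := GB_Gj (p := p) (n := n) (σ := σ) k N j hj fun i hi => by
    have h1 := Finset.single_le_sum (f := fun i : ℕ => padicValNat p (Int.natAbs ((j : ℤ) - i)))
      (fun _ _ => Nat.zero_le _) hi
    rw [Sv_eq k j hj, h0] at h1
    rw [Nat.le_zero.1 h1]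
    simpa using hσ
  simpa [h0] using this

lemma nu_rho_le (k : ℕ) (b : ℤ) (j : ℕ) (f : ℚ[X]) {c₁ c₂ : ℝ} (he : GB p n σ 0 (ex b))
    (h1 : GB p n σ c₁ (tay j f)) (h2 : GB p n σ c₂ (Gj k (n + 1) j)) :
    nu p (rho k n b j f) ≤ pw p (c₁ + c₂ + σ * n) := by
  have := (he.mul (h1.mul h2)) n le_rfl
  rw [zero_add] at this
  rw [rho_apply]
  exact this

lemma nu_hankel_le (k : ℕ) (b a : ℤ) (m : ℕ) (q : ℕ → ℚ[X]) (hd : ∀ i, (q i).natDegree = i)
    (hm : ∀ i, (q i).Monic) (h : ℕ → ℝ)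
    (hq : ∀ i l j, j ≤ k → nu p (rho k n b j (q i * q l)) ≤ pw p (h i + h l)) :
    nu p (hankel (phi k n b a) m) ≤ pw p (2 * ∑ i ∈ range m, h i) := by
  rw [← hankel_basis _ m q hd hm]
  refine nu_det_le _ h fun i l => ?_
  rw [Matrix.of_apply, phi_apply]
  refine nu_sum_le _ _ (pw_pos _ _).le fun j hj => ?_
  rw [nu_mul, nu_pow]
  calc _ ≤ 1 * pw p (h i + h l) :=
        mul_le_mul (pow_le_one₀ (nu_nonneg _) (nu_int a))
          (hq i l j (Nat.lt_succ_iff.1 (Finset.mem_range.1 hj))) (nu_nonneg _) zero_le_one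
    _ = _ := one_mul _

/-- `X (X - 1) ⋯ (X - e + 1)`. -/
noncomputable def Pk (e : ℕ) : ℚ[X] := ∏ x ∈ range e, (X - C (x : ℚ))

omit hp in
lemma monic_Pk (e : ℕ) : (Pk e).Monic := monic_prod_of_monic _ _ fun _ _ => monic_X_sub_C _

omit hp in
lemma natDegree_Pk (e : ℕ) : (Pk e).natDegree = e := by
  rw [Pk, natDegree_prod_of_monic _ _ fun _ _ => monic_X_sub_C _]
  simp only [natDegree_X_sub_C, sum_const, card_range, smul_eq_mul, mul_one]

lemma GB_Pk (j e : ℕ) (c : ℕ → ℝ) (h1 : ∀ x < e, nu p ((j : ℤ) - x : ℤ) ≤ pw p (c x))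
    (h2 : ∀ x < e, -σ ≤ c x) : GB p n σ (∑ x ∈ range e, c x) (tay j (Pk e)) := by
  rw [Pk, map_prod]
  refine GB_prod _ _ _ fun x hx => ?_
  rw [tay_X_sub_C]
  have hx' := Finset.mem_range.1 hx
  refine GB_lin _ ?_ (h2 x hx')
  have := h1 x hx'
  push_cast at this
  exact this

lemma GB_Pk_zero (j e : ℕ) (hσ : 0 ≤ σ) : GB p n σ 0 (tay j (Pk e)) := by
  have := GB_Pk (p := p) (n := n) (σ := σ) j e (fun _ => 0)
    (fun x _ => by rw [pw_zero]; exact nu_int _) fun _ _ => by linarith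
  simpa using this

lemma GB_Pk_single (j e x₀ : ℕ) (hσ : 0 ≤ σ) (hx : x₀ < e)
    (h : nu p ((j : ℤ) - x₀ : ℤ) ≤ pw p (-σ)) : GB p n σ (-σ) (tay j (Pk e)) := by
  have := GB_Pk (p := p) (n := n) (σ := σ) j e (fun x => if x = x₀ then -σ else 0)
    (fun x _ => by
      split_ifs with h1
      · rw [h1]; exact h
      · rw [pw_zero]; exact nu_int _)
    fun x _ => by split_ifs <;> linarith
  rwa [Finset.sum_ite_eq', if_pos (Finset.mem_range.2 hx)] at this

lemma GB_Pk_mod (j e : ℕ) (hx : j % p < e) : GB p n 1 (-1) (tay j (Pk e)) := by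
  refine GB_Pk_single j e (j % p) zero_le_one hx ?_
  have := nu_le_of_dvd (p := p) ((j : ℤ) - (j % p : ℕ)) 1 (by
    rw [pow_one]
    exact ⟨j / p, by push_cast; rw [Int.emod_def]; ring⟩)
  simpa using this

lemma GB_X_pow (j r : ℕ) (hσ : 0 ≤ σ) : GB p n σ 0 (tay j (X ^ r)) := by
  rw [map_pow, tay_X]
  have := (GB_lin_int (p := p) (n := n) j hσ).pow r
  simpa using this

lemma GB_Pk_small (j i L : ℕ) :
    GB p n L (-∑ e ∈ Icc 1 L, ((i / p ^ e : ℕ) : ℝ)) (tay j (Pk i)) := by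
  classical
  set cnt : ℕ → ℕ := fun x => ((Icc 1 L).filter fun e => x ≡ j [MOD p ^ e]).card with hcnt
  have h1 := GB_Pk (p := p) (n := n) (σ := L) j i (fun x => -(cnt x : ℝ)) (fun x _ => ?_)
    fun x _ => ?_
  · refine h1.mono ?_
    rw [Finset.sum_neg_distrib, neg_le_neg_iff]
    have : ∑ e ∈ Icc 1 L, i / p ^ e ≤ ∑ x ∈ range i, cnt x := by
      simp only [hcnt, Finset.card_filter]
      rw [Finset.sum_comm]
      refine Finset.sum_le_sum fun e _ => ?_
      rw [← Finset.card_filter, ← Nat.count_eq_card_filter_range,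
        Nat.count_modEq_card _ (pow_pos hp.out.pos e)]
      omega
    exact_mod_cast this
  · refine nu_le_of_dvd _ _ ?_
    by_cases h0 : ((Icc 1 L).filter fun e => x ≡ j [MOD p ^ e]).Nonempty
    · set S := (Icc 1 L).filter fun e => x ≡ j [MOD p ^ e] with hS
      have h2 : cnt x ≤ S.max' h0 := by
        have : S ⊆ Icc 1 (S.max' h0) := fun e he =>
          Finset.mem_Icc.2 ⟨(Finset.mem_Icc.1 (Finset.mem_filter.1 he).1).1, S.le_max' e he⟩
        simpa using Finset.card_le_card this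
      have h3 := (Finset.mem_filter.1 (S.max'_mem h0)).2
      have h4 : ((p ^ S.max' h0 : ℕ) : ℤ) ∣ (j : ℤ) - x := h3.dvd
      push_cast at h4
      exact (pow_dvd_pow _ h2).trans h4
    · rw [Finset.not_nonempty_iff_eq_empty] at h0
      simp [hcnt, h0]
  · rw [neg_le_neg_iff]
    have : cnt x ≤ L := (Finset.card_filter_le _ _).trans (by simp)
    exact_mod_cast this

omit hp in
/-- Product formula inequality. -/
lemma neg_log_le (x : ℚ) (hx : x ≠ 0) (n : ℕ) (E : ℕ → ℝ) (hE : ∀ p, p.Prime → p ≤ n → 0 ≤ E p)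
    (h1 : ∀ (p : ℕ) [Fact p.Prime], p ≤ n → nu p x ≤ pw p (E p))
    (h2 : ∀ (p : ℕ) [Fact p.Prime], n < p → nu p x ≤ 1) :
    -Real.log |(x : ℝ)| ≤ ∑ p ∈ n.primesLE, E p * Real.log p := by
  have hden : (0 : ℝ) < x.den := by exact_mod_cast x.den_pos
  have hnum : (1 : ℝ) ≤ |(x.num : ℝ)| := by
    have : 1 ≤ |x.num| := Int.one_le_abs (Rat.num_ne_zero.2 hx)
    exact_mod_cast this
  have e1 : -Real.log |(x : ℝ)| ≤ Real.log x.den := by
    rw [Rat.cast_def, abs_div, abs_of_pos hden, Real.log_div (by linarith) hden.ne']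
    linarith [Real.log_nonneg hnum]
  refine e1.trans ?_
  rw [Real.log_nat_eq_sum_factorization, Finsupp.sum]
  have key : ∀ q ∈ x.den.factorization.support, q ∈ n.primesLE ∧
      (x.den.factorization q : ℝ) ≤ E q := by
    intro q hq
    rw [Nat.support_factorization] at hq
    have hqp := Nat.prime_of_mem_primeFactors hq
    have hqd := Nat.dvd_of_mem_primeFactors hq
    have := Fact.mk hqp
    have hv : nu q x = pw q (x.den.factorization q) := by
      rw [nu_eq hx, padicValRat, Nat.factorization_def _ hqp, padicValInt,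
        padicValNat.eq_zero_of_not_dvd]
      · simp
      · intro h
        exact hqp.one_lt.ne' (Nat.eq_one_of_dvd_coprimes x.reduced h hqd)
    have hlog : 0 < Real.log q := Real.log_pos (by exact_mod_cast hqp.one_lt)
    have hpos : (0 : ℝ) < x.den.factorization q := by
      exact_mod_cast hqp.factorization_pos_of_dvd x.den_ne_zero hqd
    have hqn : q ≤ n := by
      by_contra hh
      have := h2 q (by omega)
      rw [hv, pw, Real.exp_le_one_iff] at this
      nlinarith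
    refine ⟨Nat.mem_primesLE.2 ⟨hqn, hqp⟩, ?_⟩
    have := h1 q hqn
    rw [hv, pw, pw, Real.exp_le_exp] at this
    exact le_of_mul_le_mul_right this hlog
  refine (Finset.sum_le_sum fun q hq =>
    mul_le_mul_of_nonneg_right (key q hq).2 (Real.log_natCast_nonneg q)).trans ?_
  refine Finset.sum_le_sum_of_subset_of_nonneg (fun q hq => (key q hq).1) fun q hq _ => ?_
  have := Nat.mem_primesLE.1 hq
  exact mul_nonneg (hE q this.2 this.1) (Real.log_natCast_nonneg q)

end Pool.Agent.Lib.MP_5fa244_nt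
end

-- part Pool.Agent.Lib.MP_5fa244_nt.Contour
section

/-! Contour integral representation of the functional, and the archimedean determinant bound. -/

namespace Pool.Agent.Lib.MP_5fa244_nt

open Polynomial Finset Complex Metric

lemma cont_pole (c w β : ℂ) (R : ℝ) (hw : w ∉ sphere c R) (d : ℕ) :
    ContinuousOn (fun s : ℂ => cexp (β * s) * ((s - w) ^ d)⁻¹) (sphere c R) := by
  refine ContinuousOn.mul (by fun_prop) (ContinuousOn.inv₀ (by fun_prop) fun s hs => ?_)
  exact pow_ne_zero _ (sub_ne_zero.2 fun h => hw (h ▸ hs))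

lemma int_pole (c w β z : ℂ) (R : ℝ) (hR : 0 ≤ R) (hw : w ∉ sphere c R) (d : ℕ) :
    CircleIntegrable (fun s : ℂ => z * (cexp (β * s) * ((s - w) ^ d)⁻¹)) c R :=
  ContinuousOn.circleIntegrable hR (continuousOn_const.mul (cont_pole c w β R hw _))

lemma cint_pole (c w β : ℂ) (R : ℝ) (hR : 0 ≤ R) (hw : w ∉ sphere c R) (d : ℕ) :
    (∮ s in C(c, R), cexp (β * s) * ((s - w) ^ (d + 1))⁻¹)
      = β ^ d / d.factorial * ∮ s in C(c, R), cexp (β * s) * ((s - w) ^ 1)⁻¹ := by
  induction d with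
  | zero => simp
  | succ d ih =>
    have h0 : (∮ s in C(c, R), (β * (cexp (β * s) * ((s - w) ^ (d + 1))⁻¹)
        - (d + 1) * (cexp (β * s) * ((s - w) ^ (d + 1 + 1))⁻¹))) = 0 := by
      refine circleIntegral.integral_eq_zero_of_hasDerivWithinAt
        (f := fun s => cexp (β * s) * ((s - w) ^ (d + 1))⁻¹) hR fun s hs => ?_
      have hne : s - w ≠ 0 := sub_ne_zero.2 fun h => hw (h ▸ hs)
      have h1 : HasDerivAt (fun s : ℂ => cexp (β * s)) (cexp (β * s) * β) s := by
        simpa using ((hasDerivAt_id s).const_mul β).cexp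
      have h2 := (((hasDerivAt_id s).sub_const w).pow (d + 1)).inv (pow_ne_zero _ hne)
      refine ((h1.mul h2).congr_deriv ?_).hasDerivWithinAt
      simp only [id, Pi.pow_apply, Pi.inv_apply, Nat.add_sub_cancel]
      push_cast
      field_simp
      ring
    rw [circleIntegral.integral_sub (int_pole c w β _ R hR hw _) (int_pole c w β _ R hR hw _),
      circleIntegral.integral_const_mul, circleIntegral.integral_const_mul, ih] at h0
    have h3 : ((d : ℂ) + 1) ≠ 0 := by exact_mod_cast Nat.succ_ne_zero d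
    have h4 : (d.factorial : ℂ) ≠ 0 := by exact_mod_cast d.factorial_ne_zero
    apply mul_left_cancel₀ h3
    rw [← sub_eq_zero.1 h0, Nat.factorial_succ]
    push_cast
    field_simp
    ring

lemma cint_in (c w β : ℂ) (R : ℝ) (hw : w ∈ ball c R) :
    (∮ s in C(c, R), cexp (β * s) * ((s - w) ^ 1)⁻¹) = 2 * Real.pi * I * cexp (β * w) := by
  have h : DiffContOnCl ℂ (fun s : ℂ => cexp (β * s)) (ball c R) :=
    Differentiable.diffContOnCl (by fun_prop)
  have := h.circleIntegral_sub_inv_smul hw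
  simp only [smul_eq_mul] at this
  rw [← this]
  congr 1
  ext s
  ring

lemma cint_out (c w β : ℂ) (R : ℝ) (hR : 0 < R) (hw : w ∉ closedBall c R) :
    (∮ s in C(c, R), cexp (β * s) * ((s - w) ^ 1)⁻¹) = 0 := by
  refine DiffContOnCl.circleIntegral_eq_zero hR.le (DifferentiableOn.diffContOnCl ?_)
  rw [closure_ball c hR.ne']
  refine DifferentiableOn.mul (by fun_prop) (DifferentiableOn.inv (by fun_prop) fun s hs => ?_)
  exact pow_ne_zero _ (sub_ne_zero.2 fun h => hw (h ▸ hs))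

/-- The integrand. -/
noncomputable def Fc (k n : ℕ) (b : ℚ) (f : ℚ[X]) (s : ℂ) : ℂ :=
  cexp (b * s) * (aeval s f * (aeval s (Qden k (n + 1)))⁻¹)

theorem cint_Fc (k n : ℕ) (b : ℚ) (f : ℚ[X]) (c : ℂ) (R : ℝ) (hR : 0 ≤ R)
    (h : ∀ j ∈ range (k + 1), (j : ℂ) ∉ sphere c R) :
    (∮ s in C(c, R), Fc k n b f s) = ∑ j ∈ range (k + 1),
      (rho k n b j f : ℂ) * ∮ s in C(c, R), cexp (b * s) * ((s - j) ^ 1)⁻¹ := by
  obtain ⟨g, hg⟩ := frac_dvd k (n + 1) f
  have h1 : ∀ s ∈ sphere c R, Fc k n b f s = cexp (b * s) * aeval s g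
      + ∑ j ∈ range (k + 1), ∑ d ∈ range (n + 1),
        ((PowerSeries.coeff (n - d) (loc k (n + 1) j f) : ℚ) : ℂ)
          * (cexp (b * s) * ((s - j) ^ (d + 1))⁻¹) := by
    intro s hs
    have hne : ∀ j ∈ range (k + 1), s - j ≠ 0 := fun j hj =>
      sub_ne_zero.2 fun h' => h j hj (h' ▸ hs)
    have hQ : aeval s (Qden k (n + 1)) ≠ 0 := by
      rw [Qden, map_prod]
      refine Finset.prod_ne_zero_iff.2 fun j hj => ?_
      simpa using fun h' => absurd h' (hne j hj)
    have h2 := congrArg (aeval s) (sub_eq_iff_eq_add.1 hg)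
    rw [Fc, h2, map_add, map_mul, map_sum, add_mul, mul_add, Finset.sum_mul, Finset.mul_sum]
    congr 1
    · field_simp
    refine Finset.sum_congr rfl fun j hj => ?_
    have hQj : aeval s (Qj k (n + 1) j) ≠ 0 := by
      rw [Qden_eq k _ j hj, map_mul] at hQ
      exact right_ne_zero_of_mul hQ
    rw [map_mul, Qden_eq k _ j hj, map_mul, Tj, map_sum, Finset.mul_sum, Finset.sum_mul,
      Finset.mul_sum, ← Finset.sum_range_reflect]
    refine Finset.sum_congr rfl fun d hd => ?_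
    have hd' := Finset.mem_range.1 hd
    have h3 := hne j hj
    simp only [map_mul, map_pow, map_sub, aeval_X, aeval_C, eq_ratCast, Rat.cast_natCast,
      Nat.add_sub_cancel]
    rw [show (s - j) ^ (n + 1) = (s - j) ^ (n - d) * (s - j) ^ (d + 1) by
      rw [← pow_add]; congr 1; omega]
    field_simp
  rw [circleIntegral.integral_congr hR h1]
  have hc : ∀ j ∈ range (k + 1), ∀ d : ℕ, CircleIntegrable
      (fun s : ℂ => ((PowerSeries.coeff (n - d) (loc k (n + 1) j f) : ℚ) : ℂ)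
        * (cexp (b * s) * ((s - j) ^ (d + 1))⁻¹)) c R := fun j hj d =>
    ContinuousOn.circleIntegrable hR (continuousOn_const.mul (cont_pole c j b R (h j hj) _))
  have hg0 : Differentiable ℂ fun s : ℂ => cexp (b * s) * aeval s g :=
    Differentiable.mul (by fun_prop) g.differentiable_aeval
  have hc2 : ∀ j ∈ range (k + 1), ContinuousOn (fun s : ℂ => ∑ d ∈ range (n + 1),
      ((PowerSeries.coeff (n - d) (loc k (n + 1) j f) : ℚ) : ℂ)
        * (cexp (b * s) * ((s - j) ^ (d + 1))⁻¹)) (sphere c R) := fun j hj =>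
    continuousOn_finsetSum _ fun d _ => continuousOn_const.mul (cont_pole c j b R (h j hj) _)
  rw [circleIntegral.integral_add (ContinuousOn.circleIntegrable hR hg0.continuous.continuousOn)
    (ContinuousOn.circleIntegrable hR (continuousOn_finsetSum _ hc2)),
    DiffContOnCl.circleIntegral_eq_zero hR hg0.diffContOnCl, zero_add,
    circleIntegral.integral_fun_sum fun j hj => ContinuousOn.circleIntegrable hR (hc2 j hj)]
  refine Finset.sum_congr rfl fun j hj => ?_
  rw [circleIntegral.integral_fun_sum fun d _ => hc j hj d, rho_eq_sum]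
  push_cast
  rw [Finset.sum_mul]
  refine Finset.sum_congr rfl fun d _ => ?_
  rw [circleIntegral.integral_const_mul, cint_pole c j b R hR (h j hj)]
  ring

lemma big_bound (k n : ℕ) (b : ℚ) (f : ℚ[X]) (c : ℂ) (R B : ℝ) (hR : 0 ≤ R)
    (h : ∀ j ∈ range (k + 1), (j : ℂ) ∈ ball c R) (hB : ∀ s ∈ sphere c R, ‖Fc k n b f s‖ ≤ B) :
    |∑ j ∈ range (k + 1), Real.exp (b * j) * (rho k n b j f : ℝ)| ≤ R * B := by
  have h1 := circleIntegral.norm_integral_le_of_norm_le_const hR hB
  rw [cint_Fc k n b f c R hR fun j hj hs => (mem_ball.1 (h j hj)).ne (mem_sphere.1 hs),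
    Finset.sum_congr rfl fun j hj => by rw [cint_in _ _ _ _ (h j hj)]] at h1
  have h2 : ∑ j ∈ range (k + 1), (rho k n b j f : ℂ) * (2 * Real.pi * I * cexp (b * j))
      = 2 * Real.pi * I
        * ((∑ j ∈ range (k + 1), Real.exp (b * j) * (rho k n b j f : ℝ) : ℝ) : ℂ) := by
    push_cast
    rw [Finset.mul_sum]
    exact Finset.sum_congr rfl fun _ _ => by ring
  rw [h2, norm_mul, Complex.norm_real, Real.norm_eq_abs] at h1
  simp only [norm_mul, Complex.norm_ofNat, Complex.norm_real, Complex.norm_I, mul_one,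
    Real.norm_of_nonneg Real.pi_pos.le] at h1
  rw [mul_assoc (2 * Real.pi)] at h1
  exact le_of_mul_le_mul_left h1 (by positivity)

lemma half_le_dist {i j : ℕ} (h : i ≠ j) : (1 : ℝ) ≤ dist (i : ℂ) j := by
  rw [Complex.dist_eq, ← Complex.ofReal_natCast, ← Complex.ofReal_natCast, ← Complex.ofReal_sub,
    Complex.norm_real, Real.norm_eq_abs]
  have : 1 ≤ |(i : ℤ) - j| := Int.one_le_abs (sub_ne_zero.2 (by exact_mod_cast h))
  exact_mod_cast this

lemma small_bound (k n : ℕ) (b : ℚ) (f : ℚ[X]) (j : ℕ) (hj : j ∈ range (k + 1)) (B : ℝ)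
    (hB : ∀ s ∈ sphere (j : ℂ) (1 / 2), ‖Fc k n b f s‖ ≤ B) :
    Real.exp (b * j) * |(rho k n b j f : ℝ)| ≤ B := by
  have h1 := circleIntegral.norm_integral_le_of_norm_le_const (by norm_num) hB
  have hB0 : 0 ≤ B := by
    have := hB (j + 1 / 2) (by simp)
    exact (norm_nonneg _).trans this
  rw [cint_Fc k n b f j (1 / 2) (by norm_num), Finset.sum_eq_single j,
    cint_in _ _ _ _ (mem_ball_self (by norm_num))] at h1
  · simp only [norm_mul, Complex.norm_ofNat, Complex.norm_real, Complex.norm_I, mul_one,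
      Real.norm_of_nonneg Real.pi_pos.le, Complex.norm_exp, Complex.norm_ratCast] at h1
    have h2 : ((b : ℂ) * j).re = b * j := by simp
    rw [h2] at h1
    have h3 := Real.pi_pos
    have h4 : 0 ≤ Real.exp (b * j) * |(rho k n b j f : ℝ)| := by positivity
    nlinarith
  · intro i _ hi
    rw [cint_out _ _ _ _ (by norm_num), mul_zero]
    rw [mem_closedBall]
    linarith [half_le_dist hi]
  · exact fun h => absurd hj h
  · intro i _ hs
    rw [mem_sphere] at hs
    by_cases hi : i = j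
    · simp [hi] at hs
    · linarith [half_le_dist hi]

/-- Logarithm of the modulus of the integrand for `f = (X - s₀) ^ (2 v)`. -/
noncomputable def gg (k n : ℕ) (b s₀ v : ℝ) (s : ℂ) : ℝ :=
  b * s.re + 2 * v * Real.log ‖s - s₀‖ - (n + 1) * ∑ x ∈ range (k + 1), Real.log ‖s - x‖

lemma norm_Fc (k n : ℕ) (b s₀ : ℚ) (i l : ℕ) (s : ℂ) (h0 : s ≠ s₀)
    (h : ∀ x ∈ range (k + 1), s ≠ x) :
    ‖Fc k n b ((X - C s₀) ^ i * (X - C s₀) ^ l) s‖
      = Real.exp (gg k n b s₀ i s / 2 + gg k n b s₀ l s / 2) := by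
  have h1 : 0 < ‖s - s₀‖ := norm_pos_iff.2 (sub_ne_zero.2 h0)
  have h2 : ‖aeval s (Qden k (n + 1))‖
      = Real.exp ((n + 1) * ∑ x ∈ range (k + 1), Real.log ‖s - x‖) := by
    rw [Qden, map_prod, norm_prod, Finset.mul_sum, Real.exp_sum]
    refine Finset.prod_congr rfl fun x hx => ?_
    have h3 : 0 < ‖s - x‖ := norm_pos_iff.2 (sub_ne_zero.2 (h x hx))
    rw [← Nat.cast_succ, Real.exp_nat_mul, Real.exp_log h3]
    simp
  have h3 : ‖aeval s ((X - C s₀) ^ i * (X - C s₀) ^ l)‖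
      = Real.exp ((i + l) * Real.log ‖s - s₀‖) := by
    rw [← pow_add, ← Nat.cast_add, Real.exp_nat_mul, Real.exp_log h1]
    simp
  rw [Fc, norm_mul, norm_mul, norm_inv, h2, h3, Complex.norm_exp, ← Real.exp_neg, ← Real.exp_add,
    ← Real.exp_add]
  congr 1
  simp only [gg, mul_re, ratCast_re, ratCast_im, zero_mul, sub_zero, ofReal_ratCast]
  ring

theorem arch_det (k n : ℕ) (b a s₀ : ℚ) (m : ℕ) (δ R : ℝ) (c : ℂ) (hδ : 0 < δ) (hR : 0 ≤ R)
    (ha : ∀ j ∈ range (k + 1), |(a : ℝ) ^ j - Real.exp (b * j)| ≤ δ * Real.exp (b * j))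
    (h : ∀ j ∈ range (k + 1), (j : ℂ) ∈ ball c R) (h0 : (s₀ : ℂ) ∉ sphere c R)
    (h1 : ∀ j ∈ range (k + 1), (s₀ : ℂ) ∉ sphere (j : ℂ) (1 / 2)) (T : ℕ → ℝ)
    (hT1 : ∀ i < m, ∀ s ∈ sphere c R, gg k n b s₀ i s ≤ 2 * T i)
    (hT2 : ∀ i < m, ∀ j ∈ range (k + 1), ∀ s ∈ sphere (j : ℂ) (1 / 2),
      Real.log δ + gg k n b s₀ i s ≤ 2 * T i) :
    |(hankel (phi k n b a) m : ℝ)|
      ≤ m.factorial * (R + (k + 1)) ^ m * Real.exp (2 * ∑ i ∈ range m, T i) := by
  rw [← hankel_basis _ m (fun i => (X - C s₀) ^ i)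
    (fun i => by rw [natDegree_pow, natDegree_X_sub_C, mul_one])
    fun i => (monic_X_sub_C _).pow i]
  refine abs_det_le _ _ T fun i l => ?_
  rw [Matrix.of_apply, phi_apply]
  set f : ℚ[X] := (X - C s₀) ^ (i : ℕ) * (X - C s₀) ^ (l : ℕ) with hf
  have b1 := big_bound k n b f c R (Real.exp (T i + T l)) hR h fun s hs => by
    rw [hf, norm_Fc k n b s₀ i l s (fun h' => h0 (h' ▸ hs))
      fun x hx h' => (mem_ball.1 (h x hx)).ne (mem_sphere.1 (h' ▸ hs))]
    exact Real.exp_le_exp.2 (by linarith [hT1 i i.2 s hs, hT1 l l.2 s hs])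
  have b2 : ∀ j ∈ range (k + 1), |((a : ℝ) ^ j - Real.exp (b * j)) * (rho k n b j f : ℝ)|
      ≤ Real.exp (T i + T l) := by
    intro j hj
    have := small_bound k n b f j hj (Real.exp (T i + T l - Real.log δ)) fun s hs => by
      rw [hf, norm_Fc k n b s₀ i l s (fun h' => h1 j hj (h' ▸ hs)) fun x _ h' => ?_]
      · exact Real.exp_le_exp.2 (by linarith [hT2 i i.2 j hj s hs, hT2 l l.2 j hj s hs])
      · rw [h', mem_sphere] at hs
        by_cases hi : x = j
        · simp [hi] at hs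
        · linarith [half_le_dist hi]
    rw [Real.exp_sub, Real.exp_log hδ, le_div_iff₀ hδ] at this
    rw [abs_mul]
    calc _ ≤ δ * Real.exp (b * j) * |(rho k n b j f : ℝ)| :=
          mul_le_mul_of_nonneg_right (ha j hj) (abs_nonneg _)
      _ ≤ _ := by linarith
  have e : ((∑ j ∈ range (k + 1), a ^ j * rho k n b j f : ℚ) : ℝ)
      = ∑ j ∈ range (k + 1), Real.exp (b * j) * (rho k n b j f : ℝ)
        + ∑ j ∈ range (k + 1), ((a : ℝ) ^ j - Real.exp (b * j)) * (rho k n b j f : ℝ) := by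
    push_cast
    rw [← Finset.sum_add_distrib]
    exact Finset.sum_congr rfl fun _ _ => by ring
  rw [e, add_mul]
  refine (abs_add_le _ _).trans (add_le_add b1 ?_)
  refine (Finset.abs_sum_le_sum_abs _ _).trans ((Finset.sum_le_sum b2).trans ?_)
  simp

end Pool.Agent.Lib.MP_5fa244_nt
end
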