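import Pool.Agent.Shared.PNT.Main
import Pool.Agent.Lib.MP_5fa244_nt.Contour

-- part Pool.Agent.Lib.MP_5fa244_nt.Primes
section

/-! Weighted sums over primes. -/

namespace Pool.Agent.Lib.MP_5fa244_nt

open Finset Filter Topology Pool.Agent.Shared.PNT

/-- Weighted sum over the primes of `(x, y]`. -/
noncomputable def PS (g : ℕ → ℝ) (x y : ℕ) : ℝ :=
  ∑ p ∈ (Ioc x y).filter Nat.Prime, g p * Real.log p

lemma PS_add (g : ℕ → ℝ) {x y z : ℕ} (h1 : x ≤ y) (h2 : y ≤ z) :
    PS g x z = PS g x y + PS g y z := by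
  simp only [PS, Finset.sum_filter]
  rw [Finset.sum_Ioc_consecutive _ h1 h2]

lemma PS_mono {g g' : ℕ → ℝ} {x y : ℕ} (h : ∀ p, p.Prime → x < p → p ≤ y → g p ≤ g' p) :
    PS g x y ≤ PS g' x y := by
  refine Finset.sum_le_sum fun p hp => ?_
  rw [Finset.mem_filter, Finset.mem_Ioc] at hp
  exact mul_le_mul_of_nonneg_right (h p hp.2 hp.1.1 hp.1.2) (Real.log_natCast_nonneg p)

lemma PS_lin (g g' : ℕ → ℝ) (c c' : ℝ) (x y : ℕ) :
    PS (fun p => c * g p + c' * g' p) x y = c * PS g x y + c' * PS g' x y := by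
  simp only [PS, Finset.mul_sum, ← Finset.sum_add_distrib]
  exact Finset.sum_congr rfl fun _ _ => by ring

lemma PS_const (c : ℝ) (x y : ℕ) : PS (fun _ => c) x y = c * PS (fun _ => 1) x y := by
  simp [PS, Finset.mul_sum]

lemma PS_theta (y : ℝ) : PS (fun _ => 1) 0 ⌊y⌋₊ = Chebyshev.theta y := by
  simp [PS, Chebyshev.theta]

lemma PS_theta' {x y : ℝ} (h : x ≤ y) :
    PS (fun _ => 1) ⌊x⌋₊ ⌊y⌋₊ = Chebyshev.theta y - Chebyshev.theta x := by
  rw [← PS_theta, ← PS_theta, PS_add _ (Nat.zero_le _) (Nat.floor_le_floor h)]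
  ring

lemma PS_one_le {x y k : ℕ} (h2 : y ≤ k) : PS (fun _ => 1) x y ≤ 2 * k := by
  have h3 : PS (fun _ => 1) x y ≤ PS (fun _ => 1) 0 k := by
    refine Finset.sum_le_sum_of_subset_of_nonneg
      (Finset.filter_subset_filter _ (Finset.Ioc_subset_Ioc (Nat.zero_le _) h2)) fun p _ _ => ?_
    simpa using Real.log_natCast_nonneg p
  have h4 := PS_theta k
  rw [Nat.floor_natCast] at h4
  have h5 := Chebyshev.theta_le_log4_mul_x (x := k) (Nat.cast_nonneg k)
  have h6 : Real.log 4 ≤ 2 := by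
    rw [show (4 : ℝ) = 2 ^ 2 by norm_num, Real.log_pow]
    have := Real.log_two_lt_d9
    push_cast
    linarith
  have h7 : (0 : ℝ) ≤ k := Nat.cast_nonneg k
  nlinarith

lemma tendsto_theta_mul {c : ℝ} (hc : 0 ≤ c) :
    Tendsto (fun k : ℝ => Chebyshev.theta (c * k) / k) atTop (𝓝 c) := by
  rcases hc.eq_or_lt with rfl | hc
  · simp
  have h := (pnt_theta.comp (tendsto_id.const_mul_atTop hc)).const_mul c
  rw [mul_one] at h
  refine h.congr' ?_
  filter_upwards [eventually_gt_atTop 0] with k hk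
  simp only [Function.comp, id]
  field_simp

/-- The asymptotic upper bound property. -/
def UB (f : ℝ → ℝ) (a b C : ℝ) : Prop :=
  ∀ ε > 0, ∀ᶠ k : ℝ in atTop, PS (fun p => f (p / k)) ⌊a * k⌋₊ ⌊b * k⌋₊ ≤ (C + ε) * k

lemma UB.trans {f : ℝ → ℝ} {a b c C D : ℝ} (h1 : UB f a b C) (h2 : UB f b c D) (hab : a ≤ b)
    (hbc : b ≤ c) : UB f a c (C + D) := by
  intro ε hε
  filter_upwards [h1 (ε / 2) (by positivity), h2 (ε / 2) (by positivity),
    eventually_ge_atTop 0] with k a1 a2 hk
  rw [PS_add _ (Nat.floor_le_floor (mul_le_mul_of_nonneg_right hab hk))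
    (Nat.floor_le_floor (mul_le_mul_of_nonneg_right hbc hk))]
  linarith

lemma UB_const {f : ℝ → ℝ} {a b c : ℝ} (ha : 0 ≤ a) (hab : a ≤ b)
    (h : ∀ x ∈ Set.Icc a b, f x ≤ c) : UB f a b (c * (b - a)) := by
  intro ε hε
  have h1 := ((tendsto_theta_mul (ha.trans hab)).sub (tendsto_theta_mul ha)).const_mul c
  filter_upwards [h1.eventually (gt_mem_nhds (lt_add_of_pos_right _ hε)),
    eventually_gt_atTop 0] with k a1 hk
  refine (PS_mono (g' := fun _ => c) fun p _ h1 h2 => h _ ⟨?_, ?_⟩).trans ?_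
  · rw [le_div_iff₀ hk]
    exact ((Nat.floor_lt (by positivity)).1 h1).le
  · rw [div_le_iff₀ hk]
    exact (Nat.le_floor_iff (by have := ha.trans hab; positivity)).1 h2
  · rw [PS_const, PS_theta' (mul_le_mul_of_nonneg_right hab hk.le)]
    rw [← sub_div, ← mul_div_assoc, div_lt_iff₀ hk] at a1
    exact a1.le

theorem UB_deriv {f F : ℝ → ℝ} {a b : ℝ} (ha : 0 ≤ a) (hab : a < b)
    (hf : ContinuousOn f (Set.Icc a b)) (hF : ∀ x ∈ Set.Icc a b, HasDerivAt F (f x) x) :
    UB f a b (F b - F a) := by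
  intro ε hε
  have hba : 0 < b - a := sub_pos.2 hab
  obtain ⟨δ, hδ, hu⟩ := Metric.uniformContinuousOn_iff.1
    (isCompact_Icc.uniformContinuousOn_of_continuous hf) (ε / 2 / (b - a)) (by positivity)
  obtain ⟨N, hN⟩ := exists_nat_gt ((b - a) / δ)
  have hN0 : (0 : ℝ) < N := lt_trans (by positivity) hN
  set h := (b - a) / N with hh
  have hh0 : 0 < h := by positivity
  have hhδ : h < δ := by
    rw [hh, div_lt_iff₀ hN0]
    rw [div_lt_iff₀ hδ] at hN
    linarith
  have key : ∀ j : ℕ, j ≤ N → UB f a (a + j * h) (F (a + j * h) - F a + ε / 2 / (b - a) * (j * h)) := by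
    intro j
    induction j with
    | zero =>
      intro _
      have := UB_const (f := f) (c := f a) ha le_rfl fun x hx => by
        rw [le_antisymm hx.2 hx.1]
      simpa using this
    | succ j ih =>
      intro hj
      have hjR : (j : ℝ) + 1 ≤ N := by exact_mod_cast hj
      have hj0 : (0 : ℝ) ≤ j * h := by positivity
      have hlt : a + j * h < a + (j + 1) * h := by nlinarith
      have hle : a + (j + 1) * h ≤ b := by
        have : (N : ℝ) * h = b - a := by rw [hh]; field_simp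
        nlinarith
      have hsub : Set.Icc (a + j * h) (a + (j + 1) * h) ⊆ Set.Icc a b :=
        Set.Icc_subset_Icc (by linarith) hle
      obtain ⟨ξ, hξ, hξ2⟩ := exists_hasDerivAt_eq_slope F f hlt
        (fun x hx => (hF x (hsub hx)).continuousAt.continuousWithinAt)
        fun x hx => hF x (hsub (Set.Ioo_subset_Icc_self hx))
      have h2 := UB_const (f := f) (c := f ξ + ε / 2 / (b - a)) (by linarith) hlt.le
        fun x hx => by
          have := hu x (hsub hx) ξ (hsub (Set.Ioo_subset_Icc_self hξ)) (by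
            rw [Real.dist_eq, abs_lt]
            constructor <;> linarith [hx.1, hx.2, hξ.1, hξ.2])
          rw [Real.dist_eq, abs_lt] at this
          linarith [this.2]
      have h3 := (ih (by omega)).trans h2 (by linarith) hlt.le
      push_cast
      convert h3 using 1
      rw [hξ2, show a + (j + 1) * h - (a + j * h) = h by ring]
      field_simp
      ring
  have h4 := key N le_rfl (ε / 2) (by positivity)
  have h5 : (N : ℝ) * h = b - a := by rw [hh]; field_simp
  rw [h5, add_sub_cancel, div_mul_cancel₀ _ hba.ne'] at h4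
  filter_upwards [h4] with k hk
  convert hk using 2
  ring

lemma UB_inv {a b : ℝ} (ha : 0 < a) (hab : a < b) :
    UB (fun x => x⁻¹) a b (Real.log b - Real.log a) :=
  UB_deriv ha.le hab (continuousOn_inv₀.mono fun x hx => by
    simp only [Set.mem_compl_iff, Set.mem_singleton_iff]
    linarith [hx.1]) fun x hx => Real.hasDerivAt_log (by linarith [hx.1])

lemma UB_linear (α β : ℝ) {a b : ℝ} (ha : 0 ≤ a) (hab : a < b) :
    UB (fun x => α + β * x) a b (α * (b - a) + β * (b ^ 2 - a ^ 2) / 2) := by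
  have := UB_deriv (f := fun x => α + β * x) (F := fun x => α * x + β * x ^ 2 / 2) ha hab
    (by fun_prop) fun x _ => by
      have := ((hasDerivAt_id x).const_mul α).add
        ((((hasDerivAt_id x).pow 2).const_mul β).div_const 2)
      refine this.congr_deriv ?_
      simp
      ring
  convert this using 1
  ring

lemma log_factorial_eq (k : ℕ) :
    Real.log k.factorial = PS (fun p => padicValNat p k.factorial) 0 k := by
  rw [Real.log_nat_eq_sum_factorization, Finsupp.sum, Nat.support_factorization, PS]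
  refine Finset.sum_congr ?_ fun p hp => ?_
  · ext p
    simp only [Nat.mem_primeFactors, mem_filter, mem_Ioc]
    constructor
    · rintro ⟨h1, h2, -⟩
      exact ⟨⟨h1.pos, h1.dvd_factorial.1 h2⟩, h1⟩
    · rintro ⟨⟨-, h2⟩, h1⟩
      exact ⟨h1, h1.dvd_factorial.2 h2, k.factorial_ne_zero⟩
  · rw [Nat.factorization_def _ (Finset.mem_filter.1 hp).2]

lemma log_factorial_le (k : ℕ) (hk : 1 ≤ k) :
    Real.log k.factorial ≤ k * Real.log k - k + Real.log k + 1 := by
  induction k, hk using Nat.le_induction with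
  | base => simp
  | succ k hk ih =>
    have h0 : (0 : ℝ) < k := by exact_mod_cast hk
    rw [Nat.factorial_succ]
    push_cast
    rw [Real.log_mul (by positivity) (by positivity)]
    have h1 := Real.log_le_sub_one_of_pos (x := k / (k + 1)) (by positivity)
    rw [Real.log_div h0.ne' (by positivity)] at h1
    have h2 : ((k : ℝ) + 1) * (Real.log k - Real.log (k + 1)) ≤ -1 := by
      refine (mul_le_mul_of_nonneg_left h1 (by positivity)).trans (le_of_eq ?_)
      field_simp
      ring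
    linarith

lemma le_log_factorial (k : ℕ) : k * Real.log k - k ≤ Real.log k.factorial := by
  rcases Nat.eq_zero_or_pos k with rfl | hk
  · simp
  have h1 := Stirling.le_log_factorial_stirling hk.ne'
  have h2 := Real.log_natCast_nonneg k
  have h3 : 0 ≤ Real.log (2 * Real.pi) := Real.log_nonneg (by linarith [Real.pi_gt_three])
  linarith

lemma div_le_val (p k : ℕ) (hp : p.Prime) : k / p ≤ padicValNat p k.factorial := by
  have := Fact.mk hp
  rw [padicValNat_factorial (b := Nat.log p k + 2) (by omega)]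
  have := Finset.single_le_sum (f := fun i => k / p ^ i) (s := Ico 1 (Nat.log p k + 2))
    (fun _ _ => Nat.zero_le _) (a := 1) (by simp)
  simpa using this

/-- Mertens type estimate. -/
lemma PS_inv_le (k n : ℕ) (hn : 1 ≤ n) : PS (fun p => 1 / p) k n ≤ Real.log n + 2 := by
  have h0 : (0 : ℝ) < n := by exact_mod_cast hn
  have h1 : PS (fun p => 1 / p) k n ≤ PS (fun p => 1 / p) 0 n := by
    refine Finset.sum_le_sum_of_subset_of_nonneg
      (Finset.filter_subset_filter _ (Finset.Ioc_subset_Ioc (Nat.zero_le _) le_rfl)) fun p _ _ => ?_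
    have := Real.log_natCast_nonneg p
    positivity
  have h2 : PS (fun p => n * (1 / p) + (-1) * 1) 0 n
      ≤ PS (fun p => padicValNat p n.factorial) 0 n := PS_mono fun p hp _ _ => by
    have a1 : ((n / p : ℕ) : ℝ) ≤ padicValNat p n.factorial := by exact_mod_cast div_le_val p n hp
    have a2 := Nat.lt_div_mul_add (a := n) hp.pos
    have a3 : (n : ℝ) < (n / p : ℕ) * p + p := by exact_mod_cast a2
    have a4 : (0 : ℝ) < p := by exact_mod_cast hp.pos
    have a5 : (n : ℝ) * (1 / p) ≤ (n / p : ℕ) + 1 := by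
      rw [mul_one_div, div_le_iff₀ a4]
      nlinarith
    linarith
  rw [PS_lin, ← log_factorial_eq] at h2
  have h3 := PS_one_le (x := 0) (le_refl n)
  have h4 : Real.log n.factorial ≤ n * Real.log n := by
    rw [← Real.log_pow]
    exact Real.log_le_log (by positivity) (by exact_mod_cast Nat.factorial_le_pow n)
  have h5 : (n : ℝ) * PS (fun p => 1 / p) 0 n ≤ n * (Real.log n + 2) := by linarith
  exact h1.trans (le_of_mul_le_mul_left h5 h0)

lemma PS_floor (k R : ℕ) (hR : 0 < R) :
    PS (fun p => ((k / p : ℕ) : ℝ)) (k / R) k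
      = ∑ r ∈ range R, (Chebyshev.theta (1 / (r + 1 : ℕ) * k) - Chebyshev.theta (1 / R * k)) := by
  have e : ∀ r : ℕ, ⌊1 / (r : ℝ) * k⌋₊ = k / r := fun r => by
    rw [one_div, inv_mul_eq_div, Nat.floor_div_eq_div]
  have h1 : ∀ r ∈ range R, Chebyshev.theta (1 / (r + 1 : ℕ) * k) - Chebyshev.theta (1 / R * k)
      = ∑ p ∈ (Ioc (k / R) k).filter Nat.Prime, (if r < k / p then 1 else 0) * Real.log p := by
    intro r hr
    have hr' := Finset.mem_range.1 hr
    rw [← PS_theta' (mul_le_mul_of_nonneg_right (one_div_le_one_div_of_le (by positivity)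
      (by exact_mod_cast hr')) (Nat.cast_nonneg k)), e, e, PS]
    simp only [ite_mul, zero_mul]
    rw [← Finset.sum_filter]
    refine Finset.sum_congr ?_ fun _ _ => rfl
    ext p
    simp only [mem_filter, mem_Ioc]
    constructor
    · rintro ⟨⟨h1, h2⟩, h3⟩
      refine ⟨⟨⟨h1, h2.trans (Nat.div_le_self _ _)⟩, h3⟩, ?_⟩
      rw [Nat.le_div_iff_mul_le (Nat.succ_pos r), mul_comm] at h2
      exact (Nat.le_div_iff_mul_le h3.pos).2 h2
    · rintro ⟨⟨⟨h1, -⟩, h3⟩, h4⟩
      refine ⟨⟨h1, ?_⟩, h3⟩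
      rw [Nat.le_div_iff_mul_le (Nat.succ_pos r), mul_comm]
      exact (Nat.le_div_iff_mul_le h3.pos).1 h4
  rw [Finset.sum_congr rfl h1, Finset.sum_comm, PS]
  refine Finset.sum_congr rfl fun p hp => ?_
  rw [← Finset.sum_mul]
  congr 1
  rw [Finset.mem_filter, Finset.mem_Ioc] at hp
  have h2 : k / p ≤ R := by
    have := (Nat.div_lt_iff_lt_mul hR).1 hp.1.1
    exact ((Nat.div_lt_iff_lt_mul hp.2.pos).2 (by rwa [mul_comm])).le
  rw [Finset.sum_boole]
  congr 1
  have : (range R).filter (fun r => r < k / p) = range (k / p) := by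
    ext r
    simp only [mem_filter, mem_range]
    omega
  rw [this, card_range]

lemma eventually_PS_floor (R : ℕ) (hR : 0 < R) (ε : ℝ) (hε : 0 < ε) : ∀ᶠ k : ℕ in atTop,
    (Real.log R + Real.eulerMascheroniConstant - 1 - ε) * k
      ≤ PS (fun p => ((k / p : ℕ) : ℝ)) (k / R) k := by
  have h1 : Tendsto (fun k : ℝ => ∑ r ∈ range R, (Chebyshev.theta (1 / (r + 1 : ℕ) * k) / k
      - Chebyshev.theta (1 / R * k) / k)) atTop
      (𝓝 (∑ r ∈ range R, ((1 : ℝ) / (r + 1 : ℕ) - 1 / R))) :=
    tendsto_finsetSum _ fun r _ =>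
      (tendsto_theta_mul (by positivity)).sub (tendsto_theta_mul (by positivity))
  have h2 : Real.log R + Real.eulerMascheroniConstant - 1 - ε
      < ∑ r ∈ range R, ((1 : ℝ) / (r + 1 : ℕ) - 1 / R) := by
    have a1 := Real.eulerMascheroniConstant_lt_eulerMascheroniSeq' R
    rw [Real.eulerMascheroniSeq', if_neg hR.ne', harmonic] at a1
    have a2 : (R : ℝ) ≠ 0 := by positivity
    rw [Finset.sum_sub_distrib, Finset.sum_const, card_range, nsmul_eq_mul, mul_one_div_cancel a2]
    simp only [one_div]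
    push_cast at a1 ⊢
    linarith
  filter_upwards [tendsto_natCast_atTop_atTop.eventually (h1.eventually (lt_mem_nhds h2)),
    eventually_gt_atTop 0] with k hk hk0
  have h0 : (0 : ℝ) < k := by exact_mod_cast hk0
  rw [PS_floor k R hR]
  simp only [← sub_div, ← Finset.sum_div] at hk
  exact ((lt_div_iff₀ h0).1 hk).le

lemma eventually_PS_log (R : ℕ) (ε : ℝ) (hε : 0 < ε) : ∀ᶠ k : ℕ in atTop,
    PS (fun p => (Nat.log p k : ℝ)) 0 (k / R) ≤ (1 / R + ε) * k := by
  have h1 := tendsto_psi_sub_theta.add (tendsto_theta_mul (c := 1 / R) (by positivity))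
  rw [zero_add] at h1
  filter_upwards [tendsto_natCast_atTop_atTop.eventually
    (h1.eventually (gt_mem_nhds (lt_add_of_pos_right _ hε))), eventually_gt_atTop 0] with k hk hk0
  have h0 : (0 : ℝ) < k := by exact_mod_cast hk0
  rw [← add_div, div_lt_iff₀ h0] at hk
  have a1 : Chebyshev.psi k = PS (fun p => (Nat.log p k : ℝ)) 0 k := by
    rw [Chebyshev.psi_eq_sum_mul_log_prime, PS]
    refine Finset.sum_congr ?_ fun _ _ => rfl
    ext p
    simp only [Nat.mem_primesLE, mem_filter, mem_Ioc]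
    exact ⟨fun h => ⟨⟨h.2.pos, h.1⟩, h.2⟩, fun h => ⟨h.1.2, h.2⟩⟩
  have a2 := PS_add (fun p => (Nat.log p k : ℝ)) (Nat.zero_le (k / R)) (Nat.div_le_self k R)
  have a3 : PS (fun _ => 1) (k / R) k ≤ PS (fun p => (Nat.log p k : ℝ)) (k / R) k :=
    PS_mono fun p hp _ h2 => by exact_mod_cast Nat.log_pos hp.one_lt h2
  have a4 := PS_add (fun _ => 1) (Nat.zero_le (k / R)) (Nat.div_le_self k R)
  have a5 := PS_theta k
  have a6 := PS_theta (1 / R * k)
  rw [Nat.floor_natCast] at a5
  rw [one_div, inv_mul_eq_div, Nat.floor_div_eq_div, ← inv_mul_eq_div, ← one_div] at a6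
  linarith

end Pool.Agent.Lib.MP_5fa244_nt
end

-- part Pool.Agent.Lib.MP_5fa244_nt.Regimes
section

/-! `p`-adic bounds for the Hankel determinant, in the different ranges of primes. -/

namespace Pool.Agent.Lib.MP_5fa244_nt

open Polynomial Finset

lemma sum_range_cast (m : ℕ) : ∑ i ∈ range m, (i : ℝ) = m * (m - 1) / 2 := by
  induction m with
  | zero => simp
  | succ m ih =>
    rw [Finset.sum_range_succ, ih]
    push_cast
    ring

lemma sum_pos_part_le (D M : ℝ) (m : ℕ) (hD : 0 ≤ D) (hM : M ≤ D) (hm : m ≤ M ∨ M = D) :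
    ∑ i ∈ range m, max (D - i) 0 ≤ M * D - M ^ 2 / 2 + m / 2 := by
  have key : ∀ m : ℕ, ∑ i ∈ range m, max (D - i) 0 ≤ min (m : ℝ) D * D - min (m : ℝ) D ^ 2 / 2
      + m / 2 := by
    intro m
    induction m with
    | zero => simp [hD]
    | succ m ih =>
      rw [Finset.sum_range_succ]
      push_cast
      rcases le_total ((m : ℝ) + 1) D with h | h
      · rw [min_eq_left h, max_eq_left (by linarith)]
        rw [min_eq_left (by linarith)] at ih
        nlinarith
      · rw [min_eq_right h]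
        rcases le_total (m : ℝ) D with h2 | h2
        · rw [min_eq_left h2] at ih
          rw [max_eq_left (by linarith)]
          nlinarith [sq_nonneg (D - m - 1)]
        · rw [min_eq_right h2] at ih
          rw [max_eq_right (by linarith)]
          linarith
  refine (key m).trans ?_
  have h1 : min (m : ℝ) D ≤ M := by
    rcases hm with h | h
    · exact (min_le_left _ _).trans h
    · rw [h]; exact min_le_right _ _
  nlinarith

lemma nat_div_ge (i q : ℕ) (hq : 0 < q) : (i : ℝ) / q - 1 ≤ (i / q : ℕ) := by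
  have h := Nat.lt_div_mul_add (a := i) hq
  have h1 : (i : ℝ) < (i / q : ℕ) * q + q := by exact_mod_cast h
  have h2 : (0 : ℝ) < q := by exact_mod_cast hq
  rw [sub_le_iff_le_add, div_le_iff₀ h2]
  nlinarith

variable {p : ℕ} [hp : Fact p.Prime]

lemma inv_le_one' : 1 / ((p : ℝ) - 1) ≤ 1 := by
  have h3 : (2 : ℝ) ≤ p := by exact_mod_cast hp.out.two_le
  rw [div_le_one (by linarith)]
  linarith

lemma inv_pos' : 0 < 1 / ((p : ℝ) - 1) := by
  have h3 : (2 : ℝ) ≤ p := by exact_mod_cast hp.out.two_le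
  exact one_div_pos.2 (by linarith)

theorem regime_small (k n : ℕ) (b a : ℤ) (m : ℕ) (hk : p ≤ k) :
    nu p (hankel (phi k n b a) m) ≤ pw p ((m * (n + 1) - m * (m - 1) / k)
      * padicValNat p k.factorial + m * (n + 3) * Nat.log p k) := by
  set L := Nat.log p k with hL
  set V := padicValNat p k.factorial with hV
  have hL1 : (1 : ℝ) ≤ L := by exact_mod_cast Nat.log_pos hp.out.one_lt hk
  have hk0 : (0 : ℝ) < k := by exact_mod_cast hp.out.pos.trans_le hk
  refine (nu_hankel_le k b a m Pk natDegree_Pk monic_Pk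
    (fun i => (n + 1) * V / 2 + L * (n + 1) / 2 - ∑ e ∈ Icc 1 L, ((i / p ^ e : ℕ) : ℝ))
    fun i l j hj => ?_).trans (pw_mono _ ?_)
  · refine (nu_rho_le k b j _ (σ := L) (GB_ex' b (inv_le_one'.trans hL1))
      (by rw [map_mul]; exact (GB_Pk_small j i L).mul (GB_Pk_small j l L))
      (GB_Gj_log k (n + 1) j hj le_rfl)).trans (pw_mono _ ?_)
    have : (Sv p k j : ℝ) ≤ V := by exact_mod_cast Sv_le k j hj
    push_cast
    have h0 : (0 : ℝ) ≤ n := Nat.cast_nonneg n
    nlinarith
  · have hVe : (V : ℝ) = ∑ e ∈ Icc 1 L, ((k / p ^ e : ℕ) : ℝ) := by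
      rw [hV, padicValNat_factorial (b := L + 1) (by omega)]
      push_cast
      rfl
    have h1 : ∀ i : ℕ, (i : ℝ) / k * V - L ≤ ∑ e ∈ Icc 1 L, ((i / p ^ e : ℕ) : ℝ) := by
      intro i
      have : (L : ℝ) = ∑ e ∈ Icc 1 L, (1 : ℝ) := by simp
      rw [hVe, Finset.mul_sum, this, ← Finset.sum_sub_distrib]
      refine Finset.sum_le_sum fun e _ => le_trans ?_ (nat_div_ge i _ (pow_pos hp.out.pos e))
      have h2 : ((k / p ^ e : ℕ) : ℝ) ≤ k / (p ^ e : ℕ) := Nat.cast_div_le
      have h3 : (i : ℝ) / k * ((k / p ^ e : ℕ) : ℝ) ≤ i / k * (k / (p ^ e : ℕ)) :=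
        mul_le_mul_of_nonneg_left h2 (by positivity)
      have h4 : (i : ℝ) / k * (k / (p ^ e : ℕ)) = i / (p ^ e : ℕ) := by field_simp
      linarith
    have h2 : ∑ i ∈ range m, (((n : ℝ) + 1) * V / 2 + L * (n + 1) / 2
        - ∑ e ∈ Icc 1 L, ((i / p ^ e : ℕ) : ℝ))
        ≤ ∑ i ∈ range m, (((n : ℝ) + 1) * V / 2 + L * (n + 1) / 2 + L - i * (V / k)) :=
      Finset.sum_le_sum fun i _ => by
        have := h1 i
        rw [div_mul_eq_mul_div, mul_div_assoc] at this
        linarith
    rw [Finset.sum_sub_distrib _ (fun i : ℕ => (i : ℝ) * (V / k)), ← Finset.sum_mul,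
      sum_range_cast, Finset.sum_const, card_range, nsmul_eq_mul] at h2
    refine (mul_le_mul_of_nonneg_left h2 zero_le_two).trans (le_of_eq ?_)
    ring

lemma Sv_eq_div (k j : ℕ) (hj : j ≤ k) (hk : k < p ^ 2) : Sv p k j = j / p + (k - j) / p := by
  have : ∀ t ≤ k, padicValNat p t.factorial = t / p := fun t ht => by
    rw [padicValNat_factorial (b := 2) (Nat.log_lt_of_lt_pow' (by omega) (by omega))]
    simp
  rw [Sv, this j hj, this _ (Nat.sub_le _ _)]

lemma Sv_le_div (k j : ℕ) (hj : j ≤ k) (hk : k < p ^ 2) :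
    Sv p k j ≤ k / p ∧ (k % p < j % p → Sv p k j + 1 ≤ k / p) := by
  have h0 := hp.out.pos
  have h1 := Nat.add_div (a := j) (b := k - j) h0
  rw [Nat.add_sub_cancel' hj] at h1
  rw [Sv_eq_div k j hj hk]
  refine ⟨by omega, fun h => ?_⟩
  have h2 : k % p = (j % p + (k - j) % p) % p := by
    rw [← Nat.add_mod, Nat.add_sub_cancel' hj]
  by_cases h3 : p ≤ j % p + (k - j) % p
  · rw [if_pos h3] at h1
    omega
  · rw [Nat.mod_eq_of_lt (not_le.1 h3)] at h2
    omega

omit hp in
lemma log_le_one (k : ℕ) (hk : k < p ^ 2) : (Nat.log p k : ℝ) ≤ 1 := by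
  have := Nat.log_lt_of_lt_pow' (b := p) (by omega) hk
  exact_mod_cast (by omega)

theorem regime_mid (k n v : ℕ) (hv : n + 1 = 2 * v) (b a : ℤ) (m : ℕ) (hk : k < p ^ 2) :
    nu p (hankel (phi k n b a) m) ≤ pw p ((m * (n + 1) * (k + 1) - m * (m - 1)) / p
      + (n + 1) ^ 2 * p / 16 + 3 * m) := by
  have h0 := hp.out.pos
  set r := k / p with hr
  set e := k % p + 1 with he
  have hep : e ≤ p := Nat.mod_lt _ h0
  have he0 : 0 < e := Nat.succ_pos _
  set A : ℕ → ℕ := fun i => min v (i / e) with hA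
  set B : ℕ → ℕ := fun i => (i - A i * e) / p with hB
  have hAe : ∀ i, A i * e ≤ i := fun i =>
    (Nat.mul_le_mul_right _ (min_le_right _ _)).trans (Nat.div_mul_le_self _ _)
  have hvR : (n : ℝ) + 1 = 2 * v := by exact_mod_cast hv
  refine (nu_hankel_le k b a m
    (fun i => Pk e ^ A i * Pk p ^ B i * X ^ ((i - A i * e) % p)) (fun i => ?_)
    (fun i => (((monic_Pk _).pow _).mul ((monic_Pk _).pow _)).mul (monic_X_pow _))
    (fun i => v * (r + 1) - A i - B i) fun i l j hj => ?_).trans (pw_mono _ ?_)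
  · rw [natDegree_mul_X_pow _ (((monic_Pk _).pow _).mul ((monic_Pk _).pow _)).ne_zero,
      ((monic_Pk _).pow _).natDegree_mul ((monic_Pk _).pow _), natDegree_pow, natDegree_pow,
      natDegree_Pk, natDegree_Pk]
    have h1 := Nat.div_add_mod' (i - A i * e) p
    have h2 := hAe i
    simp only [hB]
    omega
  · have hBp : ∀ t : ℕ, GB p n 1 (t * -1) (tay j (Pk p ^ t)) := fun t => by
      rw [map_pow]
      exact (GB_Pk_mod j p (Nat.mod_lt _ h0)).pow t
    have hG := GB_Gj_log (p := p) (n := n) (σ := 1) k (n + 1) j hj (log_le_one k hk)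
    have hS := Sv_le_div (p := p) k j hj hk
    have h00 : (0 : ℝ) ≤ n := Nat.cast_nonneg n
    by_cases hc : j % p < e
    · have hAp : ∀ t : ℕ, GB p n 1 (t * -1) (tay j (Pk e ^ t)) := fun t => by
        rw [map_pow]
        exact (GB_Pk_mod j e hc).pow t
      refine (nu_rho_le k b j _ (σ := 1) (GB_ex' b inv_le_one')
        (by
          simp only [map_mul]
          exact (((hAp _).mul (hBp _)).mul (GB_X_pow j _ zero_le_one)).mul
            (((hAp _).mul (hBp _)).mul (GB_X_pow j _ zero_le_one))) hG).trans (pw_mono _ ?_)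
      have : (Sv p k j : ℝ) ≤ r := by exact_mod_cast hS.1
      push_cast
      nlinarith
    · have hAp : ∀ t : ℕ, GB p n 1 (t * 0) (tay j (Pk e ^ t)) := fun t => by
        rw [map_pow]
        exact (GB_Pk_zero j e zero_le_one).pow t
      refine (nu_rho_le k b j _ (σ := 1) (GB_ex' b inv_le_one')
        (by
          simp only [map_mul]
          exact (((hAp _).mul (hBp _)).mul (GB_X_pow j _ zero_le_one)).mul
            (((hAp _).mul (hBp _)).mul (GB_X_pow j _ zero_le_one))) hG).trans (pw_mono _ ?_)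
      have : (Sv p k j : ℝ) + 1 ≤ r := by exact_mod_cast hS.2 (by omega)
      have a1 : (A i : ℝ) ≤ v := by exact_mod_cast min_le_left _ _
      have a2 : (A l : ℝ) ≤ v := by exact_mod_cast min_le_left _ _
      push_cast
      nlinarith
  · have hpR : (0 : ℝ) < p := by exact_mod_cast h0
    have heR : (0 : ℝ) < e := by exact_mod_cast he0
    have hepR : (e : ℝ) ≤ p := by exact_mod_cast hep
    have hkR : (k : ℝ) + 1 = r * p + e := by
      have : k + 1 = r * p + e := by
        have := Nat.div_add_mod' k p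
        rw [← hr] at this
        omega
      exact_mod_cast this
    have hd : 0 ≤ 1 / (e : ℝ) - 1 / p := sub_nonneg.2 (one_div_le_one_div_of_le heR hepR)
    have h1 : ∀ i : ℕ, (v : ℝ) * (r + 1) - A i - B i
        ≤ (v * (k + 1) / p + 1 - i * (1 / p)) + max ((v * e : ℝ) - i) 0 * (1 / e - 1 / p) := by
      intro i
      by_cases hi : v * e ≤ i
      · have a1 : A i = v := min_eq_left ((Nat.le_div_iff_mul_le he0).2 hi)
        have a2 := nat_div_ge (i - v * e) p h0
        rw [Nat.cast_sub hi] at a2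
        have a3 : 0 ≤ max ((v * e : ℝ) - i) 0 * (1 / e - 1 / p) := mul_nonneg (le_max_right _ _) hd
        simp only [hB, a1]
        push_cast at a2
        have a4 : (v : ℝ) * (k + 1) / p - i * (1 / p) = v * r - (i - v * e) / p := by
          rw [hkR]
          field_simp
          ring
        linarith
      · have a1 : A i = i / e := min_eq_right (by
          by_contra hh
          exact hi ((Nat.le_div_iff_mul_le he0).1 (by omega)))
        have a2 := nat_div_ge i e he0
        have a3 : (0 : ℝ) ≤ B i := Nat.cast_nonneg _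
        have a5 : (i : ℝ) ≤ v * e := by exact_mod_cast (by omega : i ≤ v * e)
        rw [a1, max_eq_left (by linarith)]
        have a4 : (v : ℝ) * (k + 1) / p - i * (1 / p) + (v * e - i) * (1 / e - 1 / p)
            = v * (r + 1) - i / e := by
          rw [hkR]
          field_simp
          ring
        linarith
    have h2 := Finset.sum_le_sum fun i (_ : i ∈ range m) => h1 i
    rw [Finset.sum_add_distrib, Finset.sum_sub_distrib _ (fun i : ℕ => (i : ℝ) * (1 / p)),
      ← Finset.sum_mul, ← Finset.sum_mul,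
      sum_range_cast, Finset.sum_const, card_range, nsmul_eq_mul] at h2
    have h3 := mul_le_mul_of_nonneg_right
      (sum_pos_part_le (v * e) (v * e) m (by positivity) le_rfl (Or.inr rfl)) hd
    have h4 : ((v : ℝ) * e * (v * e) - (v * e) ^ 2 / 2 + m / 2) * (1 / e - 1 / p)
        ≤ v ^ 2 * p / 8 + m / 2 := by
      have a1 : 1 / (e : ℝ) - 1 / p ≤ 1 := by
        have : 1 / (e : ℝ) ≤ 1 := by
          rw [div_le_one heR]
          exact_mod_cast he0
        have : 0 ≤ 1 / (p : ℝ) := by positivity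
        linarith
      have a2 : (e : ℝ) ^ 2 * (1 / e - 1 / p) ≤ p / 4 := by
        have : (e : ℝ) ^ 2 * (1 / e - 1 / p) = e * (p - e) / p := by field_simp
        rw [this, div_le_iff₀ hpR]
        nlinarith [sq_nonneg ((p : ℝ) - 2 * e)]
      have a3 : (0 : ℝ) ≤ m := Nat.cast_nonneg m
      nlinarith [sq_nonneg (v : ℝ)]
    have h5 : (m * (n + 1) * (k + 1) - m * (m - 1) : ℝ) / p + (n + 1) ^ 2 * p / 16 + 3 * m
        = 2 * (m * (v * (k + 1) / p + 1) - m * (m - 1) / 2 * (1 / p) + (v ^ 2 * p / 8 + m / 2)) := by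
      rw [hvR]
      field_simp
      ring
    rw [h5]
    linarith

theorem regime_top (k n : ℕ) (b a : ℤ) (m : ℕ) (hk1 : p ≤ k) (hk2 : k < 2 * p) (M : ℝ)
    (hM : M ≤ (n + 1) * (k + 1 - p)) (hm : m ≤ M ∨ M = (n + 1) * (k + 1 - p)) :
    nu p (hankel (phi k n b a) m) ≤ pw p (2 * M * (n + 1) - M ^ 2 / (k + 1 - p) + 3 * m
      + m * (n + 1) * (1 / (p - 1))) := by
  have h0 := hp.out.pos
  have h2p := hp.out.two_le
  have hk : k < p ^ 2 := by nlinarith
  have hr : k / p = 1 := Nat.div_eq_of_lt_le (by omega) (by omega)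
  set e := k % p + 1 with he
  have he1 : e + p = k + 1 := by
    have := Nat.div_add_mod k p
    rw [hr] at this
    omega
  have heR : (e : ℝ) = k + 1 - p := by
    have : (e : ℝ) + p = k + 1 := by exact_mod_cast he1
    linarith
  rw [← heR] at hM hm ⊢
  have he0 : 0 < e := Nat.succ_pos _
  set A : ℕ → ℕ := fun i => min (n + 1) (i / e) with hA
  have hAe : ∀ i, A i * e ≤ i := fun i =>
    (Nat.mul_le_mul_right _ (min_le_right _ _)).trans (Nat.div_mul_le_self _ _)
  have hσ := inv_pos' (p := p)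
  have h00 : (0 : ℝ) ≤ n := Nat.cast_nonneg n
  refine (nu_hankel_le k b a m
    (fun i => Pk e ^ A i * X ^ (i - A i * e)) (fun i => ?_)
    (fun i => ((monic_Pk _).pow _).mul (monic_X_pow _))
    (fun i => (n + 1) - A i + (n + 1) / 2 * (1 / (p - 1))) fun i l j hj => ?_).trans (pw_mono _ ?_)
  · rw [natDegree_mul_X_pow _ ((monic_Pk _).pow _).ne_zero, natDegree_pow, natDegree_Pk]
    have h2 := hAe i
    omega
  · have hS := Sv_le_div (p := p) k j hj hk
    by_cases hc : j % p < e
    · have hG := GB_Gj_log (p := p) (n := n) (σ := 1) k (n + 1) j hj (log_le_one k hk)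
      have hAp : ∀ t : ℕ, GB p n 1 (t * -1) (tay j (Pk e ^ t)) := fun t => by
        rw [map_pow]
        exact (GB_Pk_mod j e hc).pow t
      refine (nu_rho_le k b j _ (σ := 1) (GB_ex' b inv_le_one')
        (by
          simp only [map_mul]
          exact ((hAp _).mul (GB_X_pow j _ zero_le_one)).mul
            ((hAp _).mul (GB_X_pow j _ zero_le_one))) hG).trans (pw_mono _ ?_)
      have : (Sv p k j : ℝ) ≤ 1 := by exact_mod_cast hr ▸ hS.1
      push_cast
      nlinarith
    · have hG := GB_Gj_zero (p := p) (n := n) k (n + 1) j hj hσ.le (by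
        have := hS.2 (by omega)
        omega)
      have hAp : ∀ t : ℕ, GB p n (1 / (p - 1)) (t * 0) (tay j (Pk e ^ t)) := fun t => by
        rw [map_pow]
        exact (GB_Pk_zero j e hσ.le).pow t
      refine (nu_rho_le k b j _ (σ := 1 / (p - 1)) (GB_ex' b le_rfl)
        (by
          simp only [map_mul]
          exact ((hAp _).mul (GB_X_pow j _ hσ.le)).mul
            ((hAp _).mul (GB_X_pow j _ hσ.le))) hG).trans (pw_mono _ ?_)
      have a1 : (A i : ℝ) ≤ n + 1 := by exact_mod_cast min_le_left _ _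
      have a2 : (A l : ℝ) ≤ n + 1 := by exact_mod_cast min_le_left _ _
      nlinarith
  · have heR0 : (0 : ℝ) < e := by exact_mod_cast he0
    have h1 : ∀ i : ℕ, ((n : ℝ) + 1) - A i + (n + 1) / 2 * (1 / (p - 1))
        ≤ (1 + (n + 1) / 2 * (1 / (p - 1))) + max (((n + 1) * e : ℝ) - i) 0 * (1 / e) := by
      intro i
      by_cases hi : (n + 1) * e ≤ i
      · have a1 : A i = n + 1 := min_eq_left ((Nat.le_div_iff_mul_le he0).2 hi)
        have a3 : 0 ≤ max (((n + 1) * e : ℝ) - i) 0 * (1 / e) :=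
          mul_nonneg (le_max_right _ _) (by positivity)
        rw [a1]
        push_cast
        linarith
      · have a1 : A i = i / e := min_eq_right (by
          by_contra hh
          exact hi ((Nat.le_div_iff_mul_le he0).1 (by omega)))
        have a2 := nat_div_ge i e he0
        have a5 : (i : ℝ) ≤ (n + 1) * e := by exact_mod_cast (by omega : i ≤ (n + 1) * e)
        rw [a1, max_eq_left (by linarith)]
        have a4 : (((n : ℝ) + 1) * e - i) * (1 / e) = (n + 1) - i / e := by field_simp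
        linarith
    have h2 := Finset.sum_le_sum fun i (_ : i ∈ range m) => h1 i
    rw [Finset.sum_add_distrib (f := fun _ => (1 + ((n : ℝ) + 1) / 2 * (1 / (p - 1)))),
      ← Finset.sum_mul, Finset.sum_const, card_range, nsmul_eq_mul] at h2
    have h3 := mul_le_mul_of_nonneg_right
      (sum_pos_part_le ((n + 1) * e) M m (by positivity) hM hm) (by positivity : 0 ≤ 1 / (e : ℝ))
    have h4 : (M * ((n + 1) * e) - M ^ 2 / 2 + m / 2) * (1 / (e : ℝ))
        ≤ M * (n + 1) - M ^ 2 / e / 2 + m / 2 := by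
      have a1 : 1 / (e : ℝ) ≤ 1 := by
        rw [div_le_one heR0]
        exact_mod_cast he0
      have a2 : (M * ((n + 1) * e) - M ^ 2 / 2 + m / 2) * (1 / (e : ℝ))
          = M * (n + 1) - M ^ 2 / e / 2 + m / 2 * (1 / e) := by field_simp
      have a3 : (0 : ℝ) ≤ m := Nat.cast_nonneg m
      nlinarith
    linarith

lemma Sv_zero (k j : ℕ) (hj : j ≤ k) (hk : k < p) : Sv p k j = 0 := by
  have h2p := hp.out.two_le
  have := (Sv_le_div (p := p) k j hj (by nlinarith)).1
  rw [Nat.div_eq_of_lt hk] at this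
  omega

theorem regime_large (k n : ℕ) (b a : ℤ) (m : ℕ) (hk : k < p) :
    nu p (hankel (phi k n b a) m) ≤ pw p ((m * (n + 1) - m * (m - 1) / (k + 1) + 2 * m)
      * (1 / (p - 1))) := by
  have hσ := inv_pos' (p := p)
  set σ := 1 / ((p : ℝ) - 1) with hσd
  refine (nu_hankel_le k b a m
    (fun i => Pk (k + 1) ^ (i / (k + 1)) * X ^ (i % (k + 1))) (fun i => ?_)
    (fun i => ((monic_Pk _).pow _).mul (monic_X_pow _))
    (fun i => ((n + 1) / 2 - (i / (k + 1) : ℕ)) * σ) fun i l j hj => ?_).trans (pw_mono _ ?_)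
  · rw [natDegree_mul_X_pow _ ((monic_Pk _).pow _).ne_zero, natDegree_pow, natDegree_Pk]
    exact Nat.div_add_mod' _ _
  · have hG := GB_Gj_zero (p := p) (n := n) k (n + 1) j hj hσ.le (Sv_zero k j hj hk)
    have hAp : ∀ t : ℕ, GB p n σ (t * -σ) (tay j (Pk (k + 1) ^ t)) := fun t => by
      rw [map_pow]
      refine (GB_Pk_single j (k + 1) j hσ.le (by omega) ?_).pow t
      simp [nu_zero, (pw_pos _ _).le]
    refine (nu_rho_le k b j _ (σ := σ) (GB_ex' b le_rfl)
      (by
        simp only [map_mul]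
        exact ((hAp _).mul (GB_X_pow j _ hσ.le)).mul
          ((hAp _).mul (GB_X_pow j _ hσ.le))) hG).trans (pw_mono _ ?_)
    nlinarith
  · rw [← Finset.sum_mul, ← mul_assoc]
    refine mul_le_mul_of_nonneg_right ?_ hσ.le
    have h1 : ∀ i : ℕ, ((n : ℝ) + 1) / 2 - (i / (k + 1) : ℕ)
        ≤ ((n + 1) / 2 + 1) - i * (1 / (k + 1)) := fun i => by
      have := nat_div_ge i (k + 1) (Nat.succ_pos k)
      push_cast at this
      rw [mul_one_div]
      linarith
    have h2 := Finset.sum_le_sum fun i (_ : i ∈ range m) => h1 i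
    rw [Finset.sum_sub_distrib _ (fun i : ℕ => (i : ℝ) * (1 / (k + 1))), ← Finset.sum_mul,
      sum_range_cast, Finset.sum_const, card_range, nsmul_eq_mul] at h2
    refine (mul_le_mul_of_nonneg_left h2 zero_le_two).trans (le_of_eq ?_)
    ring

theorem regime_huge (k n : ℕ) (b a : ℤ) (m : ℕ) (hk : k < p) (hn : n < p) :
    nu p (hankel (phi k n b a) m) ≤ 1 := by
  have := nu_hankel_le (p := p) (n := n) k b a m (fun i => X ^ i) (fun i => natDegree_X_pow i)
    (fun i => monic_X_pow i) (fun _ => 0) fun i l j hj => by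
      refine (nu_rho_le k b j _ (σ := 0) (GB_ex b fun d hd => ?_)
        (by rw [← pow_add]; exact GB_X_pow j _ le_rfl)
        (GB_Gj_zero k (n + 1) j hj le_rfl (Sv_zero k j hj hk))).trans (by simp)
      rw [padicValNat.eq_zero_of_not_dvd (by rw [hp.out.dvd_factorial]; omega)]
      simp
  simpa [pw_zero] using this

end Pool.Agent.Lib.MP_5fa244_nt
end

-- part Pool.Agent.Lib.MP_5fa244_nt.Arith
section

/-! The arithmetic lower bound for a nonzero Hankel determinant. -/

namespace Pool.Agent.Lib.MP_5fa244_nt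

open Finset Filter Topology

lemma PS_lin3 (g g' : ℕ → ℝ) (c c' e : ℝ) (x y k : ℕ) (hy : y ≤ k) (he : 0 ≤ e) :
    PS (fun p => c * g p + c' * g' p + e) x y ≤ c * PS g x y + c' * PS g' x y + e * (2 * k) := by
  have h1 := PS_lin (fun p => c * g p + c' * g' p) (fun _ => 1) 1 e x y
  simp only [one_mul, mul_one] at h1
  rw [h1, PS_lin]
  have := mul_le_mul_of_nonneg_left (PS_one_le (x := x) hy) he
  linarith

lemma arith_split (k n v m R k₂ k₃ : ℕ) (b a : ℤ) (hv : n + 1 = 2 * v) (hR : 0 < R)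
    (hk : R ^ 2 ≤ k) (hkn : k ≤ n) (hm : (m : ℝ) ≤ 3 / 8 * ((n + 1) * k))
    (h12 : k / R ≤ k₂) (h23 : k₂ ≤ k₃) (h3 : k₃ ≤ k) (hk₂ : k < 2 * (k₂ + 1))
    (hk₃ : (k₃ : ℝ) ≤ 5 / 8 * k) (W e : ℝ) (hW : W = m * (n + 1) - m * (m - 1) / k)
    (he : e = m * (n + 1) * (R + 4) / k + (n + 1) ^ 2 + 3 * m)
    (hne : hankel (phi k n b a) m ≠ 0) :
    -Real.log |(hankel (phi k n b a) m : ℝ)|
      ≤ PS (fun p => W * padicValNat p k.factorial + m * (n + 3) * Nat.log p k) 0 (k / R)
      + PS (fun p => W * ((p : ℝ) / k)⁻¹ + (n + 1) ^ 2 * k * (0 + 1 / 16 * (p / k)) + e) (k / R) k₂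
      + PS (fun p => (n + 1) ^ 2 * k * (165 / 196 + (-36 / 49) * (p / k)) + e) k₂ k₃
      + PS (fun p => (n + 1) ^ 2 * k * (1 + (-1) * (p / k)) + e) k₃ k
      + PS (fun p => (W + (n + 1) ^ 2 + 2 * m) * (1 + 1 / k) * (1 / p)) k n := by
  have hk0 : 0 < k := lt_of_lt_of_le (pow_pos hR 2) hk
  have hkR : (0 : ℝ) < k := by exact_mod_cast hk0
  have hm0 : (0 : ℝ) ≤ m := Nat.cast_nonneg m
  have hn0 : (0 : ℝ) ≤ n := Nat.cast_nonneg n
  have hR0 : (0 : ℝ) ≤ R := Nat.cast_nonneg R
  have hNk : (0 : ℝ) ≤ (n + 1) * k := by positivity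
  have hW0 : 0 ≤ W := by
    rw [hW, sub_nonneg, div_le_iff₀ hkR, mul_assoc]
    exact mul_le_mul_of_nonneg_left (by linarith) hm0
  have he0 : 0 ≤ e := by rw [he]; positivity
  set E : ℕ → ℝ := fun p =>
    if p ≤ k / R then W * padicValNat p k.factorial + m * (n + 3) * Nat.log p k
    else if p ≤ k₂ then W * ((p : ℝ) / k)⁻¹ + (n + 1) ^ 2 * k * (0 + 1 / 16 * (p / k)) + e
    else if p ≤ k₃ then (n + 1) ^ 2 * k * (165 / 196 + (-36 / 49) * (p / k)) + e
    else if p ≤ k then (n + 1) ^ 2 * k * (1 + (-1) * (p / k)) + e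
    else (W + (n + 1) ^ 2 + 2 * m) * (1 + 1 / k) * (1 / p) with hE
  have hinv : ∀ p : ℕ, p.Prime → k₂ < p → m * (n + 1) * (1 / ((p : ℝ) - 1))
      ≤ m * (n + 1) * (R + 4) / k := by
    intro p hp h1
    have a1 : (2 : ℝ) ≤ p := by exact_mod_cast hp.two_le
    have a2 : (k : ℝ) < 2 * p := by exact_mod_cast (by omega : k < 2 * p)
    rw [mul_div_assoc]
    refine mul_le_mul_of_nonneg_left ?_ (by positivity)
    rw [div_le_div_iff₀ (by linarith) hkR]
    nlinarith
  refine (neg_log_le _ hne n E (fun p hp _ => ?_) (fun p hp hpn => ?_)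
    fun p hp hpn => regime_huge k n b a m (by omega) hpn).trans (le_of_eq ?_)
  · simp only [hE]
    split_ifs with h1 h2 h3 h4
    · positivity
    · positivity
    · have a1 : (p : ℝ) ≤ k₃ := by exact_mod_cast h3
      have a2 : (p : ℝ) / k ≤ 5 / 8 := by rw [div_le_iff₀ hkR]; linarith
      have : 0 ≤ 165 / 196 + (-36 / 49) * ((p : ℝ) / k) := by linarith
      positivity
    · have a1 : (p : ℝ) ≤ k := by exact_mod_cast h4
      have a2 : (p : ℝ) / k ≤ 1 := by rw [div_le_iff₀ hkR]; linarith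
      have : 0 ≤ 1 + (-1) * ((p : ℝ) / k) := by linarith
      positivity
    · positivity
  · have hp0 : (0 : ℝ) < p := by exact_mod_cast hp.out.pos
    simp only [hE]
    split_ifs with h1 h2 h3 h4
    · rw [hW]
      exact regime_small k n b a m (h1.trans (Nat.div_le_self _ _))
    · have a1 : k < p * R := (Nat.div_lt_iff_lt_mul hR).1 (by omega)
      have a2 : k < p ^ 2 := by
        have : R < p := by nlinarith
        nlinarith
      refine (regime_mid k n v hv b a m a2).trans (pw_mono _ ?_)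
      have a3 : (k : ℝ) < p * R := by exact_mod_cast a1
      have a4 : m * ((n : ℝ) + 1) / p ≤ m * (n + 1) * (R + 4) / k := by
        rw [mul_div_assoc _ (R + 4 : ℝ), div_eq_mul_one_div]
        refine mul_le_mul_of_nonneg_left ?_ (by positivity)
        rw [div_le_div_iff₀ hp0 hkR]
        nlinarith
      have a5 : (m * (n + 1) * (k + 1) - m * (m - 1) : ℝ) / p
          = W * ((p : ℝ) / k)⁻¹ + m * (n + 1) / p := by
        rw [hW]
        field_simp
        ring
      have a6 : ((n : ℝ) + 1) ^ 2 * k * (0 + 1 / 16 * (p / k)) = (n + 1) ^ 2 * p / 16 := by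
        field_simp
        ring
      rw [a5, a6, he]
      nlinarith [sq_nonneg ((n : ℝ) + 1)]
    · have a1 : (p : ℝ) ≤ 5 / 8 * k := le_trans (by exact_mod_cast h3) hk₃
      refine (regime_top k n b a m (by omega) (by omega) (3 / 8 * ((n + 1) * k)) ?_
        (Or.inl hm)).trans (pw_mono _ ?_)
      · nlinarith
      have a2 := hinv p hp.out (by omega)
      have a3 : (0 : ℝ) < k + 1 - p := by linarith
      have a4 : ((n : ℝ) + 1) ^ 2 * (9 / 14 * k - 36 / 49 * (k + 1 - p))
          ≤ (3 / 8 * ((n + 1) * k)) ^ 2 / (k + 1 - p) := by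
        rw [le_div_iff₀ a3]
        nlinarith [mul_nonneg (sq_nonneg ((n : ℝ) + 1)) (sq_nonneg (7 / 16 * k - (k + 1 - p : ℝ)))]
      have a6 : ((n : ℝ) + 1) ^ 2 * k * (165 / 196 + (-36 / 49) * (p / k))
          = (n + 1) ^ 2 * (165 / 196 * k - 36 / 49 * p) := by
        field_simp
        ring
      rw [a6, he]
      nlinarith [sq_nonneg ((n : ℝ) + 1)]
    · have a1 : (p : ℝ) ≤ k := by exact_mod_cast h4
      refine (regime_top k n b a m h4 (by omega) _ le_rfl (Or.inr rfl)).trans (pw_mono _ ?_)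
      have a2 := hinv p hp.out (by omega)
      have a3 : (0 : ℝ) < k + 1 - p := by linarith
      have a4 : (((n : ℝ) + 1) * (k + 1 - p)) ^ 2 / (k + 1 - p) = (n + 1) ^ 2 * (k + 1 - p) := by
        field_simp
      have a6 : ((n : ℝ) + 1) ^ 2 * k * (1 + (-1) * (p / k)) = (n + 1) ^ 2 * (k - p) := by
        field_simp
        ring
      rw [a4, a6, he]
      nlinarith
    · refine (regime_large k n b a m (by omega)).trans (pw_mono _ ?_)
      have a1 : (k : ℝ) + 1 ≤ p := by exact_mod_cast (by omega : k + 1 ≤ p)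
      have a2 : 1 / ((p : ℝ) - 1) ≤ (1 + 1 / k) * (1 / p) := by
        have : (1 + 1 / (k : ℝ)) * (1 / p) = (k + 1) / (k * p) := by field_simp
        rw [this, div_le_div_iff₀ (by linarith) (by positivity)]
        nlinarith
      have a3 : (m * (n + 1) - m * (m - 1) / (k + 1) + 2 * m : ℝ) ≤ W + (n + 1) ^ 2 + 2 * m := by
        have b1 : (m * (m - 1) / k - m * (m - 1) / (k + 1) : ℝ) = m * (m - 1) / (k * (k + 1)) := by
          field_simp
          ring
        have b2 : (m * (m - 1) / (k * (k + 1)) : ℝ) ≤ (n + 1) ^ 2 := by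
          rw [div_le_iff₀ (by positivity)]
          have b3 : (m : ℝ) ≤ (n + 1) * k := by linarith
          have b4 := mul_le_mul b3 b3 hm0 hNk
          nlinarith [mul_nonneg (sq_nonneg ((n : ℝ) + 1)) hkR.le]
        rw [hW]
        linarith
      rw [mul_assoc]
      exact (mul_le_mul_of_nonneg_right a3 (inv_pos' (p := p)).le).trans
        (mul_le_mul_of_nonneg_left a2 (by positivity))
  · have e0 : ∑ p ∈ n.primesLE, E p * Real.log p = PS E 0 n := by
      refine Finset.sum_congr ?_ fun _ _ => rfl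
      ext p
      simp only [Nat.mem_primesLE, mem_filter, mem_Ioc]
      exact ⟨fun h => ⟨⟨h.2.pos, h.1⟩, h.2⟩, fun h => ⟨h.1.2, h.2⟩⟩
    have cg : ∀ (g : ℕ → ℝ) (x y : ℕ), (∀ p, x < p → p ≤ y → E p = g p) → PS E x y = PS g x y :=
      fun g x y h => le_antisymm (PS_mono fun p _ h1 h2 => (h p h1 h2).le)
        (PS_mono fun p _ h1 h2 => (h p h1 h2).ge)
    rw [e0, PS_add E (Nat.zero_le k) hkn, PS_add E (Nat.zero_le k₃) h3,
      PS_add E (Nat.zero_le k₂) h23, PS_add E (Nat.zero_le (k / R)) h12]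
    congr 1
    congr 1
    congr 1
    congr 1
    · exact cg _ _ _ fun p _ h2 => by simp only [hE, if_pos h2]
    · exact cg _ _ _ fun p h1 h2 => by simp only [hE, if_neg (not_le.2 h1), if_pos h2]
    · exact cg _ _ _ fun p h1 h2 => by
        simp only [hE, if_neg (not_le.2 (h12.trans_lt h1)), if_neg (not_le.2 h1), if_pos h2]
    · exact cg _ _ _ fun p h1 h2 => by
        simp only [hE, if_neg (not_le.2 ((h12.trans h23).trans_lt h1)),
          if_neg (not_le.2 (h23.trans_lt h1)), if_neg (not_le.2 h1), if_pos h2]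
    · exact cg _ _ _ fun p h1 h2 => by
        simp only [hE, if_neg (not_le.2 (((h12.trans h23).trans h3).trans_lt h1)),
          if_neg (not_le.2 ((h23.trans h3).trans_lt h1)), if_neg (not_le.2 (h3.trans_lt h1)),
          if_neg (not_le.2 h1)]

theorem arith (ε : ℝ) (hε : 0 < ε) : ∀ᶠ k : ℕ in atTop, ∀ (n v m : ℕ) (b a : ℤ),
    n + 1 = 2 * v → k ≤ n → Real.log n ≤ k → (m : ℝ) ≤ 3 / 8 * ((n + 1) * k) →
    hankel (phi k n b a) m ≠ 0 →
    -Real.log |(hankel (phi k n b a) m : ℝ)|
      ≤ (m * ((n + 1) * k) - m * (m - 1))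
        * (Real.log k + Real.log n / k - Real.log 2 - Real.eulerMascheroniConstant)
        + ((n + 1) * k) ^ 2 * (59 / 448 + ε) := by
  set η := ε / 12 with hη
  have hη0 : 0 < η := by positivity
  obtain ⟨R, hR⟩ := exists_nat_gt (1 / η + 2)
  have hη1 : 0 < 1 / η := by positivity
  have hR2 : (2 : ℝ) < R := by linarith
  have hR0 : 0 < R := by exact_mod_cast (by linarith : (0 : ℝ) < R)
  have hRη : 1 / (R : ℝ) ≤ η := by
    rw [div_le_iff₀ (by linarith)]
    have : 1 / η ≤ R := by linarith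
    rw [div_le_iff₀ hη0] at this
    linarith
  have hR12 : 1 / (R : ℝ) < 1 / 2 := one_div_lt_one_div_of_lt (by norm_num) hR2
  have hlogk : ∀ᶠ k : ℕ in atTop, Real.log k + 1 + (2 * R + 16) * 3 + 40 ≤ η * k := by
    have h1 := Real.isLittleO_log_id_atTop.bound (c := η / 2) (by positivity)
    have h2 := (tendsto_id.const_mul_atTop (show 0 < η / 2 by positivity)).eventually_ge_atTop
      (1 + (2 * (R : ℝ) + 16) * 3 + 40)
    filter_upwards [tendsto_natCast_atTop_atTop.eventually (h1.and h2)] with k hk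
    have a1 := hk.1
    have a2 := hk.2
    simp only [id, Real.norm_eq_abs, Nat.abs_cast] at a1 a2
    linarith [le_abs_self (Real.log k)]
  filter_upwards [eventually_PS_floor R hR0 η hη0, eventually_PS_log R η hη0,
    tendsto_natCast_atTop_atTop.eventually (UB_inv (by positivity) hR12 η hη0),
    tendsto_natCast_atTop_atTop.eventually (UB_linear 0 (1 / 16) (by positivity) hR12 η hη0),
    tendsto_natCast_atTop_atTop.eventually (UB_linear (165 / 196) (-36 / 49) (a := 1 / 2)
      (b := 5 / 8) (by norm_num) (by norm_num) η hη0),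
    tendsto_natCast_atTop_atTop.eventually (UB_linear 1 (-1) (a := 5 / 8)
      (b := 1) (by norm_num) (by norm_num) η hη0),
    hlogk, eventually_ge_atTop (R ^ 2)] with k P1 P2 P3 P4 P5 P6 P7 hk
  intro n v m b a hv hkn hlog hm hne
  have hk0 : 0 < k := lt_of_lt_of_le (pow_pos hR0 2) hk
  have hkR : (0 : ℝ) < k := by exact_mod_cast hk0
  have hk1 : (1 : ℝ) ≤ k := by exact_mod_cast hk0
  have e1 : ⌊1 / (R : ℝ) * k⌋₊ = k / R := by rw [one_div, inv_mul_eq_div, Nat.floor_div_eq_div]
  have e2 : ⌊(1 : ℝ) * k⌋₊ = k := by simp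
  rw [e1] at P3 P4
  rw [e2] at P6
  set k₂ := ⌊1 / (2 : ℝ) * k⌋₊ with hk₂
  set k₃ := ⌊5 / (8 : ℝ) * k⌋₊ with hk₃
  have h12 : k / R ≤ k₂ := e1 ▸ Nat.floor_le_floor (mul_le_mul_of_nonneg_right hR12.le hkR.le)
  have h23 : k₂ ≤ k₃ := Nat.floor_le_floor (by linarith)
  have h3 : k₃ ≤ k := e2 ▸ Nat.floor_le_floor (by linarith)
  have h2 : k < 2 * (k₂ + 1) := by
    have := Nat.lt_floor_add_one (1 / (2 : ℝ) * k)
    rw [← hk₂] at this
    exact_mod_cast (by linarith : (k : ℝ) < 2 * (k₂ + 1))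
  have main := arith_split k n v m R k₂ k₃ b a hv hR0 hk hkn hm h12 h23 h3 h2
    (Nat.floor_le (by positivity)) _ _ rfl rfl hne
  set W : ℝ := m * (n + 1) - m * (m - 1) / k with hW
  set e : ℝ := m * (n + 1) * (R + 4) / k + (n + 1) ^ 2 + 3 * m with he
  set N : ℝ := n + 1 with hN
  have hm0 : (0 : ℝ) ≤ m := Nat.cast_nonneg m
  have hkN : (k : ℝ) ≤ N := by
    have : (k : ℝ) ≤ n := by exact_mod_cast hkn
    linarith
  have hN0 : 0 < N := by linarith
  set Z : ℝ := N ^ 2 * k with hZ
  have hZ0 : 0 < Z := by positivity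
  have hNk : 0 < N * k := mul_pos hN0 hkR
  have hmN : m * N ≤ Z := (mul_le_mul_of_nonneg_right (show (m : ℝ) ≤ N * k by linarith only [hm, hNk])
    hN0.le).trans (le_of_eq (by rw [hZ]; ring))
  have hmk : m * k ≤ Z := (mul_le_mul_of_nonneg_left hkN hm0).trans hmN
  have hW0 : 0 ≤ W := by
    rw [hW, sub_nonneg, div_le_iff₀ hkR, mul_assoc]
    exact mul_le_mul_of_nonneg_left (by linarith only [hm, hNk]) hm0
  have hWZ : W ≤ Z := by
    have : 0 ≤ (m : ℝ) * (m - 1) / k := by
      rcases Nat.eq_zero_or_pos m with h | h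
      · simp [h]
      · have : (1 : ℝ) ≤ m := by exact_mod_cast h
        exact div_nonneg (mul_nonneg hm0 (by linarith)) hkR.le
    linarith
  have he0 : 0 ≤ e := by positivity
  have hek : e * (2 * k) ≤ (2 * R + 16) * Z := by
    have : e * (2 * k) = 2 * (R + 4) * (m * N) + 2 * Z + 6 * (m * k) := by
      rw [he, hZ]
      field_simp
      ring
    rw [this]
    have := mul_le_mul_of_nonneg_left hmN (show (0 : ℝ) ≤ 2 * (R + 4) by positivity)
    linarith only [this, hmk]
  -- the five pieces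
  have Q1 : PS (fun p => W * padicValNat p k.factorial + m * (n + 3) * Nat.log p k) 0 (k / R)
      ≤ W * (k * Real.log k + Real.log k + 1
        - (Real.log R + Real.eulerMascheroniConstant - η) * k) + 6 * η * (Z * k) := by
    rw [PS_lin]
    have a1 := PS_add (fun p => (padicValNat p k.factorial : ℝ)) (Nat.zero_le (k / R))
      (Nat.div_le_self k R)
    rw [← log_factorial_eq] at a1
    have a2 : PS (fun p => ((k / p : ℕ) : ℝ)) (k / R) k
        ≤ PS (fun p => (padicValNat p k.factorial : ℝ)) (k / R) k :=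
      PS_mono fun p hp _ _ => by exact_mod_cast div_le_val p k hp
    have a3 := log_factorial_le k hk0
    refine add_le_add (mul_le_mul_of_nonneg_left (by linarith only [a1, a2, a3, P1]) hW0) ?_
    have a4 : (m : ℝ) * (n + 3) ≤ 3 * Z := by
      have b1 := mul_le_mul_of_nonneg_left hk1 hm0
      have b2 : (m : ℝ) * (n + 3) = m * N + 2 * m := by rw [hN]; ring
      linarith only [b1, b2, hmN, hmk]
    have a5 : (1 / R + η) * k ≤ 2 * η * k :=
      mul_le_mul_of_nonneg_right (by linarith only [hRη]) hkR.le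
    calc _ ≤ (m : ℝ) * (n + 3) * (2 * η * k) :=
          mul_le_mul_of_nonneg_left (P2.trans a5) (by positivity)
      _ ≤ 3 * Z * (2 * η * k) := mul_le_mul_of_nonneg_right a4 (by positivity)
      _ = _ := by ring
  have Q2 : PS (fun p => W * ((p : ℝ) / k)⁻¹ + Z * (0 + 1 / 16 * (p / k)) + e) (k / R) k₂
      ≤ W * ((Real.log R - Real.log 2 + η) * k) + Z * ((1 / 128 + η) * k) + (2 * R + 16) * Z := by
    refine (PS_lin3 _ _ _ _ _ _ _ k (h23.trans h3) he0).trans
      (add_le_add (add_le_add (mul_le_mul_of_nonneg_left (P3.trans (le_of_eq ?_)) hW0)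
        (mul_le_mul_of_nonneg_left (P4.trans ?_) hZ0.le)) hek)
    · simp only [one_div, Real.log_inv]
      ring
    · refine mul_le_mul_of_nonneg_right ?_ hkR.le
      linarith only [sq_nonneg (1 / (R : ℝ))]
  have Q3 : PS (fun p => Z * (165 / 196 + (-36 / 49) * (p / k)) + e) k₂ k₃
      ≤ Z * ((3 / 56 + η) * k) + (2 * R + 16) * Z := by
    have := PS_lin3 (fun p => 165 / 196 + (-36 / 49) * ((p : ℝ) / k)) (fun _ => 0) Z 0 e k₂ k₃ k
      h3 he0
    simp only [zero_mul, add_zero] at this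
    refine this.trans (add_le_add (mul_le_mul_of_nonneg_left (P5.trans (le_of_eq ?_)) hZ0.le) hek)
    norm_num
  have Q4 : PS (fun p => Z * (1 + (-1) * (p / k)) + e) k₃ k
      ≤ Z * ((9 / 128 + η) * k) + (2 * R + 16) * Z := by
    have := PS_lin3 (fun p => 1 + (-1) * ((p : ℝ) / k)) (fun _ => 0) Z 0 e k₃ k k le_rfl he0
    simp only [zero_mul, add_zero] at this
    refine this.trans (add_le_add (mul_le_mul_of_nonneg_left (P6.trans (le_of_eq ?_)) hZ0.le) hek)
    norm_num
  have Q5 : PS (fun p => (W + N ^ 2 + 2 * m) * (1 + 1 / k) * (1 / p)) k n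
      ≤ W * Real.log n + 40 * Z := by
    have a1 := PS_lin (fun p => 1 / (p : ℝ)) (fun _ => 0) ((W + N ^ 2 + 2 * m) * (1 + 1 / k)) 0 k n
    simp only [zero_mul, add_zero] at a1
    rw [a1]
    have a2 := PS_inv_le k n (by omega)
    refine (mul_le_mul_of_nonneg_left a2 (by positivity)).trans ?_
    have a3 : 1 / (k : ℝ) ≤ 1 := by rw [div_le_one hkR]; exact hk1
    have a4 : 1 / (k : ℝ) * Real.log n ≤ 1 := by
      rw [one_div, inv_mul_eq_div, div_le_one hkR]; exact hlog
    have a5 : 0 ≤ Real.log n := Real.log_natCast_nonneg n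
    have a6 : (1 + 1 / (k : ℝ)) * (Real.log n + 2) ≤ Real.log n + 5 := by
      linarith only [a3, a4]
    have a7 : (N ^ 2 + 2 * m) * (Real.log n + 5) ≤ (N ^ 2 + 2 * m) * (6 * k) :=
      mul_le_mul_of_nonneg_left (by linarith) (by positivity)
    calc _ = (W + N ^ 2 + 2 * m) * ((1 + 1 / k) * (Real.log n + 2)) := by ring
      _ ≤ (W + N ^ 2 + 2 * m) * (Real.log n + 5) := mul_le_mul_of_nonneg_left a6 (by positivity)
      _ ≤ _ := by linarith only [a7, hWZ, hmk, hZ, hZ0]
  have f1 : (m * (N * k) - m * (m - 1) : ℝ) = W * k := by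
    rw [hW]
    field_simp
  have f2 : (N * k) ^ 2 = Z * k := by rw [hZ]; ring
  have f3 : W * k * (Real.log k + Real.log n / k - Real.log 2 - Real.eulerMascheroniConstant)
      = W * (k * Real.log k) + W * Real.log n
        - W * k * (Real.log 2 + Real.eulerMascheroniConstant) := by
    field_simp
    ring
  rw [f1, f2, f3]
  have g1 : W * (Real.log k + 1) ≤ Z * (Real.log k + 1) :=
    mul_le_mul_of_nonneg_right hWZ (by linarith [Real.log_natCast_nonneg k])
  have g2 : W * (η * k) ≤ Z * (η * k) := mul_le_mul_of_nonneg_right hWZ (by positivity)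
  have g3 := mul_le_mul_of_nonneg_left P7 hZ0.le
  have g4 : ε = 12 * η := by rw [hη]; ring
  rw [g4]
  linarith only [main, Q1, Q2, Q3, Q4, Q5, g1, g2, g3]

end Pool.Agent.Lib.MP_5fa244_nt
end
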