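import Pool.Agent.Lib.MP_5fa244_nt.Contour
import Pool.Agent.Lib.MP_5fa244_nt.Arith


/-! Estimates of the integrand on the circles. -/

namespace Pool.Agent.Lib.MP_5fa244_nt

open Finset Complex Metric

lemma log_le_of (r q : ℝ) (hr : 0 < r) (hq : 0 ≤ q)
    (h : r ≤ ∑ i ∈ range 12, q ^ i / i.factorial) : Real.log r ≤ q := by
  rw [Real.log_le_iff_le_exp hr]
  exact h.trans (Real.sum_le_exp_of_nonneg hq _)

lemma log_14 : Real.log (7 / 5) ≤ 0.33648 :=
  log_le_of _ _ (by norm_num) (by norm_num) (by simp [Finset.sum_range_succ, Nat.factorial]; norm_num)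

lemma log_2576 : Real.log (322 / 125) ≤ 0.94624 :=
  log_le_of _ _ (by norm_num) (by norm_num) (by simp [Finset.sum_range_succ, Nat.factorial]; norm_num)

lemma log_336 : Real.log (84 / 25) ≤ 1.21195 :=
  log_le_of _ _ (by norm_num) (by norm_num) (by simp [Finset.sum_range_succ, Nat.factorial]; norm_num)

lemma log_42 : Real.log (21 / 5) ≤ 1.43509 :=
  log_le_of _ _ (by norm_num) (by norm_num) (by simp [Finset.sum_range_succ, Nat.factorial]; norm_num)

lemma log_25 : 0.91629 ≤ Real.log (5 / 2) := by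
  rw [Real.le_log_iff_exp_le (by norm_num)]
  refine (Real.exp_bound' (by norm_num) (by norm_num) (n := 10) (by norm_num)).trans ?_
  simp [Finset.sum_range_succ, Nat.factorial]
  norm_num

lemma gamma_ge : 0.5762 ≤ Real.eulerMascheroniConstant := by
  have h1 := Real.eulerMascheroniSeq_lt_eulerMascheroniConstant 511
  have h2 : (136291 / 20000 : ℚ) ≤ harmonic 511 := by decide +kernel
  have h3 := (Rat.cast_le (K := ℝ)).2 h2
  rw [Rat.cast_div, Rat.cast_ofNat, Rat.cast_ofNat] at h3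
  have h4 : Real.log ((511 : ℕ) + 1) = 9 * Real.log 2 := by
    rw [show ((511 : ℕ) + 1 : ℝ) = 2 ^ 9 by norm_num, Real.log_pow]
    norm_num
  rw [Real.eulerMascheroniSeq, h4] at h1
  linarith [Real.log_two_lt_d9]

lemma log_tangent {Y η : ℝ} (hY : 0 < Y) (hη : 0 < η) :
    Real.log Y ≤ Real.log η + (Y - η) / η := by
  have h := Real.log_le_sub_one_of_pos (div_pos hY hη)
  rw [Real.log_div hY.ne' hη.ne'] at h
  have : (Y - η) / η = Y / η - 1 := by field_simp
  linarith

lemma log_one_add_exp (γ : ℝ) : Real.log (1 + Real.exp γ) ≤ Real.log 2 + γ / 2 + γ ^ 2 / 8 := by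
  have h1 := Real.cosh_le_exp_half_sq (γ / 2)
  have h2 : 1 + Real.exp γ = 2 * Real.exp (γ / 2) * Real.cosh (γ / 2) := by
    rw [Real.cosh_eq]
    have a1 : Real.exp (γ / 2) * Real.exp (γ / 2) = Real.exp γ := by
      rw [← Real.exp_add]; ring_nf
    have a2 : Real.exp (γ / 2) * Real.exp (-(γ / 2)) = 1 := by rw [← Real.exp_add]; simp
    linear_combination -a1 - a2
  rw [Real.log_le_iff_le_exp (by positivity), h2, Real.exp_add, Real.exp_add,
    Real.exp_log two_pos, show γ ^ 2 / 8 = (γ / 2) ^ 2 / 2 by ring]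
  exact mul_le_mul_of_nonneg_left h1 (by positivity)

/-- The piecewise linear majorant. -/
noncomputable def Mj (y : ℝ) : ℝ := -0.386 + 1.3276 * y + 0.4713 * max (1 / 8 - y) 0
  + 0.41291 * max (0.23 - y) 0 + 0.2426 * max (0.3 - y) 0

lemma chord (α β y : ℝ) (h0 : α ≤ -0.15934) (h1 : α + β * (1 / 8) ≤ -0.13424)
    (h2 : α + β * 0.23 ≤ -0.06367) (h3 : α + β * 0.3 ≤ 0.01228)
    (h4 : α + β * (3 / 8) ≤ 0.11185) (hy0 : 0 ≤ y) (hy : y ≤ 3 / 8) : α + β * y ≤ Mj y := by
  unfold Mj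
  rcases le_total y (1 / 8) with a1 | a1
  · rw [max_eq_left (by linarith), max_eq_left (by linarith), max_eq_left (by linarith)]
    nlinarith [mul_nonneg (sub_nonneg.2 a1) (sub_nonneg.2 h0), mul_nonneg hy0 (sub_nonneg.2 h1)]
  rcases le_total y 0.23 with a2 | a2
  · rw [max_eq_right (by linarith), max_eq_left (by linarith), max_eq_left (by linarith)]
    nlinarith [mul_nonneg (sub_nonneg.2 a2) (sub_nonneg.2 h1),
      mul_nonneg (sub_nonneg.2 a1) (sub_nonneg.2 h2)]
  rcases le_total y 0.3 with a3 | a3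
  · rw [max_eq_right (by linarith), max_eq_right (by linarith), max_eq_left (by linarith)]
    nlinarith [mul_nonneg (sub_nonneg.2 a3) (sub_nonneg.2 h2),
      mul_nonneg (sub_nonneg.2 a2) (sub_nonneg.2 h3)]
  · rw [max_eq_right (by linarith), max_eq_right (by linarith), max_eq_right (by linarith)]
    nlinarith [mul_nonneg (sub_nonneg.2 hy) (sub_nonneg.2 h3),
      mul_nonneg (sub_nonneg.2 a3) (sub_nonneg.2 h4)]

lemma sum_sq_center (c : ℝ) (m : ℕ) : ∑ x ∈ range m, ((x : ℝ) - c) ^ 2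
    = m * (m - 1) * (2 * m - 1) / 6 - c * (m * (m - 1)) + m * c ^ 2 := by
  induction m with
  | zero => simp
  | succ m ih =>
    rw [Finset.sum_range_succ, ih]
    push_cast
    ring

lemma sum_log_big (k : ℕ) (hk : 1 ≤ k) (s : ℂ) (hs : ‖s - k / 2‖ = 5 / 2 * k) :
    (k + 1) * (Real.log (5 / 2 * k) - (k + 2) / (144 * k))
      ≤ ∑ x ∈ range (k + 1), Real.log ‖s - x‖ := by
  have hk0 : (0 : ℝ) < k := by exact_mod_cast hk
  have h1 : ∀ x ∈ range (k + 1), 2 * Real.log (5 / 2 * k) - ((x : ℝ) - k / 2) ^ 2 / (6 * k ^ 2)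
      ≤ Real.log ‖s - x‖ + Real.log ‖s - ((k + 1 - 1 - x : ℕ) : ℂ)‖ := by
    intro x hx
    have hx' : x ≤ k := Nat.lt_succ_iff.1 (Finset.mem_range.1 hx)
    have hxR : (x : ℝ) ≤ k := by exact_mod_cast hx'
    have hx0 : (0 : ℝ) ≤ x := Nat.cast_nonneg x
    set d : ℝ := x - k / 2 with hd
    have hd2 : d ^ 2 ≤ k ^ 2 / 4 := by nlinarith
    have e1 : (s - x) * (s - ((k + 1 - 1 - x : ℕ) : ℂ)) = (s - k / 2) ^ 2 - (d : ℂ) ^ 2 := by
      rw [Nat.add_sub_cancel, Nat.cast_sub hx', hd]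
      push_cast
      ring
    have e2 : (5 / 2 * k) ^ 2 - d ^ 2 ≤ ‖s - x‖ * ‖s - ((k + 1 - 1 - x : ℕ) : ℂ)‖ := by
      rw [← norm_mul, e1]
      refine le_trans (le_of_eq ?_) (norm_sub_norm_le _ _)
      rw [norm_pow, norm_pow, hs, Complex.norm_real, Real.norm_eq_abs, sq_abs]
    have e3 : 0 < (5 / 2 * k : ℝ) ^ 2 - d ^ 2 := by nlinarith
    have e4 := lt_of_lt_of_le e3 e2
    rw [← Real.log_mul (left_ne_zero_of_mul e4.ne') (right_ne_zero_of_mul e4.ne')]
    refine le_trans ?_ (Real.log_le_log e3 e2)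
    have e5 := log_tangent (Y := (5 / 2 * k) ^ 2) (by positivity) e3
    rw [Real.log_pow, sub_sub_cancel] at e5
    have e6 : d ^ 2 / ((5 / 2 * k) ^ 2 - d ^ 2) ≤ d ^ 2 / (6 * k ^ 2) :=
      div_le_div_of_nonneg_left (sq_nonneg _) (by positivity) (by nlinarith)
    push_cast at e5
    linarith
  have h2 := Finset.sum_le_sum h1
  rw [Finset.sum_add_distrib, Finset.sum_range_reflect (fun x : ℕ => Real.log ‖s - x‖),
    Finset.sum_sub_distrib, ← Finset.sum_div, sum_sq_center, Finset.sum_const, card_range,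
    nsmul_eq_mul] at h2
  push_cast at h2
  have h3 : (((k : ℝ) + 1) * (k + 1 - 1) * (2 * (k + 1) - 1) / 6 - k / 2 * ((k + 1) * (k + 1 - 1))
      + (k + 1) * (k / 2) ^ 2) / (6 * k ^ 2) = 2 * ((k + 1) * ((k + 2) / (144 * k))) := by
    field_simp
    ring
  rw [h3] at h2
  linarith

lemma sum_log_half (j : ℕ) : Real.log j.factorial - Real.log (2 * j + 1)
    ≤ ∑ d ∈ range j, Real.log (((d + 1 : ℕ) : ℝ) - 1 / 2) := by
  induction j with
  | zero => simp
  | succ j ih =>
    rw [Finset.sum_range_succ, Nat.factorial_succ]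
    push_cast at ih ⊢
    have h0 : (0 : ℝ) ≤ j := Nat.cast_nonneg j
    rw [Real.log_mul (by positivity) (by positivity)]
    have h1 : Real.log ((j + 1) * (2 * j + 1)) ≤ Real.log ((j + 1 - 1 / 2) * (2 * (j + 1) + 1)) :=
      Real.log_le_log (by positivity) (by nlinarith)
    rw [Real.log_mul (by positivity) (by positivity),
      Real.log_mul (by linarith) (by positivity)] at h1
    linarith

lemma log_choose_le (k j : ℕ) (hj : j ≤ k) (γ : ℝ) :
    Real.log (k.choose j) ≤ k * Real.log (1 + Real.exp γ) - γ * j := by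
  have h1 : Real.exp γ ^ j * k.choose j ≤ (Real.exp γ + 1) ^ k := by
    rw [add_pow]
    have := Finset.single_le_sum (f := fun m => Real.exp γ ^ m * 1 ^ (k - m) * (k.choose m : ℝ))
      (s := range (k + 1)) (fun _ _ => by positivity) (Finset.mem_range.2 (Nat.lt_succ_of_le hj))
    simpa using this
  have h2 : (0 : ℝ) < k.choose j := by exact_mod_cast Nat.choose_pos hj
  have h3 := Real.log_le_log (by positivity) h1
  rw [Real.log_mul (by positivity) h2.ne', Real.log_pow, Real.log_pow, Real.log_exp,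
    add_comm (Real.exp γ)] at h3
  linarith

lemma sum_log_small (k j : ℕ) (hj : j ≤ k) (s : ℂ) (hs : ‖s - j‖ = 1 / 2) (γ : ℝ) :
    k * Real.log k - k - k * Real.log (1 + Real.exp γ) + γ * j - 2 * Real.log (2 * k + 1) - 1
      ≤ ∑ x ∈ range (k + 1), Real.log ‖s - x‖ := by
  rw [← Finset.add_sum_erase _ _ (Finset.mem_range.2 (Nat.lt_succ_of_le hj)), hs]
  have h1 : ∑ x ∈ (range (k + 1)).erase j, Real.log ((Int.natAbs ((j : ℤ) - x) : ℝ) - 1 / 2)
      ≤ ∑ x ∈ (range (k + 1)).erase j, Real.log ‖s - x‖ := by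
    refine Finset.sum_le_sum fun x hx => ?_
    have a1 : ((Int.natAbs ((j : ℤ) - x) : ℕ) : ℝ) = ‖(j : ℂ) - x‖ := by
      rw [← Complex.ofReal_natCast j, ← Complex.ofReal_natCast x, ← Complex.ofReal_sub,
        Complex.norm_real, Real.norm_eq_abs, Nat.cast_natAbs]
      push_cast
      rfl
    have a2 := half_le_dist (Finset.ne_of_mem_erase hx).symm
    rw [dist_eq_norm] at a2
    rw [a1]
    refine Real.log_le_log (by linarith) ?_
    have a3 := norm_sub_le_norm_sub_add_norm_sub (j : ℂ) s x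
    rw [norm_sub_rev (j : ℂ) s, hs] at a3
    linarith
  rw [sum_erase_dist (fun d : ℕ => Real.log ((d : ℝ) - 1 / 2)) k j hj] at h1
  have h2 := sum_log_half j
  have h3 := sum_log_half (k - j)
  have h4 := log_choose_le k j hj γ
  have h5 := le_log_factorial k
  have h6 : Real.log k.factorial
      = Real.log (k.choose j) + Real.log j.factorial + Real.log (k - j).factorial := by
    rw [← Nat.choose_mul_factorial_mul_factorial hj]
    have : (0 : ℝ) < k.choose j := by exact_mod_cast Nat.choose_pos hj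
    push_cast
    rw [Real.log_mul (by positivity) (by positivity), Real.log_mul this.ne' (by positivity)]
  have h7 : Real.log (2 * j + 1) ≤ Real.log (2 * k + 1) :=
    Real.log_le_log (by positivity) (by have : (j : ℝ) ≤ k := by exact_mod_cast hj
                                        linarith)
  have h8 : Real.log (2 * (k - j : ℕ) + 1) ≤ Real.log (2 * k + 1) :=
    Real.log_le_log (by positivity) (by
      have : ((k - j : ℕ) : ℝ) ≤ k := by exact_mod_cast Nat.sub_le k j
      linarith)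
  have h9 : -1 ≤ Real.log (1 / 2) := by
    rw [one_div, Real.log_inv]
    linarith [Real.log_two_lt_d9]
  linarith

/-- The uniform error term. -/
noncomputable def ek (k : ℕ) : ℝ := (3 * Real.log (2 * k + 1) + 3) / k

lemma gg_eq (k n : ℕ) (hk : 1 ≤ k) (b s₀ v : ℝ) (s : ℂ) :
    gg k n b s₀ v s = (2 * v - (n + 1) * (k + 1)) * Real.log k + ((n + 1) * k)
      * ((b * s.re / (n + 1) - ∑ x ∈ range (k + 1), Real.log ‖s - x‖ + (k + 1) * Real.log k) / k
        + 2 * (Real.log ‖s - s₀‖ - Real.log k) * (v / ((n + 1) * k))) := by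
  have hk0 : (0 : ℝ) < k := by exact_mod_cast hk
  unfold gg
  field_simp
  ring

theorem est_big (k n : ℕ) (hk : 1 ≤ k) (b : ℝ) (hb : (n : ℝ) + 1 = 4 * b) (v : ℝ) (hv0 : 0 ≤ v)
    (hv : v ≤ 3 / 8 * ((n + 1) * k)) (s : ℂ) (hs : s ∈ sphere ((k : ℂ) / 2) (5 / 2 * k)) :
    gg k n b (19 / 10 * k) v s ≤ (2 * v - (n + 1) * (k + 1)) * Real.log k
      + ((n + 1) * k) * (Mj (v / ((n + 1) * k)) + ek k) := by
  have hk0 : (0 : ℝ) < k := by exact_mod_cast hk
  have hk1 : (1 : ℝ) ≤ k := by exact_mod_cast hk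
  have hN : (0 : ℝ) < n + 1 := by positivity
  rw [mem_sphere, dist_eq_norm] at hs
  rw [gg_eq k n hk]
  refine add_le_add le_rfl (mul_le_mul_of_nonneg_left ?_ (by positivity))
  set u : ℝ := (s.re - k / 2) / k with hu
  have hu1 : |u| ≤ 5 / 2 := by
    rw [hu, abs_div, abs_of_pos hk0, div_le_iff₀ hk0, ← hs]
    have := Complex.abs_re_le_norm (s - k / 2)
    simpa using this
  have hu2 := abs_le.1 hu1
  have hY : ‖s - ((19 / 10 * k : ℝ) : ℂ)‖ ^ 2 = k ^ 2 * (8.21 - 2.8 * u) := by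
    have a1 : ‖s - k / 2‖ ^ 2 = (5 / 2 * k) ^ 2 := by rw [hs]
    rw [Complex.sq_norm, Complex.normSq_apply] at a1 ⊢
    simp only [sub_re, sub_im, ofReal_re, ofReal_im, div_ofNat_re, div_ofNat_im, natCast_re,
      natCast_im] at a1 ⊢
    rw [hu]
    field_simp
    nlinarith
  have hβ : ∀ η : ℝ, 0 < η → 2 * (Real.log ‖s - ((19 / 10 * k : ℝ) : ℂ)‖ - Real.log k)
      ≤ Real.log η + (8.21 - 2.8 * u - η) / η := by
    intro η hη
    have a1 := congrArg Real.log hY
    rw [Real.log_pow, Real.log_mul (by positivity) (by linarith), Real.log_pow] at a1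
    have a2 := log_tangent (Y := 8.21 - 2.8 * u) (by linarith) hη
    simp only [Nat.cast_ofNat] at a1
    linarith
  have hα : (b * s.re / (n + 1) - ∑ x ∈ range (k + 1), Real.log ‖s - x‖
      + (k + 1) * Real.log k) / k - ek k ≤ 1 / 8 + u / 4 - 0.91629 + 1 / 144 := by
    have a1 := sum_log_big k hk s hs
    rw [Real.log_mul (by norm_num) hk0.ne'] at a1
    have a2 : b * s.re / (n + 1) = k * (1 / 8 + u / 4) := by
      have : b ≠ 0 := by intro h; rw [h] at hb; linarith
      rw [hb, hu]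
      field_simp
      ring
    have a3 : ((k : ℝ) + 2) / (144 * k) ≤ 3 / 144 := by
      rw [div_le_div_iff₀ (by positivity) (by norm_num)]
      linarith
    have a4 : (k : ℝ) * ((k + 2) / (144 * k)) = (k + 2) / 144 := by field_simp
    have a5 := log_25
    have a6 := mul_le_mul_of_nonneg_left a5 hk0.le
    have a7 : 0 ≤ Real.log (2 * k + 1) := Real.log_nonneg (by linarith)
    rw [ek, ← sub_div, div_le_iff₀ hk0, a2]
    linarith
  have hy0 : 0 ≤ v / ((n + 1) * k) := by positivity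
  have hy : v / ((n + 1) * k) ≤ 3 / 8 := by rwa [div_le_iff₀ (by positivity)]
  have := chord _ (2 * (Real.log ‖s - ((19 / 10 * k : ℝ) : ℂ)‖ - Real.log k)) _
    (hα.trans (by linarith))
    (by linarith [hβ (7 / 5) (by norm_num), log_14])
    (by linarith [hβ (322 / 125) (by norm_num), log_2576])
    (by linarith [hβ (84 / 25) (by norm_num), log_336])
    (by linarith [hβ (21 / 5) (by norm_num), log_42]) hy0 hy
  linarith

theorem est_small (k n : ℕ) (hk : 1 ≤ k) (b : ℝ) (hb : (n : ℝ) + 1 = 4 * b) (v : ℝ) (hv0 : 0 ≤ v)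
    (hv : v ≤ 3 / 8 * ((n + 1) * k)) (L : ℝ) (hL : L ≤ -(163 / 80) * ((n + 1) * k))
    (j : ℕ) (hj : j ≤ k) (s : ℂ) (hs : s ∈ sphere (j : ℂ) (1 / 2)) :
    L + gg k n b (19 / 10 * k) v s ≤ (2 * v - (n + 1) * (k + 1)) * Real.log k
      + ((n + 1) * k) * (Mj (v / ((n + 1) * k)) + ek k) := by
  have hk0 : (0 : ℝ) < k := by exact_mod_cast hk
  have hk1 : (1 : ℝ) ≤ k := by exact_mod_cast hk
  have hjk : (j : ℝ) ≤ k := by exact_mod_cast hj
  have hN : (0 : ℝ) < n + 1 := by positivity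
  rw [mem_sphere, dist_eq_norm] at hs
  rw [gg_eq k n hk]
  set t : ℝ := j / k with ht
  have hβ : 2 * (Real.log ‖s - ((19 / 10 * k : ℝ) : ℂ)‖ - Real.log k)
      ≤ 2 * (0.33648 + (1 / 2 - t) * (5 / 7)) + 1 / k := by
    have a0 : ‖(j : ℂ) - ((19 / 10 * k : ℝ) : ℂ)‖ = 19 / 10 * k - j := by
      rw [← Complex.ofReal_natCast j, ← Complex.ofReal_sub, Complex.norm_real, Real.norm_eq_abs,
        abs_of_nonpos (by linarith)]
      ring
    have a1 := norm_sub_le_norm_sub_add_norm_sub s j ((19 / 10 * k : ℝ) : ℂ)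
    have a2 := norm_sub_le_norm_sub_add_norm_sub (j : ℂ) s ((19 / 10 * k : ℝ) : ℂ)
    rw [norm_sub_rev (j : ℂ) s] at a2
    rw [hs, a0] at a1 a2
    have a3 : 0 < ‖s - ((19 / 10 * k : ℝ) : ℂ)‖ := by linarith
    rw [← Real.log_div a3.ne' hk0.ne']
    have a4 := log_tangent (div_pos a3 hk0) (η := 7 / 5) (by norm_num)
    have a5 : ‖s - ((19 / 10 * k : ℝ) : ℂ)‖ / k ≤ 1 / 2 * (1 / k) + 19 / 10 - t := by
      rw [div_le_iff₀ hk0, ht]
      refine a1.trans (le_of_eq ?_)
      field_simp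
      ring
    have a6 : 0 < 1 / (k : ℝ) := by positivity
    linarith [log_14]
  have hα : ∀ γ : ℝ, (b * s.re / (n + 1) - ∑ x ∈ range (k + 1), Real.log ‖s - x‖
      + (k + 1) * Real.log k) / k - ek k + 1 / k
      ≤ t / 4 + 1 + (0.6931471808 + γ / 2 + γ ^ 2 / 8) - γ * t := by
    intro γ
    have a1 := sum_log_small k j hj s hs γ
    have a2 : b * s.re / (n + 1) = s.re / 4 := by
      have : b ≠ 0 := by intro h; rw [h] at hb; linarith
      rw [hb]
      field_simp
    have a3 : s.re ≤ j + 1 / 2 := by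
      have := Complex.re_le_norm (s - j)
      rw [hs] at this
      simp only [sub_re, natCast_re] at this
      linarith
    have a4 := mul_le_mul_of_nonneg_left ((log_one_add_exp γ).trans
      (show _ ≤ 0.6931471808 + γ / 2 + γ ^ 2 / 8 by linarith [Real.log_two_lt_d9])) hk0.le
    have a5 : Real.log k ≤ Real.log (2 * k + 1) := Real.log_le_log hk0 (by linarith)
    have a6 : t * k = j := by rw [ht]; field_simp
    rw [ek, ← sub_div, ← add_div, div_le_iff₀ hk0, a2]
    have a7 : γ * t * k = γ * j := by rw [mul_assoc, a6]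
    linarith
  have hy0 : 0 ≤ v / ((n + 1) * k) := by positivity
  have hy : v / ((n + 1) * k) ≤ 3 / 8 := by rwa [div_le_iff₀ (by positivity)]
  have a6 : 0 < 1 / (k : ℝ) := by positivity
  have := chord ((b * s.re / (n + 1) - ∑ x ∈ range (k + 1), Real.log ‖s - x‖
      + (k + 1) * Real.log k) / k - ek k - 163 / 80)
    (2 * (Real.log ‖s - ((19 / 10 * k : ℝ) : ℂ)‖ - Real.log k)) _
    (by linarith [hα (1 / 4)])
    (by linarith [hα (1 / 4 - 10 / 7 * (1 / 8))])
    (by linarith [hα (1 / 4 - 10 / 7 * 0.23)])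
    (by linarith [hα (1 / 4 - 10 / 7 * 0.3)])
    (by linarith [hα (1 / 4 - 10 / 7 * (3 / 8))]) hy0 hy
  have h2 := mul_le_mul_of_nonneg_left this (show (0 : ℝ) ≤ (n + 1) * k by positivity)
  linarith

lemma sum_Mj (K : ℝ) (hK : 0 < K) (m : ℕ) : ∑ i ∈ range m, K * Mj (i / K)
    ≤ -0.386 * (K * m) + 0.6638 * m ^ 2 + 0.025521 * K ^ 2 + m := by
  have h1 : ∀ i : ℕ, K * Mj (i / K) = -0.386 * K + 1.3276 * i + 0.4713 * max (1 / 8 * K - i) 0
      + 0.41291 * max (0.23 * K - i) 0 + 0.2426 * max (0.3 * K - i) 0 := by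
    intro i
    have : ∀ c : ℝ, max (c * K - i) 0 = K * max (c - i / K) 0 := fun c => by
      rw [mul_max_of_nonneg _ _ hK.le, mul_zero]
      congr 1
      field_simp
    rw [this, this, this, Mj]
    field_simp
  simp only [h1, Finset.sum_add_distrib, ← Finset.mul_sum, sum_range_cast, Finset.sum_const,
    card_range, nsmul_eq_mul]
  have a1 := sum_pos_part_le (1 / 8 * K) _ m (by positivity) le_rfl (Or.inr rfl)
  have a2 := sum_pos_part_le (0.23 * K) _ m (by positivity) le_rfl (Or.inr rfl)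
  have a3 := sum_pos_part_le (0.3 * K) _ m (by positivity) le_rfl (Or.inr rfl)
  have a4 : (0 : ℝ) ≤ m := Nat.cast_nonneg m
  nlinarith [sq_nonneg K]

end Pool.Agent.Lib.MP_5fa244_nt
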