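import Pool.Agent.Lib.MP_5fa244_nt.Circles
import Pool.Agent.Lib.MP_5fa244_nt.Arith

/-! The lower bound for the distance from `exp b` to the integers. -/

namespace Pool.Agent.Lib.MP_5fa244_nt

open Finset Filter Topology Metric

lemma pow_close (a b δ : ℝ) (k : ℕ) (hδ : δ ≤ 1) (h : |a - Real.exp b| ≤ δ) (hk : 2 * k ≤ b)
    (j : ℕ) (hj : j ≤ k) : |a ^ j - Real.exp (b * j)| ≤ δ * Real.exp (b * j) := by
  have hδ0 : 0 ≤ δ := (abs_nonneg _).trans h
  have hjk : (j : ℝ) ≤ k := by exact_mod_cast hj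
  have hj0 : (0 : ℝ) ≤ j := Nat.cast_nonneg j
  have he : 1 ≤ Real.exp b := Real.one_le_exp (by linarith)
  rw [mul_comm b, Real.exp_nat_mul]
  rcases j with _ | j
  · simpa using hδ0
  refine (abs_pow_sub_pow_le _ _ _).trans ?_
  have h1 : max |a| |Real.exp b| ≤ 2 * Real.exp b := by
    have := abs_le.1 h
    refine max_le (abs_le.2 ⟨by linarith, by linarith⟩) ?_
    rw [abs_of_pos (by linarith)]
    linarith
  have h2 : ((j + 1 : ℕ) : ℝ) * 2 ^ j ≤ Real.exp b := by
    have a1 : ((j + 1 : ℕ) : ℝ) ≤ Real.exp (j + 1 : ℕ) := by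
      linarith [Real.add_one_le_exp ((j + 1 : ℕ) : ℝ)]
    have a2 : (2 : ℝ) ^ j ≤ Real.exp (j + 1 : ℕ) := by
      rw [← Real.exp_one_pow]
      refine (pow_le_pow_right₀ one_le_two (Nat.le_succ j)).trans ?_
      exact pow_le_pow_left₀ zero_le_two (by linarith [Real.add_one_le_exp 1]) _
    refine (mul_le_mul a1 a2 (by positivity) (by positivity)).trans ?_
    rw [← Real.exp_add]
    exact Real.exp_le_exp.2 (by linarith)
  rw [Nat.add_sub_cancel, mul_assoc]
  refine mul_le_mul h ?_ (by positivity) hδ0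
  calc _ ≤ ((j + 1 : ℕ) : ℝ) * (2 * Real.exp b) ^ j := by gcongr
    _ = ((j + 1 : ℕ) : ℝ) * 2 ^ j * Real.exp b ^ j := by rw [mul_pow, mul_assoc]
    _ ≤ Real.exp b * Real.exp b ^ j := by gcongr
    _ = _ := by rw [pow_succ']

lemma arch (k n b m : ℕ) (a : ℤ) (hk : 1 ≤ k) (hb : n + 1 = 4 * b) (hkb : 2 * k ≤ b)
    (hm : (m : ℝ) ≤ 3 / 8 * ((n + 1) * k)) (L : ℝ) (hL : L ≤ -(163 / 80) * ((n + 1) * k))
    (h : |(a : ℝ) - Real.exp b| ≤ Real.exp L) (hne : hankel (phi k n (b : ℤ) a) m ≠ 0) :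
    Real.log |(hankel (phi k n (b : ℤ) a) m : ℝ)|
      ≤ 2 * m * Real.log ((n + 1) * k) + (m * (m - 1) - m * ((n + 1) * (k + 1))) * Real.log k
        + (-0.386 * ((n + 1) * k * m) + 0.6638 * m ^ 2 + 0.025521 * ((n + 1) * k) ^ 2 + m)
        + m * ((n + 1) * k) * ek k := by
  have hk0 : (0 : ℝ) < k := by exact_mod_cast hk
  have hk1 : (1 : ℝ) ≤ k := by exact_mod_cast hk
  have hbR : (n : ℝ) + 1 = 4 * b := by exact_mod_cast hb
  have hkbR : 2 * (k : ℝ) ≤ b := by exact_mod_cast hkb
  set K : ℝ := (n + 1) * k with hK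
  have hK8 : 8 * (k : ℝ) ≤ K := mul_le_mul_of_nonneg_right (by linarith) hk0.le
  have hK0 : 0 < K := by linarith
  have hs : (((19 / 10 * k : ℚ) : ℝ)) = 19 / 10 * k := by push_cast; ring
  have hsC : (((19 / 10 * k : ℚ) : ℂ)) = ((19 / 10 * k : ℝ) : ℂ) := by push_cast; ring
  have hbq : (((b : ℤ) : ℚ) : ℝ) = b := by simp
  have hdist : ∀ x y : ℝ, dist (x : ℂ) (y : ℂ) = |x - y| := fun x y => by
    rw [Complex.dist_eq, ← Complex.ofReal_sub, Complex.norm_real, Real.norm_eq_abs]
  have hc : ((k : ℂ) / 2) = (((k : ℝ) / 2 : ℝ) : ℂ) := by push_cast; ring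
  have main := arch_det k n (b : ℤ) a (19 / 10 * k) m (Real.exp L) (5 / 2 * k) ((k : ℂ) / 2)
    (Real.exp_pos L) (by positivity)
    (fun j hj => by
      rw [hbq]
      push_cast
      exact pow_close a b _ k (Real.exp_le_one_iff.2 (by linarith)) h hkbR j
        (Nat.lt_succ_iff.1 (Finset.mem_range.1 hj)))
    (fun j hj => by
      have : (j : ℝ) ≤ k := by exact_mod_cast Nat.lt_succ_iff.1 (Finset.mem_range.1 hj)
      have h0 : (0 : ℝ) ≤ j := Nat.cast_nonneg j
      rw [mem_ball, hc, ← Complex.ofReal_natCast, hdist, abs_lt]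
      constructor <;> linarith)
    (by
      rw [mem_sphere, hc, hsC, hdist, abs_of_pos (by linarith)]
      linarith)
    (fun j hj => by
      have : (j : ℝ) ≤ k := by exact_mod_cast Nat.lt_succ_iff.1 (Finset.mem_range.1 hj)
      rw [mem_sphere, hsC, ← Complex.ofReal_natCast j, hdist, abs_of_pos (by linarith)]
      linarith)
    (fun i => ((2 * i - (n + 1) * (k + 1)) * Real.log k + K * (Mj (i / K) + ek k)) / 2)
    (fun i hi s hs' => by
      have hi' : (i : ℝ) ≤ m := by exact_mod_cast hi.le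
      have := est_big k n hk b hbR i (Nat.cast_nonneg i) (hi'.trans hm) s hs'
      rw [hs, hbq]
      linarith)
    (fun i hi j hj s hs' => by
      have hi' : (i : ℝ) ≤ m := by exact_mod_cast hi.le
      have := est_small k n hk b hbR i (Nat.cast_nonneg i) (hi'.trans hm) L hL j
        (Nat.lt_succ_iff.1 (Finset.mem_range.1 hj)) s hs'
      rw [hs, hbq, Real.log_exp]
      linarith)
  have h1 := Real.log_le_log (abs_pos.2 (by exact_mod_cast hne)) main
  rw [Real.log_mul (by positivity) (by positivity), Real.log_mul (by positivity) (by positivity),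
    Real.log_exp, Real.log_pow] at h1
  have hm0 : (0 : ℝ) ≤ m := Nat.cast_nonneg m
  have h2 : Real.log m.factorial ≤ m * Real.log K := by
    rw [← Real.log_pow]
    refine Real.log_le_log (by positivity) ?_
    have a1 : (m.factorial : ℝ) ≤ m ^ m := by exact_mod_cast Nat.factorial_le_pow m
    exact a1.trans (pow_le_pow_left₀ hm0 (by linarith) m)
  have h3 : m * Real.log (5 / 2 * k + (k + 1)) ≤ m * Real.log K :=
    mul_le_mul_of_nonneg_left (Real.log_le_log (by positivity) (by linarith)) hm0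
  have h4 : 2 * ∑ i ∈ range m,
      ((2 * i - (n + 1) * (k + 1)) * Real.log k + K * (Mj (i / K) + ek k)) / 2
      = (m * (m - 1) - m * ((n + 1) * (k + 1))) * Real.log k + ∑ i ∈ range m, K * Mj (i / K)
        + m * K * ek k := by
    simp only [mul_add K, ← Finset.sum_div, Finset.sum_add_distrib, ← Finset.sum_mul,
      Finset.sum_sub_distrib, ← Finset.mul_sum, sum_range_cast, Finset.sum_const, card_range,
      nsmul_eq_mul]
    ring
  have h5 := sum_Mj K hK0 m
  linarith

lemma tendsto_ek : Tendsto ek atTop (𝓝 0) := by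
  have h1 : Tendsto (fun x : ℝ => Real.log (2 * x + 1) / (2 * x + 1)) atTop (𝓝 0) := by
    have := Real.isLittleO_log_id_atTop.tendsto_div_nhds_zero
    exact this.comp (tendsto_atTop_add_const_right _ 1 (tendsto_id.const_mul_atTop two_pos))
  have h2 : Tendsto (fun x : ℝ => x⁻¹) atTop (𝓝 0) := tendsto_inv_atTop_zero
  have h3 := (((h1.mul (h2.const_add 2)).const_mul 3).add (h2.const_mul 3)).comp
    tendsto_natCast_atTop_atTop
  simp only [zero_mul, mul_zero, add_zero] at h3
  refine h3.congr' ?_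
  filter_upwards [eventually_gt_atTop 0] with k hk
  have : (0 : ℝ) < k := by exact_mod_cast hk
  simp only [Function.comp, ek]
  field_simp

theorem main : ∀ᶠ b : ℕ in atTop, ∀ a : ℤ,
    Real.exp (-(10 * b * Real.log b)) < |(a : ℝ) - Real.exp b| := by
  have hk : Tendsto (fun b : ℕ => ⌊200 / 163 * Real.log b⌋₊) atTop atTop :=
    tendsto_nat_floor_atTop.comp ((Real.tendsto_log_atTop.comp
      tendsto_natCast_atTop_atTop).const_mul_atTop (by norm_num))
  have hlog := tendsto_natCast_atTop_atTop.eventually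
    (Real.isLittleO_log_id_atTop.bound (c := 1 / 4) (by norm_num))
  filter_upwards [hk.eventually (arith (1 / 10000) (by norm_num)),
    hk.eventually (tendsto_ek.eventually (gt_mem_nhds (show (0 : ℝ) < 1 / 10000 by norm_num))),
    hk.eventually (eventually_ge_atTop 30000), hlog] with b hA hek hk1 hlog
  intro a
  set k := ⌊200 / 163 * Real.log b⌋₊ with hkdef
  by_contra hcon
  rw [not_lt] at hcon
  have hlb : 0 ≤ Real.log b := Real.log_natCast_nonneg b
  have hk2 : (k : ℝ) ≤ 200 / 163 * Real.log b := Nat.floor_le (by positivity)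
  have hk3 : 200 / 163 * Real.log b < k + 1 := Nat.lt_floor_add_one _
  have hkR : (30000 : ℝ) ≤ k := by exact_mod_cast hk1
  simp only [id, Real.norm_eq_abs, Nat.abs_cast, abs_of_nonneg hlb] at hlog
  have hkbR : 2 * (k : ℝ) ≤ b := by linarith
  have hkb : 2 * k ≤ b := by exact_mod_cast hkbR
  obtain ⟨n, hn⟩ : ∃ n, n + 1 = 4 * b := ⟨4 * b - 1, by omega⟩
  have hnR : (n : ℝ) + 1 = 4 * b := by exact_mod_cast hn
  have hb0 : (0 : ℝ) < b := by linarith
  have ha0 : ((a : ℤ) : ℚ) ≠ 0 := by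
    intro h
    have h1 : a = 0 := by exact_mod_cast h
    rw [h1, Int.cast_zero, zero_sub, abs_neg, abs_of_pos (Real.exp_pos _), Real.exp_le_exp] at hcon
    have : 0 ≤ 10 * b * Real.log b := by positivity
    linarith
  have hbk : 2 * k * k ≤ b * k := Nat.mul_le_mul_right k hkb
  have hkk : 30000 * k ≤ k * k := Nat.mul_le_mul_right k hk1
  obtain ⟨m, hm1, hm2, hne⟩ := exists_hankel_phi k n (b : ℤ) a
    (by exact_mod_cast (by omega : b ≠ 0)) ha0 (3 * (b * k) / 2 - (k + 3)) (by
      rw [hn, show k * (4 * b) = 4 * (b * k) by ring]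
      omega)
  set K : ℝ := (n + 1) * k with hK
  have hKb : K = 4 * (b * k) := by rw [hK, hnR]; ring
  have hm3 : (m : ℝ) ≤ 3 / 8 * K := by
    have : 2 * m ≤ 3 * (b * k) := by
      rw [mul_assoc] at hbk
      omega
    have h2 : 2 * (m : ℝ) ≤ 3 * (b * k) := by exact_mod_cast this
    linarith
  have hm4 : 0.374 * K ≤ m := by
    have : 1496 * (b * k) ≤ 1000 * m := by
      rw [mul_assoc] at hbk
      omega
    have h2 : 1496 * ((b : ℝ) * k) ≤ 1000 * m := by exact_mod_cast this
    linarith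
  have hlogN : Real.log (n + 1) ≤ 163 / 200 * k + 3 := by
    rw [hnR, Real.log_mul (by norm_num) hb0.ne', show (4 : ℝ) = 2 ^ 2 by norm_num, Real.log_pow]
    have := Real.log_two_lt_d9
    push_cast
    linarith
  have hlogn : Real.log n ≤ 163 / 200 * k + 3 :=
    (Real.log_le_log (by linarith) (by linarith)).trans hlogN
  have A1 := hA n (2 * b) m b a (by omega) (by omega) (by linarith) hm3 hne
  have A2 := arch k n b m a (by omega) hn hkb hm3 _ (by
    rw [← hK, hKb]
    nlinarith) hcon hne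
  rw [← hK] at A1 A2
  have hk0 : (0 : ℝ) < k := by linarith
  have hm0 : (0 : ℝ) ≤ m := Nat.cast_nonneg m
  have hK1 : 240000 * (k : ℝ) ≤ K := mul_le_mul_of_nonneg_right (by linarith) hk0.le
  have hK0 : 0 < K := by linarith
  have hlk : 0 ≤ Real.log k := Real.log_natCast_nonneg k
  have B1 : Real.log K ≤ 2 * k := by
    rw [hK, Real.log_mul (by linarith) hk0.ne']
    linarith [Real.log_le_sub_one_of_pos hk0]
  have B2 : 2 * m * Real.log K ≤ K ^ 2 / 10000 := by
    have a1 : 2 * m * Real.log K ≤ 2 * m * (2 * k) := mul_le_mul_of_nonneg_left B1 (by positivity)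
    have a2 : (m : ℝ) * k ≤ K * k := mul_le_mul_of_nonneg_right (by linarith) hk0.le
    have a3 := mul_le_mul_of_nonneg_left hK1 hK0.le
    linarith [mul_pos hK0 hK0]
  have B3 : m * K * ek k ≤ K ^ 2 / 10000 := by
    have a1 : m * K * ek k ≤ m * K * (1 / 10000) := mul_le_mul_of_nonneg_left hek.le (by positivity)
    have a2 : (m : ℝ) * K ≤ K * K := mul_le_mul_of_nonneg_right (by linarith) hK0.le
    linarith
  have B4 : (m : ℝ) ≤ K ^ 2 / 10000 := by
    have a2 : (10000 : ℝ) * K ≤ K * K := mul_le_mul_of_nonneg_right (by linarith) hK0.le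
    linarith
  have B5 : Real.log n / k - Real.log 2 - Real.eulerMascheroniConstant ≤ -0.4542 := by
    have a1 : Real.log n / k ≤ 163 / 200 + 1 / 10000 := by
      rw [div_le_iff₀ hk0]
      linarith
    linarith [Real.log_two_gt_d9, gamma_ge]
  have B6 : 0 ≤ m * (K - m) := mul_nonneg hm0 (by linarith)
  have B7 := mul_le_mul_of_nonneg_left B5 (show 0 ≤ m * K - m * (m - 1) by linarith)
  have B8 : 0 ≤ m * (n + 1) * Real.log k := by positivity
  have B9 : (m * (m - 1) - m * ((n + 1) * (k + 1))) * Real.log k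
      = -((m * K - m * (m - 1)) * Real.log k) - m * (n + 1) * Real.log k := by
    rw [hK]
    ring
  have B10 := mul_nonneg (sub_nonneg.2 hm3) (sub_nonneg.2 hm4)
  have B11 := mul_nonneg (sub_nonneg.2 hm4) hK0.le
  have B12 := mul_nonneg (sub_nonneg.2 hm3) hK0.le
  have B13 := mul_pos hK0 hK0
  linarith only [A1, A2, B2, B3, B4, B7, B8, B9, B10, B11, B12, B13, hm0]

end Pool.Agent.Lib.MP_5fa244_nt
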